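import Mathlib

/-! Peter-Weyl (separation of points), a universe-polymorphic copy of the starting file
Pool/Agent/Helper472/Lat_PW.lean. -/

set_option autoImplicit false

namespace Pool.Agent.H452Z.PW

universe u

open Pointwise

namespace PWaux1

section
open MeasureTheory Filter Topology
open scoped ComplexConjugate

section Rep

variable {B : Type u} [Group B] [TopologicalSpace B] [IsTopologicalGroup B] [CompactSpace B]

/-- Left translation of continuous functions. -/
noncomputable def Lt (g : B) : C(B, ℂ) →ₗ[ℂ] C(B, ℂ) where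
  toFun φ := φ.comp ⟨fun x => g⁻¹ * x, by fun_prop⟩
  map_add' _ _ := rfl
  map_smul' _ _ := rfl

omit [CompactSpace B] in
lemma Lt_apply (g : B) (φ : C(B, ℂ)) (x : B) : Lt g φ x = φ (g⁻¹ * x) := rfl

omit [CompactSpace B] in
lemma Lt_one (φ : C(B, ℂ)) : Lt (1 : B) φ = φ := by
  ext x; rw [Lt_apply]; simp

omit [CompactSpace B] in
lemma Lt_mul (g h : B) (φ : C(B, ℂ)) : Lt (g * h) φ = Lt g (Lt h φ) := by
  ext x; rw [Lt_apply, Lt_apply, Lt_apply, mul_inv_rev, mul_assoc]

lemma Lt_cont (φ : C(B, ℂ)) : Continuous (fun g : B => Lt g φ) := by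
  have h : Continuous (fun g : B =>
      (ContinuousMap.curry (⟨fun q : B × B => φ (q.1⁻¹ * q.2), by fun_prop⟩ : C(B × B, ℂ))) g) :=
    ContinuousMap.continuous _
  exact h

lemma fix_of_all {b : B}
    (H : ∀ (N : ℕ) (ρ : B →* Matrix (Fin N) (Fin N) ℂ), Continuous ρ → ρ b = 1)
    (V : Submodule ℂ C(B, ℂ)) [FiniteDimensional ℂ V] (hV : ∀ g : B, ∀ φ ∈ V, Lt g φ ∈ V) :
    ∀ φ ∈ V, Lt b φ = φ := by
  let rep : B →* (V →ₗ[ℂ] V) :=
    { toFun := fun g => (Lt g).restrict (hV g)
      map_one' := by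
        ext φ x
        exact congrArg (fun ψ : C(B, ℂ) => ψ x) (Lt_one φ.1)
      map_mul' := fun g h => by
        ext φ x
        exact congrArg (fun ψ : C(B, ℂ) => ψ x) (Lt_mul g h φ.1) }
  have hrep : ∀ g (φ : V), ((rep g φ : V) : C(B, ℂ)) = Lt g φ.1 := fun _ _ => rfl
  let bas := Module.finBasis ℂ V
  let ρ : B →* Matrix (Fin (Module.finrank ℂ V)) (Fin (Module.finrank ℂ V)) ℂ :=
    ((LinearMap.toMatrixAlgEquiv bas : (V →ₗ[ℂ] V) →* _)).comp rep
  have hρ : ∀ g, ρ g = LinearMap.toMatrixAlgEquiv bas (rep g) := fun _ => rfl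
  have hc : Continuous ρ := by
    refine continuous_matrix fun i j => ?_
    have h1 : ∀ g, ρ g i j = bas.coord i (rep g (bas j)) := by
      intro g
      rw [hρ, LinearMap.toMatrixAlgEquiv_apply]
      rfl
    simp only [h1]
    have h2 : Continuous (bas.coord i) := LinearMap.continuous_of_finiteDimensional _
    refine h2.comp ?_
    rw [continuous_induced_rng]
    exact Lt_cont (bas j).1
  have h3 := H _ ρ hc
  rw [hρ] at h3
  have h4 : rep b = 1 := by
    apply (LinearMap.toMatrixAlgEquiv bas).injective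
    rw [h3, map_one]
  intro φ hφ
  have h5 := hrep b ⟨φ, hφ⟩
  rw [h4] at h5
  exact h5.symm

end Rep

section PW

variable {B : Type u} [Group B] [TopologicalSpace B] [IsTopologicalGroup B] [CompactSpace B]
  [T2Space B] [MeasurableSpace B] [BorelSpace B] (μ : Measure B) [IsFiniteMeasure μ]

/-- The convolution kernel. -/
noncomputable def ker2 (k : C(B, ℂ)) : C(B × B, ℂ) := ⟨fun q => k (q.1⁻¹ * q.2), by fun_prop⟩

/-- The kernel as a map into `L^2`. -/
noncomputable def kap (k : C(B, ℂ)) : C(B, Lp ℂ 2 μ) :=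
  ⟨fun x => ContinuousMap.toLp 2 μ ℂ ((ker2 k).curry x), by fun_prop⟩

/-- The convolution operator, with values in the continuous functions. -/
noncomputable def Aop (k : C(B, ℂ)) : Lp ℂ 2 μ →L[ℂ] C(B, ℂ) :=
  LinearMap.mkContinuous
    { toFun := fun f => ⟨fun x => inner ℂ (kap μ k x) f, by fun_prop⟩
      map_add' := fun f g => by ext x; exact inner_add_right (𝕜 := ℂ) (kap μ k x) f g
      map_smul' := fun c f => by ext x; exact inner_smul_right (𝕜 := ℂ) (kap μ k x) f c } ‖kap μ k‖ (by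
    intro f
    rw [ContinuousMap.norm_le _ (by positivity)]
    intro x
    refine (norm_inner_le_norm (𝕜 := ℂ) (kap μ k x) f).trans ?_
    exact mul_le_mul_of_nonneg_right (ContinuousMap.norm_coe_le_norm (kap μ k) x) (norm_nonneg f))

lemma Aop_apply (k : C(B, ℂ)) (f : Lp ℂ 2 μ) (x : B) :
    Aop μ k f x = inner ℂ (kap μ k x) f := rfl

lemma Aop_toLp (k φ : C(B, ℂ)) (x : B) :
    Aop μ k (ContinuousMap.toLp 2 μ ℂ φ) x = ∫ y, φ y * conj (k (x⁻¹ * y)) ∂μ := by
  rw [Aop_apply]
  exact ContinuousMap.inner_toLp μ _ _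

lemma Aop_compact (k : C(B, ℂ)) : IsCompactOperator (Aop μ k) := by
  set Φ := ContinuousMap.linearIsometryBoundedOfCompact B ℂ ℂ with hΦ
  let S : Set (BoundedContinuousFunction B ℂ) := (fun f => Φ (Aop μ k f)) '' Metric.ball 0 1
  have hS : IsCompact (closure S) := by
    refine BoundedContinuousFunction.arzela_ascoli (Metric.closedBall 0 ‖kap μ k‖)
      (isCompact_closedBall _ _) S ?_ ?_
    · rintro _ x ⟨f, hf, rfl⟩
      rw [mem_closedBall_zero_iff]
      rw [mem_ball_zero_iff] at hf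
      show ‖Aop μ k f x‖ ≤ _
      rw [Aop_apply]
      refine (norm_inner_le_norm _ _).trans ?_
      have h1 := ContinuousMap.norm_coe_le_norm (kap μ k) x
      nlinarith [norm_nonneg (kap μ k x), norm_nonneg f]
    · intro x₀
      apply Metric.equicontinuousAt_of_continuity_modulus (fun x => ‖kap μ k x₀ - kap μ k x‖)
      · have : Continuous (fun x => ‖kap μ k x₀ - kap μ k x‖) := by fun_prop
        have h := this.tendsto x₀
        simpa using h
      · filter_upwards with x
        rintro ⟨_, f, hf, rfl⟩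
        rw [mem_ball_zero_iff] at hf
        show dist (Aop μ k f x₀) (Aop μ k f x) ≤ _
        rw [Aop_apply, Aop_apply, dist_eq_norm, ← inner_sub_left]
        refine (norm_inner_le_norm _ _).trans ?_
        nlinarith [norm_nonneg (kap μ k x₀ - kap μ k x), norm_nonneg f]
  rw [isCompactOperator_iff_exists_mem_nhds_image_subset_compact]
  refine ⟨Metric.ball 0 1, Metric.ball_mem_nhds 0 one_pos, Φ.symm '' closure S,
    hS.image Φ.symm.continuous, ?_⟩
  rintro _ ⟨f, hf, rfl⟩
  exact ⟨Φ (Aop μ k f), subset_closure ⟨f, hf, rfl⟩, by simp⟩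

/-- The convolution operator on `L^2`. -/
noncomputable def Top (k : C(B, ℂ)) : Lp ℂ 2 μ →L[ℂ] Lp ℂ 2 μ :=
  (ContinuousMap.toLp 2 μ ℂ).comp (Aop μ k)

lemma Top_compact (k : C(B, ℂ)) : IsCompactOperator (Top μ k) :=
  (Aop_compact μ k).clm_comp (ContinuousMap.toLp 2 μ ℂ)

lemma Top_symm [μ.WeaklyRegular] {k : C(B, ℂ)} (hk : ∀ z, conj (k z) = k z)
    (hinv : ∀ z, k z⁻¹ = k z) (f g : Lp ℂ 2 μ) :
    inner ℂ (Top μ k f) g = inner ℂ f (Top μ k g) := by
  have hd := ContinuousMap.toLp_denseRange ℂ μ ℂ (p := 2) (by norm_num)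
  have hsw : ∀ φ ψ : C(B, ℂ), inner ℂ (Top μ k (ContinuousMap.toLp 2 μ ℂ φ))
      (ContinuousMap.toLp 2 μ ℂ ψ) = inner ℂ (ContinuousMap.toLp 2 μ ℂ φ)
      (Top μ k (ContinuousMap.toLp 2 μ ℂ ψ)) := by
    intro φ ψ
    unfold Top
    rw [ContinuousLinearMap.comp_apply, ContinuousLinearMap.comp_apply,
      ContinuousMap.inner_toLp, ContinuousMap.inner_toLp]
    have e1 : ∀ x, ψ x * conj ((Aop μ k) (ContinuousMap.toLp 2 μ ℂ φ) x) =
        ∫ y, ψ x * (conj (φ y) * k (x⁻¹ * y)) ∂μ := by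
      intro x
      rw [Aop_toLp, ← integral_conj, ← integral_const_mul]
      congr 1
      funext y
      rw [map_mul, Complex.conj_conj]
    have e2 : ∀ x, (Aop μ k) (ContinuousMap.toLp 2 μ ℂ ψ) x * conj (φ x) =
        ∫ y, ψ y * (conj (φ x) * k (y⁻¹ * x)) ∂μ := by
      intro x
      rw [Aop_toLp, ← integral_mul_const]
      congr 1
      funext y
      have : k (y⁻¹ * x) = k (x⁻¹ * y) := by
        rw [← hinv (x⁻¹ * y)]
        congr 1
        group
      rw [this, hk]
      ring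
    simp only [e1, e2]
    apply integral_integral_swap_of_hasCompactSupport
    · show Continuous (fun q : B × B => ψ q.1 * (conj (φ q.2) * k (q.1⁻¹ * q.2)))
      have h1 : Continuous (fun q : B × B => conj (φ q.2)) :=
        Complex.continuous_conj.comp (φ.continuous.comp continuous_snd)
      fun_prop
    · exact HasCompactSupport.of_compactSpace _
  refine hd.induction_on (p := fun f => inner ℂ (Top μ k f) g = inner ℂ f (Top μ k g)) f ?_ ?_
  · exact isClosed_eq (by fun_prop) (by fun_prop)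
  · intro φ
    refine hd.induction_on (p := fun g => inner ℂ (Top μ k (ContinuousMap.toLp 2 μ ℂ φ)) g =
      inner ℂ (ContinuousMap.toLp 2 μ ℂ φ) (Top μ k g)) g ?_ ?_
    · exact isClosed_eq (by fun_prop) (by fun_prop)
    · intro ψ
      exact hsw φ ψ

/-- Commutation with left translation. -/
lemma Aop_Lt [μ.IsMulLeftInvariant] (k φ : C(B, ℂ)) (g : B) :
    Aop μ k (ContinuousMap.toLp 2 μ ℂ (Lt g φ)) = Lt g (Aop μ k (ContinuousMap.toLp 2 μ ℂ φ)) := by
  ext x
  rw [Lt_apply, Aop_toLp, Aop_toLp]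
  rw [← integral_mul_left_eq_self (fun y => (Lt g φ) y * conj (k (x⁻¹ * y))) g]
  congr 1
  funext y
  rw [Lt_apply, inv_mul_cancel_left, mul_inv_rev, inv_inv, mul_assoc]

theorem main [μ.WeaklyRegular] [μ.IsMulLeftInvariant] [μ.IsOpenPosMeasure] {b : B} (hb : b ≠ 1)
    (H : ∀ (N : ℕ) (ρ : B →* Matrix (Fin N) (Fin N) ℂ), Continuous ρ → ρ b = 1) : False := by
  -- the function
  obtain ⟨g, hg0, hg1, -⟩ := exists_continuous_zero_one_of_isClosed
    (isClosed_singleton (x := b)) (isClosed_singleton (x := (1 : B)))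
    (by rw [Set.disjoint_singleton]; exact hb)
  let k : C(B, ℂ) := ⟨fun x => ((g x * g x⁻¹ : ℝ) : ℂ), by fun_prop⟩
  have hkd : ∀ x, k x = ((g x * g x⁻¹ : ℝ) : ℂ) := fun _ => rfl
  have hk : ∀ z, conj (k z) = k z := fun z => by rw [hkd, Complex.conj_ofReal]
  have hinv : ∀ z, k z⁻¹ = k z := fun z => by rw [hkd, hkd, inv_inv, mul_comm]
  have hk1 : k 1 = 1 := by
    have : g 1 = 1 := hg1 rfl
    rw [hkd, inv_one, this]; simp
  have hkb : k b = 0 := by
    have : g b = 0 := hg0 rfl
    rw [hkd, this]; simp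
  have hcomp := Top_compact μ k
  have hsym : (Top μ k).IsSymmetric := fun f g => Top_symm μ hk hinv f g
  -- every eigenvector is mapped to an invariant function
  have hinvt : ∀ lam : ℂ, ∀ f ∈ Module.End.eigenspace (Top μ k : Module.End ℂ (Lp ℂ 2 μ)) lam,
      Lt b (Aop μ k f) = Aop μ k f := by
    intro lam f hf
    have hf' : Top μ k f = lam • f := Module.End.mem_eigenspace_iff.1 hf
    by_cases hlam : lam = 0
    · rw [hlam, zero_smul] at hf'
      have h1 : Aop μ k f = 0 := by
        apply ContinuousMap.toLp_injective (p := 2) (𝕜 := ℂ) μ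
        rw [map_zero]; exact hf'
      rw [h1, map_zero]
    · -- the eigenspace in the continuous functions
      let S : C(B, ℂ) →ₗ[ℂ] C(B, ℂ) :=
        (Aop μ k).toLinearMap.comp (ContinuousMap.toLp 2 μ ℂ).toLinearMap
      have hSd : ∀ φ, S φ = Aop μ k (ContinuousMap.toLp 2 μ ℂ φ) := fun _ => rfl
      let V : Submodule ℂ C(B, ℂ) := Module.End.eigenspace S lam
      have hVle : V ≤ (Module.End.eigenspace (Top μ k : Module.End ℂ (Lp ℂ 2 μ)) lam).map
          (Aop μ k).toLinearMap := by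
        intro φ hφ
        have hφ' : Aop μ k (ContinuousMap.toLp 2 μ ℂ φ) = lam • φ :=
          Module.End.mem_eigenspace_iff.1 hφ
        refine ⟨lam⁻¹ • ContinuousMap.toLp 2 μ ℂ φ, ?_, ?_⟩
        · apply Submodule.smul_mem
          apply Module.End.mem_eigenspace_iff.2
          show ContinuousMap.toLp 2 μ ℂ (Aop μ k (ContinuousMap.toLp 2 μ ℂ φ)) = _
          rw [hφ', map_smul]
        · show Aop μ k (lam⁻¹ • ContinuousMap.toLp 2 μ ℂ φ) = φ
          rw [map_smul, hφ', smul_smul, inv_mul_cancel₀ hlam, one_smul]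
      have hfd : FiniteDimensional ℂ
          (Module.End.eigenspace (Top μ k : Module.End ℂ (Lp ℂ 2 μ)) lam) :=
        ContinuousLinearMap.finite_dimensional_eigenspace hcomp lam hlam
      have hfdV : FiniteDimensional ℂ V := Submodule.finiteDimensional_of_le hVle
      have hVinv : ∀ g : B, ∀ φ ∈ V, Lt g φ ∈ V := by
        intro g φ hφ
        have hφ' : Aop μ k (ContinuousMap.toLp 2 μ ℂ φ) = lam • φ :=
          Module.End.mem_eigenspace_iff.1 hφ
        apply Module.End.mem_eigenspace_iff.2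
        rw [hSd, Aop_Lt, hφ', map_smul]
      apply fix_of_all H V hVinv
      apply Module.End.mem_eigenspace_iff.2
      rw [hSd]
      show Aop μ k (Top μ k f) = _
      rw [hf', map_smul]
  -- hence for all `f`
  have hall : ∀ f : Lp ℂ 2 μ, Lt b (Aop μ k f) = Aop μ k f := by
    have horth := ContinuousLinearMap.orthogonalComplement_iSup_eigenspaces_eq_bot hcomp hsym
    have hdense : (⨆ lam, Module.End.eigenspace (Top μ k : Module.End ℂ (Lp ℂ 2 μ)) lam).topologicalClosure = ⊤ := by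
      rw [← Submodule.topologicalClosure_eq_top_iff] at horth
      exact horth
    intro f
    ext x
    let W : Submodule ℂ (Lp ℂ 2 μ) := LinearMap.ker
      ((innerSL ℂ (kap μ k (b⁻¹ * x) - kap μ k x)) : Lp ℂ 2 μ →L[ℂ] ℂ).toLinearMap
    have hWc : IsClosed (W : Set (Lp ℂ 2 μ)) :=
      ContinuousLinearMap.isClosed_ker (innerSL ℂ (kap μ k (b⁻¹ * x) - kap μ k x))
    have hmem : ∀ f, f ∈ W ↔ inner ℂ (kap μ k (b⁻¹ * x) - kap μ k x) f = 0 := fun f => Iff.rfl
    have hle : (⨆ lam, Module.End.eigenspace (Top μ k : Module.End ℂ (Lp ℂ 2 μ)) lam) ≤ W := by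
      apply iSup_le
      intro lam f hf
      rw [hmem, inner_sub_left, sub_eq_zero]
      have := congrArg (fun ψ : C(B, ℂ) => ψ x) (hinvt lam f hf)
      exact this
    have htop : W = ⊤ := by
      rw [eq_top_iff, ← hdense]
      exact Submodule.topologicalClosure_minimal _ hle hWc
    have hfW : f ∈ W := by rw [htop]; trivial
    rw [hmem, inner_sub_left, sub_eq_zero] at hfW
    exact hfW
  -- the kernel is invariant
  have hkap : kap μ k (b⁻¹ * 1) = kap μ k 1 := by
    rw [← sub_eq_zero]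
    apply (inner_self_eq_zero (𝕜 := ℂ)).1
    rw [inner_sub_left, sub_eq_zero]
    exact congrArg (fun ψ : C(B, ℂ) => ψ 1) (hall (kap μ k (b⁻¹ * 1) - kap μ k 1))
  have h1 : (ker2 k).curry (b⁻¹ * 1) = (ker2 k).curry 1 :=
    ContinuousMap.toLp_injective (p := 2) (𝕜 := ℂ) μ hkap
  have h2 := congrArg (fun ψ : C(B, ℂ) => ψ 1) h1
  have h3 : k ((b⁻¹ * 1)⁻¹ * 1) = k ((1 : B)⁻¹ * 1) := h2
  simp only [mul_one, inv_inv, inv_one] at h3
  rw [hkb, hk1] at h3
  exact zero_ne_one h3

end PW

/-- Peter-Weyl, separation of points: continuous finite-dimensional matrix representations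
of a compact Hausdorff group separate points. -/
theorem exists_rep_ne_one (B : Type u) [Group B] [TopologicalSpace B] [IsTopologicalGroup B]
    [CompactSpace B] [T2Space B] (b : B) (hb : b ≠ 1) :
    ∃ (N : ℕ) (ρ : B →* Matrix (Fin N) (Fin N) ℂ), Continuous ρ ∧ ρ b ≠ 1 := by
  by_contra hcon
  push Not at hcon
  let _ : MeasurableSpace B := borel B
  have _ : BorelSpace B := ⟨rfl⟩
  exact main (Measure.haar : Measure B) hb hcon


end

end PWaux1

end Pool.Agent.H452Z.PW
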