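import Mathlib
import Pool.Agent.H452Z.PW

/-! Characters of a compact abelian group separate points; trigonometric polynomials are dense. -/

set_option linter.unusedSectionVars false

namespace Pool.Agent.H452Z.Chars

universe u

open Filter Topology

/-- common eigenvector of a commuting family in an invariant subspace -/
lemma common_eigen {V : Type} [AddCommGroup V] [Module ℂ V] [FiniteDimensional ℂ V]
    {ι : Type u} (T : ι → V →ₗ[ℂ] V) (hT : ∀ i j v, T i (T j v) = T j (T i v)) :
    ∀ (n : ℕ) (W : Submodule ℂ V), Module.finrank ℂ W = n → W ≠ ⊥ → (∀ i, ∀ v ∈ W, T i v ∈ W) →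
      ∃ v ∈ W, v ≠ 0 ∧ ∀ i, ∃ c : ℂ, T i v = c • v := by
  intro n
  induction n using Nat.strong_induction_on with
  | _ n ih =>
    intro W hn hW hinv
    by_cases h : ∀ i, ∃ c : ℂ, ∀ v ∈ W, T i v = c • v
    · obtain ⟨v, hv, hv0⟩ := (Submodule.ne_bot_iff W).mp hW
      exact ⟨v, hv, hv0, fun i => (h i).imp fun c hc => hc v hv⟩
    · push Not at h
      obtain ⟨i, hi⟩ := h
      have : Nontrivial W := Submodule.nontrivial_iff_ne_bot.mpr hW
      let T' : Module.End ℂ W := (T i).restrict (fun v hv => hinv i v hv)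
      obtain ⟨c, hc⟩ := Module.End.exists_eigenvalue T'
      obtain ⟨w, hw⟩ := hc.exists_hasEigenvector
      let W' : Submodule ℂ V := W ⊓ LinearMap.ker (T i - c • LinearMap.id)
      have hmem : ∀ v, v ∈ W' ↔ v ∈ W ∧ T i v = c • v := by
        intro v
        simp [W', sub_eq_zero]
      have hlt : W' < W := by
        refine lt_of_le_of_ne inf_le_left fun he => ?_
        obtain ⟨v, hv, hv2⟩ := hi c
        exact hv2 ((hmem v).mp (he ▸ hv)).2
      have hne : W' ≠ ⊥ := by
        rw [Submodule.ne_bot_iff]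
        refine ⟨w, (hmem w).mpr ⟨w.2, ?_⟩, fun h0 => hw.2 (Subtype.ext h0)⟩
        exact congrArg Subtype.val hw.apply_eq_smul
      obtain ⟨v, hv, hv0, hv2⟩ := ih _ (hn ▸ Submodule.finrank_lt_finrank_of_lt hlt) W' rfl hne (by
        intro j v hv
        rw [hmem] at hv ⊢
        refine ⟨hinv j v hv.1, ?_⟩
        rw [hT, hv.2, map_smul])
      exact ⟨v, ((hmem v).mp hv).1, hv0, hv2⟩

variable {G : Type u} [CommGroup G] [TopologicalSpace G] [IsTopologicalGroup G] [CompactSpace G]

/-- continuous characters, as continuous functions -/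
def IsChar (χ : C(G, ℂ)) : Prop := χ 1 = 1 ∧ ∀ x y, χ (x * y) = χ x * χ y

lemma IsChar.pow {χ : C(G, ℂ)} (h : IsChar χ) (x : G) (n : ℕ) : χ (x ^ n) = χ x ^ n := by
  induction n with
  | zero => simpa using h.1
  | succ n ih => rw [pow_succ, h.2, ih, pow_succ]

lemma IsChar.norm_le {χ : C(G, ℂ)} (h : IsChar χ) (x : G) : ‖χ x‖ ≤ 1 := by
  by_contra hc
  push Not at hc
  obtain ⟨n, hn⟩ := pow_unbounded_of_one_lt ‖χ‖ hc
  have := χ.norm_coe_le_norm (x ^ n)
  rw [h.pow, norm_pow] at this
  linarith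

lemma IsChar.mul_inv {χ : C(G, ℂ)} (h : IsChar χ) (x : G) : χ x * χ x⁻¹ = 1 := by
  rw [← h.2, mul_inv_cancel, h.1]

lemma IsChar.norm_eq {χ : C(G, ℂ)} (h : IsChar χ) (x : G) : ‖χ x‖ = 1 := by
  have h1 := congrArg norm (h.mul_inv x)
  rw [norm_mul, norm_one] at h1
  have h2 := h.norm_le x
  have h3 := h.norm_le x⁻¹
  nlinarith [norm_nonneg (χ x), norm_nonneg (χ x⁻¹)]

lemma IsChar.one : IsChar (1 : C(G, ℂ)) := ⟨rfl, fun _ _ => by simp⟩

lemma IsChar.mul {χ ψ : C(G, ℂ)} (h : IsChar χ) (h' : IsChar ψ) : IsChar (χ * ψ) :=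
  ⟨by simp [h.1, h'.1], fun x y => by simp only [ContinuousMap.mul_apply, h.2, h'.2]; ring⟩

lemma IsChar.star {χ : C(G, ℂ)} (h : IsChar χ) : IsChar (star χ) :=
  ⟨by simp [h.1], fun x y => by simp [h.2]⟩

lemma IsChar.star_mul_self {χ : C(G, ℂ)} (h : IsChar χ) : Star.star χ * χ = 1 := by
  ext x
  simp only [ContinuousMap.mul_apply, ContinuousMap.star_apply, ContinuousMap.one_apply,
    RCLike.star_def]
  rw [Complex.conj_mul', h.norm_eq]; simp

theorem exists_char_ne_one [T2Space G] (b : G) (hb : b ≠ 1) :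
    ∃ χ : C(G, ℂ), IsChar χ ∧ χ b ≠ 1 := by
  obtain ⟨N, ρ, hρ, hρb⟩ := PW.PWaux1.exists_rep_ne_one G b hb
  let T : G → (Fin N → ℂ) →ₗ[ℂ] (Fin N → ℂ) := fun g => Matrix.toLin' (ρ g)
  have hTm : ∀ g h v, T g (T h v) = T (g * h) v := by
    intro g h v
    simp only [T, map_mul, Matrix.toLin'_mul, LinearMap.comp_apply]
  have hT1 : ∀ v, T 1 v = v := by intro v; simp [T]
  let W : Submodule ℂ (Fin N → ℂ) := LinearMap.range (T b - LinearMap.id)
  have hW : W ≠ ⊥ := by
    intro h
    apply hρb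
    rw [LinearMap.range_eq_bot, sub_eq_zero] at h
    apply Matrix.toLin'.injective
    rw [Matrix.toLin'_one]
    exact h
  obtain ⟨v, ⟨w, hw⟩, hv0, hv⟩ := common_eigen T (fun g h v => by rw [hTm, hTm, mul_comm]) _ W rfl
    hW (by
      rintro g v ⟨w, rfl⟩
      refine ⟨T g w, ?_⟩
      simp only [LinearMap.sub_apply, LinearMap.id_apply, map_sub, hTm, mul_comm])
  choose c hc using hv
  obtain ⟨i, hi⟩ := Function.ne_iff.mp hv0
  have hi' : v i ≠ 0 := hi
  have hcdef : ∀ g, c g = (T g v) i / v i := by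
    intro g
    rw [hc, Pi.smul_apply, smul_eq_mul, mul_div_assoc, div_self hi', mul_one]
  have hcont : ∀ u : Fin N → ℂ, Continuous fun g => (T g u) i := by
    intro u
    simp only [T, Matrix.toLin'_apply, Matrix.mulVec, dotProduct]
    refine continuous_finsetSum _ fun j _ => ?_
    exact (hρ.matrix_elem i j).mul continuous_const
  refine ⟨⟨c, ?_⟩, ⟨?_, ?_⟩, ?_⟩
  · have : c = fun g => (T g v) i / v i := funext hcdef
    rw [this]
    exact (hcont v).div_const _
  · change c 1 = 1
    rw [hcdef, hT1, div_self hi']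
  · intro x y
    change c (x * y) = c x * c y
    have h1 : T (x * y) v = (c x * c y) • v := by
      rw [← hTm, hc y, map_smul, hc x, smul_smul, mul_comm]
    rw [hcdef, h1, Pi.smul_apply, smul_eq_mul, mul_div_assoc, div_self hi', mul_one]
  · change c b ≠ 1
    intro hcb
    have h1 : T b v = v := by rw [hc, hcb, one_smul]
    have h2 : T b w = w + v := by
      rw [← hw]; simp
    have h3 : ∀ n : ℕ, T (b ^ n) w = w + (n : ℂ) • v := by
      intro n
      induction n with
      | zero => simp [hT1]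
      | succ n ih =>
        rw [pow_succ', ← hTm, ih, map_add, map_smul, h1, h2]
        push_cast
        rw [add_smul, one_smul]; abel
    let F : C(G, ℂ) := ⟨fun g => (T g w) i, hcont w⟩
    obtain ⟨n, hn⟩ := exists_nat_gt ((‖F‖ + ‖w i‖) / ‖v i‖)
    have h4 := F.norm_coe_le_norm (b ^ n)
    change ‖(T (b ^ n) w) i‖ ≤ _ at h4
    rw [h3, Pi.add_apply, Pi.smul_apply, smul_eq_mul] at h4
    have h5 : ‖(n : ℂ) * v i‖ ≤ ‖w i + (n : ℂ) * v i‖ + ‖w i‖ := by
      have := norm_sub_le (w i + (n : ℂ) * v i) (w i)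
      simpa using this
    rw [norm_mul, Complex.norm_natCast] at h5
    rw [div_lt_iff₀ (norm_pos_iff.mpr hi')] at hn
    linarith

/-- trigonometric polynomials -/
noncomputable def trig (G : Type u) [CommGroup G] [TopologicalSpace G] : Submodule ℂ C(G, ℂ) :=
  Submodule.span ℂ {χ | IsChar χ}

noncomputable def trigAlg (G : Type u) [CommGroup G] [TopologicalSpace G] [IsTopologicalGroup G]
    [CompactSpace G] : StarSubalgebra ℂ C(G, ℂ) where
  carrier := trig G
  mul_mem' := by
    intro a b ha hb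
    have : trig G * trig G ≤ trig G := by
      unfold trig
      rw [Submodule.span_mul_span]
      apply Submodule.span_mono
      rintro _ ⟨x, hx, y, hy, rfl⟩
      exact IsChar.mul hx hy
    exact this (Submodule.mul_mem_mul ha hb)
  add_mem' := fun ha hb => (trig G).add_mem ha hb
  algebraMap_mem' := by
    intro c
    rw [Algebra.algebraMap_eq_smul_one]
    exact (trig G).smul_mem c (Submodule.subset_span IsChar.one)
  star_mem' := by
    intro a ha
    change a ∈ trig G at ha
    change star a ∈ trig G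
    induction ha using Submodule.span_induction with
    | mem x hx => exact Submodule.subset_span (IsChar.star hx)
    | zero => simp
    | add x y _ _ hx hy => rw [star_add]; exact (trig G).add_mem hx hy
    | smul c x _ hx => rw [star_smul]; exact (trig G).smul_mem _ hx

theorem trig_dense [T2Space G] : Dense (trig G : Set C(G, ℂ)) := by
  have h := ContinuousMap.starSubalgebra_topologicalClosure_eq_top_of_separatesPoints
    (trigAlg G) (by
      intro x y hxy
      obtain ⟨χ, hχ, hne⟩ := exists_char_ne_one (x * y⁻¹) (by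
        intro h; exact hxy (mul_inv_eq_one.mp h))
      refine ⟨χ, ⟨χ, Submodule.subset_span hχ, rfl⟩, fun h => hne ?_⟩
      rw [hχ.2, h, hχ.mul_inv])
  rw [dense_iff_closure_eq]
  exact congrArg (fun S : StarSubalgebra ℂ C(G, ℂ) => (S : Set C(G, ℂ))) h

end Pool.Agent.H452Z.Chars
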