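import Pool.Agent.H191Z.RDefs
import Pool.Agent.H191Z.GenusDefs

set_option autoImplicit false

open TensorProduct CategoryTheory AlgebraicGeometry Polynomial
open Pool.Agent.H191Z.Gerbe Pool.Agent.H191Z.Rig

namespace Pool.Agent.H452Z.Frob

lemma add_pow_q {p : ℕ} (hp : p.Prime) {B : Type} [CommRing B] (h0 : (p : B) = 0) (n : ℕ)
    (x y : B) : (x + y) ^ (p ^ n) = x ^ (p ^ n) + y ^ (p ^ n) := by
  obtain ⟨r, hr⟩ := exists_add_pow_prime_pow_eq hp x y n
  rw [hr, h0]; simp

lemma natCast_zero {p : ℕ} (R B : Type) [CommRing R] [CommRing B] [Algebra R B]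
    (h0 : (p : R) = 0) : (p : B) = 0 := by
  rw [← map_natCast (algebraMap R B), h0, map_zero]

/-- transport along an isomorphism -/
noncomputable def frobCongr (q : ℕ) {R B B' : Type} [CommRing R] [CommRing B] [CommRing B']
    [Algebra R B] [Algebra R B'] (e : B ≃ₐ[R] B') : frobSub q R B ≃ₐ[R] frobSub q R B' :=
  (e.subalgebraMap (frobSub q R B)).trans (Subalgebra.equivOfEq _ _ (by
    unfold frobSub
    rw [AlgHom.map_adjoin]
    congr 1
    ext y
    constructor
    · rintro ⟨_, ⟨b, rfl⟩, rfl⟩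
      exact ⟨e b, by simp⟩
    · rintro ⟨b, rfl⟩
      exact ⟨e.symm b ^ q, ⟨e.symm b, rfl⟩, by simp⟩))

/-- flat base change -/
lemma frob_baseChange {p : ℕ} (hp : p.Prime) (n : ℕ) (R B R' : Type) [CommRing R] [CommRing B]
    [Algebra R B] [CommRing R'] [Algebra R R'] [Module.Flat R R'] (h0 : (p : R) = 0) :
    Nonempty ((R' ⊗[R] frobSub (p ^ n) R B) ≃ₐ[R'] frobSub (p ^ n) R' (R' ⊗[R] B)) := by
  set q := p ^ n with hq
  let φ : R' ⊗[R] frobSub q R B →ₐ[R'] R' ⊗[R] B :=
    Algebra.TensorProduct.map (AlgHom.id R' R') (frobSub q R B).val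
  have hinj : Function.Injective φ :=
    Module.Flat.lTensor_preserves_injective_linearMap (M := R')
      (frobSub q R B).val.toLinearMap Subtype.val_injective
  have h1 : (p : R' ⊗[R] B) = 0 := natCast_zero R _ h0
  have hrange : φ.range = frobSub q R' (R' ⊗[R] B) := by
    apply le_antisymm
    · rintro _ ⟨x, rfl⟩
      change φ x ∈ _
      induction x using TensorProduct.induction_on with
      | zero => rw [map_zero]; exact Subalgebra.zero_mem _
      | add x y hx hy => rw [map_add]; exact Subalgebra.add_mem _ hx hy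
      | tmul r s =>
        obtain ⟨s, hs⟩ := s
        have key : (1 : R') ⊗ₜ[R] s ∈ frobSub q R' (R' ⊗[R] B) := by
          induction hs using Algebra.adjoin_induction with
          | mem x hx =>
            obtain ⟨b, rfl⟩ := hx
            apply Algebra.subset_adjoin
            exact ⟨(1 : R') ⊗ₜ[R] b, by simp [Algebra.TensorProduct.tmul_pow]⟩
          | algebraMap r =>
            have : (1 : R') ⊗ₜ[R] (algebraMap R B r) =
                algebraMap R' (R' ⊗[R] B) (algebraMap R R' r) := by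
              rw [← IsScalarTower.algebraMap_apply, Algebra.TensorProduct.algebraMap_apply']
            rw [this]
            exact Subalgebra.algebraMap_mem _ _
          | add x y _ _ hx hy => rw [TensorProduct.tmul_add]; exact Subalgebra.add_mem _ hx hy
          | mul x y _ _ hx hy =>
            have : (1 : R') ⊗ₜ[R] (x * y) = ((1 : R') ⊗ₜ[R] x) * ((1 : R') ⊗ₜ[R] y) := by
              rw [Algebra.TensorProduct.tmul_mul_tmul, one_mul]
            rw [this]; exact Subalgebra.mul_mem _ hx hy
        have : φ (r ⊗ₜ[R] ⟨s, hs⟩) = r • ((1 : R') ⊗ₜ[R] s) := by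
          simp [φ, TensorProduct.smul_tmul']
        rw [this]
        exact Subalgebra.smul_mem _ key r
    · unfold frobSub
      rw [Algebra.adjoin_le_iff]
      rintro _ ⟨x, rfl⟩
      change x ^ q ∈ φ.range
      induction x using TensorProduct.induction_on with
      | zero => rw [zero_pow (pow_ne_zero n hp.ne_zero)]; exact Subalgebra.zero_mem _
      | add x y hx hy =>
        have e : (x + y) ^ q = x ^ q + y ^ q := add_pow_q hp h1 n x y
        rw [e]; exact Subalgebra.add_mem _ hx hy
      | tmul r b =>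
        refine ⟨(r ^ q) ⊗ₜ[R] ⟨b ^ q, Algebra.subset_adjoin ⟨b, rfl⟩⟩, ?_⟩
        simp [φ, Algebra.TensorProduct.tmul_pow]
  exact ⟨(AlgEquiv.ofInjective φ hinj).trans (Subalgebra.equivOfEq _ _ hrange)⟩

attribute [local instance] Ideal.Quotient.field in
lemma etale_of_reduced (K A : Type) [Field K] [IsAlgClosed K] [CommRing A] [Algebra K A]
    [Module.Finite K A] [IsReduced A] : Algebra.Etale K A := by
  have : IsArtinianRing A := .of_finite K A
  rw [Algebra.Etale.iff_exists_algEquiv_prod]
  refine ⟨MaximalSpectrum A, inferInstance, fun I => A ⧸ I.asIdeal, inferInstance, inferInstance,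
    (IsArtinianRing.equivPi A).restrictScalars K, fun I => ⟨inferInstance, inferInstance⟩⟩

lemma etale_algClosed (p : ℕ) [Fact p.Prime] (K D : Type) [Field K] [CharP K p] [IsAlgClosed K]
    [CommRing D] [Algebra K D] [Module.Finite K D] :
    ∃ n : ℕ, Algebra.Etale K (frobSub (p ^ n) K D) := by
  have hp : p.Prime := Fact.out
  have : IsArtinianRing D := .of_finite K D
  obtain ⟨m, hm⟩ := IsArtinianRing.isNilpotent_nilradical (R := D)
  refine ⟨m, ?_⟩
  have h0 : (p : D) = 0 := natCast_zero K D (CharP.cast_eq_zero K p)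
  have hpow : ∀ x ∈ frobSub (p ^ m) K D, ∃ y : D, x = y ^ (p ^ m) := by
    intro x hx
    induction hx using Algebra.adjoin_induction with
    | mem x hx => obtain ⟨b, rfl⟩ := hx; exact ⟨b, rfl⟩
    | algebraMap r =>
      obtain ⟨s, hs⟩ := IsAlgClosed.exists_pow_nat_eq r (pow_pos hp.pos m)
      exact ⟨algebraMap K D s, by rw [← map_pow, hs]⟩
    | add x y _ _ hx hy =>
      obtain ⟨a, rfl⟩ := hx
      obtain ⟨b, rfl⟩ := hy
      exact ⟨a + b, (add_pow_q hp h0 m a b).symm⟩
    | mul x y _ _ hx hy =>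
      obtain ⟨a, rfl⟩ := hx
      obtain ⟨b, rfl⟩ := hy
      exact ⟨a * b, (mul_pow _ _ _).symm⟩
  have hred : IsReduced (frobSub (p ^ m) K D) := by
    constructor
    rintro ⟨x, hx⟩ hnil
    obtain ⟨y, rfl⟩ := hpow x hx
    have h1 : IsNilpotent (y ^ (p ^ m)) := hnil.map (frobSub (p ^ m) K D).val
    have h2 : y ∈ nilradical D := mem_nilradical.mpr h1.of_pow
    have h3 : y ^ m = 0 := by
      have := Ideal.pow_mem_pow h2 m
      rw [hm] at this
      exact this
    apply Subtype.ext
    change y ^ (p ^ m) = 0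
    exact pow_eq_zero_of_le (Nat.lt_pow_self hp.one_lt).le h3
  have : Module.Finite K (frobSub (p ^ m) K D) :=
    Module.Finite.of_injective (frobSub (p ^ m) K D).val.toLinearMap Subtype.val_injective
  exact etale_of_reduced K _

theorem etale_frobSub (p : ℕ) [Fact p.Prime] (L C : Type) [Field L] [CharP L p] [CommRing C]
    [Algebra L C] [Module.Finite L C] : ∃ n : ℕ,
    ∀ (R B R' : Type) [CommRing R] [Algebra L R] [CommRing B] [Algebra R B] [CommRing R']
      [Algebra R R'] [Algebra L R'] [IsScalarTower L R R'] [Module.FaithfullyFlat R R'],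
      Nonempty ((R' ⊗[R] B) ≃ₐ[R'] (R' ⊗[L] C)) → Algebra.Etale R (frobSub (p ^ n) R B) := by
  have hp : p.Prime := Fact.out
  have hL : (p : L) = 0 := CharP.cast_eq_zero L p
  obtain ⟨n, hn⟩ := etale_algClosed p (AlgebraicClosure L) (AlgebraicClosure L ⊗[L] C)
  refine ⟨n, ?_⟩
  have hC : Algebra.Etale L (frobSub (p ^ n) L C) := by
    obtain ⟨e⟩ := frob_baseChange hp n L C (AlgebraicClosure L) hL
    have := Algebra.Etale.of_equiv e.symm
    exact Algebra.Etale.of_etale_tensorProduct_of_faithfullyFlat (AlgebraicClosure L)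
  rintro R B R' _ _ _ _ _ _ _ _ _ ⟨e⟩
  obtain ⟨e1⟩ := frob_baseChange hp n R B R' (natCast_zero L R hL)
  obtain ⟨e2⟩ := frob_baseChange hp n L C R' hL
  have := Algebra.Etale.of_equiv (e1.trans ((frobCongr (p ^ n) e).trans e2.symm)).symm
  exact Algebra.Etale.of_etale_tensorProduct_of_faithfullyFlat R'

end Pool.Agent.H452Z.Frob
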