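import Mathlib
import Pool.Agent.H392Z.MO.Spec2

set_option autoImplicit false

namespace Pool.Agent.H452Z.MO

open Finset Pool.Agent.H392Z.MO

lemma card_near (x : ℝ) (I : ℕ) :
    ((Finset.range (I + 1)).filter (fun i : ℕ => |x - i| ≤ 3)).card ≤ 7 := by
  have : (Finset.range (I + 1)).filter (fun i : ℕ => |x - i| ≤ 3) ⊆
      Finset.Icc ⌈x - 3⌉₊ (⌈x - 3⌉₊ + 6) := by
    intro i hi
    have h := abs_le.mp (Finset.mem_filter.mp hi).2
    rw [Finset.mem_Icc]
    constructor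
    · apply Nat.ceil_le.mpr; linarith [h.2]
    · have h1 := Nat.le_ceil (x - 3)
      have h2 : (i : ℝ) ≤ ((⌈x - 3⌉₊ + 6 : ℕ) : ℝ) := by push_cast; linarith [h.1]
      exact_mod_cast h2
  refine (Finset.card_le_card this).trans ?_
  rw [Nat.card_Icc]; omega

theorem famB : S_FamB := by
  classical
  intro A lam C hA1 hA2 hlam hlam1 hC hS
  constructor
  · refine ⟨28 * C, by positivity, ?_⟩
    intro I hI
    have hI' : (1 : ℝ) ≤ I := by exact_mod_cast hI
    set R := ⌊(I : ℝ) ^ (10 * lam)⌋₊ with hR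
    have hR1 : (R : ℝ) ≤ (I : ℝ) ^ (10 * lam) := Nat.floor_le (by positivity)
    have hR2 : R ≤ I := by
      have : (I : ℝ) ^ (10 * lam) ≤ (I : ℝ) ^ (1 : ℝ) :=
        Real.rpow_le_rpow_of_exponent_le hI' (by linarith)
      rw [Real.rpow_one] at this
      exact_mod_cast hR1.trans this
    set P := (Finset.range (4 * I ^ 2 + 1)).filter (fun c => c ∈ {j | Poor A j}) with hP
    have hPc : (P.card : ℝ) ≤ C * ((4 * I ^ 2 : ℕ) : ℝ) ^ lam := by
      have := hS (4 * I ^ 2) (by nlinarith)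
      convert this
    have hsub : (Finset.range (I + 1)).filter (fun c => c ∈ Mem A lam) ⊆
        (Finset.Icc 1 R ×ˢ P).biUnion (fun q => (Finset.range (I + 1)).filter
          (fun i : ℕ => |(q.2 : ℝ) * (q.1 : ℝ) ^ (-(1 / A)) - i| ≤ 3)) := by
      intro i hi
      obtain ⟨hi1, hi2⟩ := Finset.mem_filter.mp hi
      have hiI : i ≤ I := by simpa [Nat.lt_succ_iff] using hi1
      have hw : wt A lam i ≠ 0 := by
        have : 1 ≤ wt A lam i := hi2
        linarith
      obtain ⟨ρ, hρ, hρ2⟩ := Finset.exists_ne_zero_of_sum_ne_zero hw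
      obtain ⟨j, hj, -⟩ := Finset.exists_ne_zero_of_sum_ne_zero hρ2
      obtain ⟨hj1, hj2, hj3⟩ := Finset.mem_filter.mp hj
      obtain ⟨hρa, hρb⟩ := Finset.mem_Icc.mp hρ
      have hρR : ρ ≤ R := by
        refine hρb.trans (Nat.floor_le_floor ?_)
        exact Real.rpow_le_rpow (Nat.cast_nonneg _) (by exact_mod_cast hiI) (by positivity)
      refine Finset.mem_biUnion.mpr ⟨(ρ, j), Finset.mem_product.mpr ⟨Finset.mem_Icc.mpr
        ⟨hρa, hρR⟩, Finset.mem_filter.mpr ⟨?_, hj2⟩⟩, Finset.mem_filter.mpr ⟨hi1, hj3⟩⟩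
      rw [Finset.mem_range] at hj1 ⊢
      have h1 : (i + 3) * ρ ≤ (4 * I) * I := Nat.mul_le_mul (by omega) (hρR.trans hR2)
      nlinarith
    have hcard : ((Finset.range (I + 1)).filter (fun c => c ∈ Mem A lam)).card ≤
        (R * P.card) * 7 := by
      refine (Finset.card_le_card hsub).trans ?_
      refine (Finset.card_biUnion_le_card_mul _ _ 7 fun q _ => card_near _ I).trans ?_
      rw [Finset.card_product, Nat.card_Icc]
      simp
    have h4 : ((4 * I ^ 2 : ℕ) : ℝ) ^ lam ≤ 4 * (I : ℝ) ^ (2 * lam) := by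
      push_cast
      rw [Real.mul_rpow (by norm_num) (by positivity), ← Real.rpow_natCast,
        ← Real.rpow_mul (by positivity)]
      apply mul_le_mul_of_nonneg_right _ (by positivity)
      calc (4 : ℝ) ^ lam ≤ (4 : ℝ) ^ (1 : ℝ) :=
            Real.rpow_le_rpow_of_exponent_le (by norm_num) (by linarith)
        _ = 4 := Real.rpow_one 4
    have h5 : (I : ℝ) ^ (10 * lam) * (I : ℝ) ^ (2 * lam) ≤ (I : ℝ) ^ (20 * lam) := by
      rw [← Real.rpow_add (by linarith)]
      exact Real.rpow_le_rpow_of_exponent_le hI' (by linarith)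
    have h6 : (((Finset.range (I + 1)).filter (fun c => c ∈ Mem A lam)).card : ℝ) ≤
        ((R : ℝ) * P.card) * 7 := by exact_mod_cast hcard
    have h7 : (R : ℝ) * P.card ≤ (I : ℝ) ^ (10 * lam) * (C * (4 * (I : ℝ) ^ (2 * lam))) :=
      mul_le_mul hR1 (hPc.trans (mul_le_mul_of_nonneg_left h4 hC.le)) (Nat.cast_nonneg _)
        (by positivity)
    have h8 : (I : ℝ) ^ (10 * lam) * (C * (4 * (I : ℝ) ^ (2 * lam))) * 7 =
        28 * C * ((I : ℝ) ^ (10 * lam) * (I : ℝ) ^ (2 * lam)) := by ring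
    have h9 : 28 * C * ((I : ℝ) ^ (10 * lam) * (I : ℝ) ^ (2 * lam)) ≤
        28 * C * (I : ℝ) ^ (20 * lam) := mul_le_mul_of_nonneg_left h5 (by positivity)
    have h10 : (((Finset.range (I + 1)).filter (fun c => c ∈ Mem A lam)).card : ℝ) ≤
        28 * C * (I : ℝ) ^ (20 * lam) := by nlinarith
    convert h10
  · intro i hi hP
    have hi' : (1 : ℝ) ≤ i := by exact_mod_cast hi
    change 1 ≤ wt A lam i
    unfold wt
    have h1 : 1 ∈ Finset.Icc 1 ⌊(i : ℝ) ^ (10 * lam)⌋₊ := by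
      rw [Finset.mem_Icc]
      refine ⟨le_rfl, Nat.le_floor ?_⟩
      push_cast
      exact Real.one_le_rpow hi' (by positivity)
    refine le_trans ?_ (Finset.single_le_sum (f := fun ρ : ℕ =>
      ∑ _j ∈ (Finset.range ((i + 3) * ρ + 1)).filter
        (fun j : ℕ => Poor A j ∧ |(j : ℝ) * (ρ : ℝ) ^ (-(1 / A)) - i| ≤ 3),
          (ρ : ℝ) ^ (-(1 / 4 : ℝ)))
      (fun ρ _ => Finset.sum_nonneg fun _ _ => by positivity) h1)
    have h2 : i ∈ (Finset.range ((i + 3) * 1 + 1)).filter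
        (fun j : ℕ => Poor A j ∧ |(j : ℝ) * ((1 : ℕ) : ℝ) ^ (-(1 / A)) - i| ≤ 3) := by
      refine Finset.mem_filter.mpr ⟨Finset.mem_range.mpr (by omega), hP, ?_⟩
      simp
    refine le_trans ?_ (Finset.single_le_sum (f := fun _ : ℕ => ((1 : ℕ) : ℝ) ^ (-(1 / 4 : ℝ)))
      (fun _ _ => by positivity) h2)
    simp

end Pool.Agent.H452Z.MO
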