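import Mathlib

/-!
Spectral permanence property, characters and the cortex of a unital commutative complex Banach
algebra.
-/

namespace Pool.Agent.H452Z.Cortex

universe u v

/-- A character of a commutative complex algebra: a nonzero multiplicative linear functional. -/
def IsCharacter {A : Type u} [CommRing A] [Algebra ℂ A] (φ : A →ₗ[ℂ] ℂ) : Prop :=
  φ ≠ 0 ∧ ∀ x y : A, φ (x * y) = φ x * φ y

/-- `A` has the spectral permanence property: whenever `A` sits as a closed subalgebra (with the
same unit) of a commutative complex Banach algebra `B`, that is, `ι : A → B` is a unital algebra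
homomorphism which is a homeomorphism onto a closed subset of `B`, the spectrum of every `x` in `A`
is the same in `A` and in `B`.  Isometric embeddings are a special case. -/
def SpectralPermanence (A : Type u) [NormedCommRing A] [NormedAlgebra ℂ A] : Prop :=
  ∀ (B : Type v) [NormedCommRing B] [NormedAlgebra ℂ B] [CompleteSpace B] (ι : A →ₐ[ℂ] B),
    Topology.IsClosedEmbedding ι → ∀ x : A, spectrum ℂ x = spectrum ℂ (ι x)

/-- The functional `φ` on `A` extends to a character of every commutative complex Banach algebra
`B` that contains `A` isometrically as a closed subalgebra with the same unit. -/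
def ExtendsToIsometricSuperalgebras {A : Type u} [NormedCommRing A] [NormedAlgebra ℂ A]
    (φ : A →ₗ[ℂ] ℂ) : Prop :=
  ∀ (B : Type v) [NormedCommRing B] [NormedAlgebra ℂ B] [CompleteSpace B] (ι : A →ₐ[ℂ] B),
    Isometry ι → ∃ ψ : B →ₗ[ℂ] ℂ, IsCharacter ψ ∧ ∀ x : A, ψ (ι x) = φ x

end Pool.Agent.H452Z.Cortex
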