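import Mathlib
import Pool.Agent.H452Z.CortexDefs

/-!
The algebra of continuous functions on (closed disc) × [0,1] that are holomorphic in the disc
variable and constant on the bottom slice.
-/

namespace Pool.Agent.H452Z.Cortex

open Metric Set Filter Topology

abbrev Dsc : Type := closedBall (0 : ℂ) 1
abbrev K : Type := Dsc × unitInterval

open Classical in
/-- The slice of `f` at height `t`, extended by zero. -/
noncomputable def slice (f : K → ℂ) (t : unitInterval) : ℂ → ℂ :=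
  fun z => if h : z ∈ closedBall (0 : ℂ) 1 then f (⟨z, h⟩, t) else 0

lemma slice_apply (f : K → ℂ) (t : unitInterval) {z : ℂ} (h : z ∈ closedBall (0 : ℂ) 1) :
    slice f t z = f (⟨z, h⟩, t) := by
  simp only [slice, dif_pos h]

lemma slice_coe (f : K → ℂ) (t : unitInterval) (z : Dsc) : slice f t z = f (z, t) :=
  slice_apply f t z.2

lemma slice_continuousOn (f : C(K, ℂ)) (t : unitInterval) :
    ContinuousOn (slice f t) (closedBall (0 : ℂ) 1) := by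
  rw [continuousOn_iff_continuous_domRestrict]
  have : (closedBall (0 : ℂ) 1).domRestrict (slice f t) = fun z : Dsc => f (z, t) := by
    funext z
    exact slice_coe f t z
  rw [this]
  fun_prop

lemma diff_of_eq {f : K → ℂ} {t : unitInterval} {g : ℂ → ℂ} (hg : DifferentiableOn ℂ g (ball 0 1))
    (h : ∀ z : Dsc, f (z, t) = g z) : DifferentiableOn ℂ (slice f t) (ball 0 1) := by
  refine hg.congr fun z hz => ?_
  rw [slice_apply f t (ball_subset_closedBall hz), h]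

/-- The algebra. -/
def alg : Subalgebra ℂ C(K, ℂ) where
  carrier := {f | (∀ t, DifferentiableOn ℂ (slice f t) (ball 0 1)) ∧
    ∀ z w : Dsc, f (z, 0) = f (w, 0)}
  mul_mem' := by
    rintro f g ⟨hf, hf0⟩ ⟨hg, hg0⟩
    refine ⟨fun t => diff_of_eq ((hf t).mul (hg t)) fun z => ?_, fun z w => ?_⟩
    · simp [slice_coe]
    · simp [hf0 z w, hg0 z w]
  add_mem' := by
    rintro f g ⟨hf, hf0⟩ ⟨hg, hg0⟩
    refine ⟨fun t => diff_of_eq ((hf t).add (hg t)) fun z => ?_, fun z w => ?_⟩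
    · simp [slice_coe]
    · simp [hf0 z w, hg0 z w]
  algebraMap_mem' := by
    intro c
    refine ⟨fun t => diff_of_eq (differentiableOn_const c) fun z => ?_, fun z w => ?_⟩
    · simp
    · simp

lemma mem_alg {f : C(K, ℂ)} : f ∈ alg ↔ (∀ t, DifferentiableOn ℂ (slice f t) (ball 0 1)) ∧
    ∀ z w : Dsc, f (z, 0) = f (w, 0) := Iff.rfl

lemma alg_closed : IsClosed (alg : Set C(K, ℂ)) := by
  apply IsSeqClosed.isClosed
  intro F f hF hlim
  have hu : TendstoUniformly (fun n x => F n x) f atTop :=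
    ContinuousMap.tendsto_iff_tendstoUniformly.mp hlim
  refine ⟨fun t => ?_, fun z w => ?_⟩
  · have h1 : TendstoUniformlyOn (fun n => slice (F n) t) (slice f t) atTop (ball 0 1) := by
      rw [Metric.tendstoUniformlyOn_iff]
      intro ε hε
      filter_upwards [Metric.tendstoUniformly_iff.mp hu ε hε] with n hn z hz
      rw [slice_apply _ t (ball_subset_closedBall hz), slice_apply _ t (ball_subset_closedBall hz)]
      exact hn _
    exact h1.tendstoLocallyUniformlyOn.differentiableOn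
      (Eventually.of_forall fun n => (hF n).1 t) isOpen_ball
  · have h1 := hu.tendsto_at (z, 0)
    have h2 := hu.tendsto_at (w, 0)
    have h3 : (fun n => F n (z, 0)) = fun n => F n (w, 0) := funext fun n => (hF n).2 z w
    rw [h3] at h1
    exact tendsto_nhds_unique h1 h2

instance : CompleteSpace alg := alg_closed.completeSpace_coe

lemma one_mem_disc : (1 : ℂ) ∈ closedBall (0 : ℂ) 1 := by simp

/-- maximum modulus on a slice -/
lemma slice_max {g : ℂ → ℂ} (hd : DifferentiableOn ℂ g (ball 0 1))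
    (hc : ContinuousOn g (closedBall 0 1)) {C : ℝ} (hC : ∀ z : ℂ, ‖z‖ = 1 → ‖g z‖ ≤ C)
    {z : ℂ} (hz : z ∈ closedBall (0 : ℂ) 1) : ‖g z‖ ≤ C := by
  have hdc : DiffContOnCl ℂ g (ball 0 1) := by
    refine ⟨hd, ?_⟩
    rw [closure_ball _ one_ne_zero]
    exact hc
  refine Complex.norm_le_of_forall_mem_frontier_norm_le isBounded_ball hdc ?_ ?_
  · intro w hw
    rw [frontier_ball _ one_ne_zero] at hw
    exact hC w (by simpa using hw)
  · rw [closure_ball _ one_ne_zero]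
    exact hz

/-- An element of the algebra with no zero on the lateral boundary has no zero at all. -/
lemma no_zero {f : C(K, ℂ)} (hf : f ∈ alg) (h : ∀ p : K, ‖(p.1 : ℂ)‖ = 1 → f p ≠ 0) :
    ∀ p : K, f p ≠ 0 := by
  have hS : IsCompact {p : K | ‖(p.1 : ℂ)‖ = 1} := by
    apply IsClosed.isCompact
    exact isClosed_eq (by fun_prop) continuous_const
  have hne : {p : K | ‖(p.1 : ℂ)‖ = 1}.Nonempty := ⟨(⟨1, one_mem_disc⟩, 0), by simp⟩
  obtain ⟨p0, hp0, hmin⟩ := hS.exists_isMinOn hne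
    (f := fun p => ‖f p‖) (by fun_prop)
  set m := ‖f p0‖ with hm
  have hmpos : 0 < m := norm_pos_iff.mpr (h p0 hp0)
  have key : ∀ (t : unitInterval), (∀ z : Dsc, f (z, t) ≠ 0) → ∀ z : Dsc, m ≤ ‖f (z, t)‖ := by
    intro t ht z
    have hnz : ∀ w ∈ closedBall (0 : ℂ) 1, slice f t w ≠ 0 := fun w hw => by
      rw [slice_apply _ t hw]; exact ht _
    have h1 : ‖(slice f t z)⁻¹‖ ≤ m⁻¹ := by
      refine slice_max (g := fun w => (slice f t w)⁻¹)
        ((hf.1 t).inv fun w hw => hnz w (ball_subset_closedBall hw))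
        ((slice_continuousOn f t).inv₀ hnz) ?_ z.2
      intro w hw
      have hw' : w ∈ closedBall (0 : ℂ) 1 := by simp [hw]
      rw [norm_inv, slice_apply _ t hw']
      apply inv_anti₀ hmpos
      exact hmin (a := (⟨w, hw'⟩, t)) hw
    rw [norm_inv, slice_coe] at h1
    exact (inv_le_inv₀ (norm_pos_iff.mpr (ht z)) hmpos).mp h1
  let Z : Set unitInterval := Prod.snd '' {p : K | f p = 0}
  have hZc : IsClosed Z := by
    apply IsCompact.isClosed
    apply IsCompact.image _ continuous_snd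
    exact (isClosed_eq f.continuous continuous_const).isCompact
  have hZo : IsOpen Z := by
    have : Z = Prod.snd '' {p : K | ‖f p‖ < m} := by
      ext t
      constructor
      · rintro ⟨p, hp, rfl⟩
        exact ⟨p, by simpa [show f p = 0 from hp] using hmpos, rfl⟩
      · rintro ⟨p, hp, rfl⟩
        by_contra hcon
        have h2 : ∀ z : Dsc, f (z, p.2) ≠ 0 := fun z hz => hcon ⟨(z, p.2), hz, rfl⟩
        exact absurd (key p.2 h2 p.1) (not_le.mpr hp)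
    rw [this]
    exact isOpenMap_snd _ (isOpen_lt (by fun_prop) continuous_const)
  have h0 : (0 : unitInterval) ∉ Z := by
    rintro ⟨p, hp, hp2⟩
    apply h (⟨1, one_mem_disc⟩, 0) (by simp)
    rw [hf.2 _ p.1, ← hp2]
    exact hp
  have hZ : Z = ∅ := by
    rcases isClopen_iff.mp (⟨hZc, hZo⟩ : IsClopen Z) with h1 | h1
    · exact h1
    · exact absurd (h1 ▸ mem_univ _) h0
  intro p hp
  have : p.2 ∈ Z := ⟨p, hp, rfl⟩
  rw [hZ] at this
  exact this

lemma isUnit_of_no_zero (f : alg) (h : ∀ p : K, (f : C(K, ℂ)) p ≠ 0) : IsUnit f := by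
  let g : C(K, ℂ) := ⟨fun p => ((f : C(K, ℂ)) p)⁻¹, (f : C(K, ℂ)).continuous.inv₀ h⟩
  have hg : g ∈ alg := by
    refine ⟨fun t => diff_of_eq ((f.2.1 t).inv fun w hw => ?_) fun z => ?_, fun z w => ?_⟩
    · rw [slice_apply _ t (ball_subset_closedBall hw)]; exact h _
    · simp [g, slice_coe]
    · simp [g, f.2.2 z w]
  refine IsUnit.of_mul_eq_one (⟨g, hg⟩ : alg) ?_
  ext p
  simp [g, h p]

/-- the peak function at `(ζ, t0)` -/
noncomputable def peak (ζ : ℂ) (t0 : unitInterval) : C(K, ℂ) :=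
  ⟨fun p => ((1 - ((p.2 : ℝ) - t0) ^ 2 : ℝ) : ℂ) *
    (1 - ((p.2 : ℝ) : ℂ) / 2 + ((p.2 : ℝ) : ℂ) / 2 * ((p.1 : ℂ) * (starRingEnd ℂ) ζ)), by fun_prop⟩

lemma peak_mem (ζ : ℂ) (t0 : unitInterval) : peak ζ t0 ∈ alg := by
  refine ⟨fun t => diff_of_eq (g := fun z => ((1 - ((t : ℝ) - t0) ^ 2 : ℝ) : ℂ) *
    (1 - ((t : ℝ) : ℂ) / 2 + ((t : ℝ) : ℂ) / 2 * (z * (starRingEnd ℂ) ζ))) (by fun_prop)
    fun z => rfl, fun z w => ?_⟩
  simp [peak]

lemma aux_norm {s : ℝ} (hs0 : 0 ≤ s) (hs1 : s ≤ 1) {w : ℂ} (hw : ‖w‖ ≤ 1) :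
    ‖(1 - (s : ℂ) / 2 + (s : ℂ) / 2 * w)‖ ≤ 1 ∧
      (‖(1 - (s : ℂ) / 2 + (s : ℂ) / 2 * w)‖ = 1 → s = 0 ∨ w = 1) := by
  have hw2 : w.re ^ 2 + w.im ^ 2 ≤ 1 := by
    have h1 : ‖w‖ ^ 2 ≤ 1 := by nlinarith [norm_nonneg w]
    rw [Complex.sq_norm, Complex.normSq_apply] at h1
    nlinarith
  have hre : w.re ≤ 1 := by nlinarith
  have hsq : ‖(1 - (s : ℂ) / 2 + (s : ℂ) / 2 * w)‖ ^ 2 =
      (1 - s / 2 + s / 2 * w.re) ^ 2 + (s / 2 * w.im) ^ 2 := by
    rw [Complex.sq_norm, Complex.normSq_apply]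
    simp
    ring
  have hle : (1 - s / 2 + s / 2 * w.re) ^ 2 + (s / 2 * w.im) ^ 2 ≤
      1 - s * (1 - s / 2) * (1 - w.re) := by
    have : (s / 2) ^ 2 * (w.re ^ 2 + w.im ^ 2) ≤ (s / 2) ^ 2 * 1 :=
      mul_le_mul_of_nonneg_left hw2 (sq_nonneg _)
    nlinarith
  have hnn : 0 ≤ s * (1 - s / 2) * (1 - w.re) := by
    apply mul_nonneg (mul_nonneg hs0 (by linarith)) (by linarith)
  constructor
  · have : ‖(1 - (s : ℂ) / 2 + (s : ℂ) / 2 * w)‖ ^ 2 ≤ 1 := by rw [hsq]; linarith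
    nlinarith [norm_nonneg (1 - (s : ℂ) / 2 + (s : ℂ) / 2 * w)]
  · intro h
    rw [h] at hsq
    have h0 : s * (1 - s / 2) * (1 - w.re) = 0 := by linarith
    rcases mul_eq_zero.mp h0 with h1 | h1
    · rcases mul_eq_zero.mp h1 with h2 | h2
      · exact Or.inl h2
      · exfalso; linarith
    · right
      have h3 : w.re = 1 := by linarith
      have h4 : w.im = 0 := by nlinarith
      exact Complex.ext (by simpa using h3) (by simpa using h4)

lemma peak_props (ζ : Dsc) (hζ : ‖(ζ : ℂ)‖ = 1) (t0 : unitInterval) (p : K) :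
    ‖peak ζ t0 p‖ ≤ 1 ∧ (‖peak ζ t0 p‖ = 1 → p.2 = t0 ∧ (p.2 = 0 ∨ p.1 = ζ)) := by
  obtain ⟨z, t⟩ := p
  have hz : ‖(z : ℂ)‖ ≤ 1 := mem_closedBall_zero_iff.mp z.2
  have hw : ‖(z : ℂ) * (starRingEnd ℂ) ζ‖ ≤ 1 := by
    rw [norm_mul, Complex.norm_conj, hζ, mul_one]; exact hz
  obtain ⟨h1, h2⟩ := aux_norm t.2.1 t.2.2 hw
  have ht0 := t.2.1
  have ht1 := t.2.2
  have hs0 := t0.2.1
  have hs1 := t0.2.2
  have ha0 : 0 ≤ 1 - ((t : ℝ) - t0) ^ 2 := by nlinarith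
  have ha1 : 1 - ((t : ℝ) - t0) ^ 2 ≤ 1 := by nlinarith
  have hn : ‖peak ζ t0 (z, t)‖ = (1 - ((t : ℝ) - t0) ^ 2) *
      ‖(1 - ((t : ℝ) : ℂ) / 2 + ((t : ℝ) : ℂ) / 2 * ((z : ℂ) * (starRingEnd ℂ) ζ))‖ := by
    simp only [peak, ContinuousMap.coe_mk]
    rw [norm_mul, Complex.norm_real, Real.norm_of_nonneg ha0]
  rw [hn]
  set b := ‖(1 - ((t : ℝ) : ℂ) / 2 + ((t : ℝ) : ℂ) / 2 * ((z : ℂ) * (starRingEnd ℂ) ζ))‖
  have hb0 : 0 ≤ b := norm_nonneg _
  constructor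
  · nlinarith
  · intro h
    have hb : b = 1 := by nlinarith
    have ha : ((t : ℝ) - t0) ^ 2 = 0 := by rw [hb] at h; linarith
    refine ⟨Subtype.ext (by simpa [sub_eq_zero] using ha), ?_⟩
    rcases h2 hb with h3 | h3
    · left; exact Subtype.ext h3
    · right
      apply Subtype.ext
      have h4 : (starRingEnd ℂ) (ζ : ℂ) * ζ = 1 := by
        rw [Complex.conj_mul', hζ]; simp
      calc (z : ℂ) = z * ((starRingEnd ℂ) (ζ : ℂ) * ζ) := by rw [h4, mul_one]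
        _ = (z * (starRingEnd ℂ) (ζ : ℂ)) * ζ := by ring
        _ = ζ := by rw [h3, one_mul]

lemma peak_at (ζ : Dsc) (hζ : ‖(ζ : ℂ)‖ = 1) (t0 : unitInterval) : peak ζ t0 (ζ, t0) = 1 := by
  have h4 : (ζ : ℂ) * (starRingEnd ℂ) (ζ : ℂ) = 1 := by
    rw [Complex.mul_conj', hζ]; simp
  simp only [peak, ContinuousMap.coe_mk, h4]
  simp

lemma small_mul_pow {f q : C(K, ℂ)} (hq : ∀ p, ‖q p‖ ≤ 1) (hz : ∀ p, ‖q p‖ = 1 → f p = 0)
    {ε : ℝ} (hε : 0 < ε) : ∃ n : ℕ, ‖f * q ^ n‖ ≤ ε := by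
  have hS : IsCompact {p : K | ε ≤ ‖f p‖} :=
    (isClosed_le continuous_const (by fun_prop)).isCompact
  obtain ⟨r, hr0, hr1, hr⟩ : ∃ r : ℝ, 0 ≤ r ∧ r < 1 ∧ ∀ p, ε ≤ ‖f p‖ → ‖q p‖ ≤ r := by
    rcases {p : K | ε ≤ ‖f p‖}.eq_empty_or_nonempty with h | h
    · refine ⟨0, le_rfl, one_pos, fun p hp => ?_⟩
      have : p ∈ {p : K | ε ≤ ‖f p‖} := hp
      rw [h] at this
      exact this.elim
    · obtain ⟨p0, hp0, hmax⟩ := hS.exists_isMaxOn h (f := fun p => ‖q p‖) (by fun_prop)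
      refine ⟨‖q p0‖, norm_nonneg _, lt_of_le_of_ne (hq p0) fun h1 => ?_, fun p hp => hmax hp⟩
      have h2 : ε ≤ ‖f p0‖ := hp0
      rw [hz p0 h1, norm_zero] at h2
      linarith
  have hlim : Tendsto (fun n : ℕ => ‖f‖ * r ^ n) atTop (𝓝 (‖f‖ * 0)) :=
    (tendsto_pow_atTop_nhds_zero_of_lt_one hr0 hr1).const_mul _
  rw [mul_zero] at hlim
  obtain ⟨n, hn⟩ := (hlim.eventually (ge_mem_nhds hε)).exists
  refine ⟨n, (ContinuousMap.norm_le _ hε.le).mpr fun p => ?_⟩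
  rw [ContinuousMap.mul_apply, ContinuousMap.pow_apply, norm_mul, norm_pow]
  by_cases hp : ε ≤ ‖f p‖
  · calc ‖f p‖ * ‖q p‖ ^ n ≤ ‖f‖ * r ^ n :=
        mul_le_mul (f.norm_coe_le_norm p) (pow_le_pow_left₀ (norm_nonneg _) (hr p hp) n)
          (by positivity) (norm_nonneg _)
      _ ≤ ε := hn
  · calc ‖f p‖ * ‖q p‖ ^ n ≤ ε * 1 :=
        mul_le_mul (not_le.mp hp).le (pow_le_one₀ (norm_nonneg _) (hq p)) (by positivity) hε.le
      _ = ε := mul_one _

/-- Every non-invertible element is a topological divisor of zero. -/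
lemma tdz (f : alg) (hf : ¬ IsUnit f) {ε : ℝ} (hε : 0 < ε) :
    ∃ y : alg, 1 ≤ ‖y‖ ∧ ‖f * y‖ ≤ ε := by
  obtain ⟨p0, hp1, hp0⟩ : ∃ p : K, ‖(p.1 : ℂ)‖ = 1 ∧ (f : C(K, ℂ)) p = 0 := by
    by_contra hcon
    push Not at hcon
    exact hf (isUnit_of_no_zero f (no_zero f.2 hcon))
  obtain ⟨ζ, t0⟩ := p0
  obtain ⟨n, hn⟩ := small_mul_pow (f := (f : C(K, ℂ))) (q := peak ζ t0)
    (fun p => (peak_props ζ hp1 t0 p).1) (fun p hp => by
      obtain ⟨h1, h2⟩ := (peak_props ζ hp1 t0 p).2 hp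
      obtain ⟨z, t⟩ := p
      simp only at h1 h2
      rcases h2 with h2 | h2
      · subst h1
        subst h2
        rw [f.2.2 z ζ]; exact hp0
      · rw [h1, h2]; exact hp0) hε
  refine ⟨(⟨peak ζ t0, peak_mem ζ t0⟩ : alg) ^ n, ?_, ?_⟩
  · have h1 := ((peak ζ t0) ^ n).norm_coe_le_norm (ζ, t0)
    rw [ContinuousMap.pow_apply, peak_at ζ hp1 t0, one_pow, norm_one] at h1
    exact h1
  · exact hn

universe v

theorem spectralPermanence_of_tdz (A : Type) [NormedCommRing A] [NormedAlgebra ℂ A]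
    (H : ∀ a : A, ¬ IsUnit a → ∀ ε : ℝ, 0 < ε → ∃ y : A, 1 ≤ ‖y‖ ∧ ‖a * y‖ ≤ ε) :
    SpectralPermanence.{0, v} A := by
  intro B _ _ _ ι hι x
  apply Set.Subset.antisymm _ (AlgHom.spectrum_apply_subset ι x)
  intro c hc
  rw [spectrum.mem_iff] at hc ⊢
  intro hu
  let L : A →L[ℂ] B := ⟨ι.toLinearMap, hι.continuous⟩
  obtain ⟨C, hC⟩ := L.antilipschitz_of_isEmbedding hι.isEmbedding
  set a : A := algebraMap ℂ A c - x with ha
  have hιa : ι a = algebraMap ℂ B c - ι x := by rw [ha, map_sub, AlgHom.commutes]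
  rw [← hιa] at hu
  obtain ⟨b, hb⟩ := hu.exists_left_inv
  set M : ℝ := (C : ℝ) * (‖b‖ * ‖L‖) with hM
  have hM0 : 0 ≤ M := by positivity
  obtain ⟨y, hy1, hy2⟩ := H a hc (1 / (2 * (M + 1))) (by positivity)
  have h1 : ‖y‖ ≤ C * ‖L y‖ := hC.le_mul_norm (map_zero L) y
  have h2 : L y = b * L (a * y) := by
    change ι y = b * ι (a * y)
    rw [map_mul, ← mul_assoc, hb, one_mul]
  have h3 : ‖L y‖ ≤ ‖b‖ * (‖L‖ * ‖a * y‖) := by
    rw [h2]
    exact (norm_mul_le _ _).trans (mul_le_mul_of_nonneg_left (L.le_opNorm _) (norm_nonneg _))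
  have h4 : ‖y‖ ≤ M * ‖a * y‖ := by
    calc ‖y‖ ≤ C * ‖L y‖ := h1
      _ ≤ C * (‖b‖ * (‖L‖ * ‖a * y‖)) := mul_le_mul_of_nonneg_left h3 C.2
      _ = M * ‖a * y‖ := by rw [hM]; ring
  have h5 : M * ‖a * y‖ ≤ M * (1 / (2 * (M + 1))) := mul_le_mul_of_nonneg_left hy2 hM0
  have h6 : M * (1 / (2 * (M + 1))) < 1 := by
    rw [mul_one_div, div_lt_one (by positivity)]
    linarith
  linarith

theorem alg_spectralPermanence : SpectralPermanence.{0, v} alg :=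
  spectralPermanence_of_tdz alg fun a ha _ hε => tdz a ha hε

/-! ### The character that does not extend -/

abbrev Bd : Type := sphere (0 : ℂ) 1 × unitInterval

/-- inclusion of the lateral boundary -/
def incl : C(Bd, K) :=
  ⟨fun p => (⟨p.1, sphere_subset_closedBall p.1.2⟩, p.2), by fun_prop⟩

/-- restriction to the lateral boundary -/
noncomputable def res : alg →ₐ[ℂ] C(Bd, ℂ) :=
  (ContinuousMap.compRightAlgHom ℂ ℂ incl).comp alg.val

lemma res_apply (f : alg) (p : Bd) : res f p = (f : C(K, ℂ)) (incl p) := rfl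

instance : Nonempty Bd := ⟨(⟨1, by simp⟩, 0)⟩

lemma res_norm (f : alg) : ‖res f‖ = ‖f‖ := by
  apply le_antisymm
  · refine (ContinuousMap.norm_le _ (norm_nonneg (f : C(K, ℂ)))).mpr fun p => ?_
    exact (f : C(K, ℂ)).norm_coe_le_norm _
  · change ‖(f : C(K, ℂ))‖ ≤ _
    refine (ContinuousMap.norm_le _ (norm_nonneg _)).mpr fun p => ?_
    obtain ⟨z, t⟩ := p
    rw [← slice_coe (f : C(K, ℂ)) t z]
    refine slice_max (f.2.1 t) (slice_continuousOn _ t) ?_ z.2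
    intro w hw
    have hw' : w ∈ closedBall (0 : ℂ) 1 := by simp [hw]
    rw [slice_apply _ t hw']
    exact (res f).norm_coe_le_norm (⟨w, by simpa using hw⟩, t)

lemma res_isometry : Isometry res :=
  Isometry.of_dist_eq fun f g => by
    rw [dist_eq_norm, ← map_sub, res_norm]
    exact (dist_eq_norm (f : C(K, ℂ)) g).symm

/-- evaluation at the centre of the top slice -/
noncomputable def ev : alg →ₐ[ℂ] ℂ :=
  (ContinuousMap.evalAlgHom ℂ ℂ ((⟨0, by simp⟩, 1) : K)).comp alg.val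

lemma ev_apply (f : alg) : ev f = (f : C(K, ℂ)) (⟨0, by simp⟩, 1) := rfl

noncomputable def x1 : alg := ⟨⟨fun p => (p.1 : ℂ) * ((p.2 : ℝ) : ℂ), by fun_prop⟩, by
  refine ⟨fun t => diff_of_eq (g := fun z => z * ((t : ℝ) : ℂ)) (by fun_prop) fun z => rfl,
    fun z w => ?_⟩
  simp⟩

noncomputable def x2 : alg := ⟨⟨fun p => 1 - ((p.2 : ℝ) : ℂ), by fun_prop⟩, by
  refine ⟨fun t => diff_of_eq (g := fun _ => 1 - ((t : ℝ) : ℂ)) (by fun_prop) fun z => rfl,
    fun z w => ?_⟩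
  simp⟩

noncomputable def cj : C(Bd, ℂ) := ⟨fun p => (starRingEnd ℂ) (p.1 : ℂ), by fun_prop⟩

lemma bezout : cj * res x1 + res x2 = 1 := by
  ext p
  have h : ‖(p.1 : ℂ)‖ = 1 := by simp
  have h4 : (starRingEnd ℂ) (p.1 : ℂ) * (p.1 : ℂ) = 1 := by
    rw [Complex.conj_mul', h]; simp
  change (starRingEnd ℂ) (p.1 : ℂ) * ((p.1 : ℂ) * ((p.2 : ℝ) : ℂ)) + (1 - ((p.2 : ℝ) : ℂ)) = 1
  rw [← mul_assoc, h4]
  ring

lemma ev_isCharacter : IsCharacter (A := alg) ev.toLinearMap := by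
  refine ⟨fun h => ?_, fun x y => map_mul ev x y⟩
  have h1 : ev.toLinearMap 1 = 0 := by rw [h]; rfl
  have h2 : ev.toLinearMap 1 = 1 := map_one ev
  rw [h2] at h1
  exact one_ne_zero h1

lemma ev_x1 : ev x1 = 0 := by
  rw [ev_apply]; simp [x1]

lemma ev_x2 : ev x2 = 0 := by
  rw [ev_apply]; simp [x2]

theorem ev_not_extends : ¬ ExtendsToIsometricSuperalgebras.{0, 0} (A := alg) ev.toLinearMap := by
  intro h
  obtain ⟨ψ, ⟨hψ0, hψ⟩, hext⟩ := h C(Bd, ℂ) res res_isometry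
  apply hψ0
  have h1 : ψ 1 = 0 := by
    rw [← bezout, map_add, hψ, hext, hext]
    change ψ cj * ev x1 + ev x2 = 0
    rw [ev_x1, ev_x2]; simp
  ext y
  rw [← mul_one y, hψ, h1]; simp

instance : Nonempty K := ⟨(⟨1, one_mem_disc⟩, 0)⟩

theorem alg_normOne : NormOneClass alg := ⟨by
  change ‖(1 : C(K, ℂ))‖ = 1
  exact norm_one⟩

end Pool.Agent.H452Z.Cortex
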