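import Mathlib

/-!
The free product of three groups of order two acting on the hyperbolic plane (the cone
`x0 x1 + x1 x2 + x0 x2 > 0`) by half-turns about the midpoints of the sides of an ideal triangle.
-/

namespace Pool.Agent.H452Z.Cox

open Matrix

def Q (x : Fin 3 → ℝ) : ℝ := x 0 * x 1 + x 1 * x 2 + x 0 * x 2

def Cone : Set (Fin 3 → ℝ) := {x | 0 < x 1 + x 2 ∧ 0 < Q x}

lemma cone_02 {x : Fin 3 → ℝ} (hx : x ∈ Cone) : 0 < x 0 + x 2 := by
  obtain ⟨h1, h2⟩ := hx
  have h3 : (x 1 + x 2) * (x 0 + x 2) = Q x + x 2 ^ 2 := by unfold Q; ring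
  have h4 : 0 < (x 1 + x 2) * (x 0 + x 2) := by rw [h3]; positivity
  exact (pos_iff_pos_of_mul_pos h4).mp h1

lemma cone_01 {x : Fin 3 → ℝ} (hx : x ∈ Cone) : 0 < x 0 + x 1 := by
  obtain ⟨h1, h2⟩ := hx
  have h3 : (x 1 + x 2) * (x 0 + x 1) = Q x + x 1 ^ 2 := by unfold Q; ring
  have h4 : 0 < (x 1 + x 2) * (x 0 + x 1) := by rw [h3]; positivity
  exact (pos_iff_pos_of_mul_pos h4).mp h1

lemma cone_12 {x : Fin 3 → ℝ} (hx : x ∈ Cone) : 0 < x 1 + x 2 := hx.1

lemma cone_open : IsOpen Cone := by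
  have h1 : IsOpen {x : Fin 3 → ℝ | 0 < x 1 + x 2} := isOpen_lt continuous_const (by fun_prop)
  have h2 : IsOpen {x : Fin 3 → ℝ | 0 < Q x} :=
    isOpen_lt continuous_const (by unfold Q; fun_prop)
  exact h1.inter h2

lemma cone_nonempty : (fun _ => 1 : Fin 3 → ℝ) ∈ Cone := by
  constructor
  · norm_num
  · unfold Q; norm_num

lemma cone_smul {x : Fin 3 → ℝ} (hx : x ∈ Cone) {t : ℝ} (ht : 0 < t) : t • x ∈ Cone := by
  obtain ⟨h1, h2⟩ := hx
  constructor
  · simp only [Pi.smul_apply, smul_eq_mul]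
    rw [← mul_add]; positivity
  · have : Q (t • x) = t ^ 2 * Q x := by simp only [Q, Pi.smul_apply, smul_eq_mul]; ring
    rw [this]; positivity

lemma cone_add {x y : Fin 3 → ℝ} (hx : x ∈ Cone) (hy : y ∈ Cone) : x + y ∈ Cone := by
  have a1 := cone_12 hx
  have c1 := cone_02 hx
  have a2 := cone_12 hy
  have c2 := cone_02 hy
  have q1 := hx.2
  have q2 := hy.2
  constructor
  · simp only [Pi.add_apply]; linarith
  · set a := x 1 + x 2
    set c := x 0 + x 2
    set a' := y 1 + y 2
    set c' := y 0 + y 2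
    have e1 : Q x = a * c - x 2 ^ 2 := by simp only [Q, a, c]; ring
    have e2 : Q y = a' * c' - y 2 ^ 2 := by simp only [Q, a', c']; ring
    have e3 : Q (x + y) = Q x + Q y + (a * c' + a' * c - 2 * x 2 * y 2) := by
      simp only [Q, Pi.add_apply, a, c, a', c']; ring
    have h1 : x 2 ^ 2 * y 2 ^ 2 ≤ (a * c) * (a' * c') :=
      mul_le_mul (by linarith) (by linarith) (sq_nonneg _) (by positivity)
    have h2 : (2 * x 2 * y 2) ^ 2 ≤ (a * c' + a' * c) ^ 2 := by
      nlinarith [sq_nonneg (a * c' - a' * c)]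
    have h3 : 2 * x 2 * y 2 ≤ a * c' + a' * c :=
      (abs_le_of_sq_le_sq' h2 (by positivity)).2
    rw [e3]; linarith

lemma cone_convex : Convex ℝ Cone := by
  intro x hx y hy s t hs ht hst
  rcases hs.eq_or_lt with h | h
  · have : t = 1 := by linarith
    rw [← h, this]; simpa using hy
  · rcases ht.eq_or_lt with h' | h'
    · have : s = 1 := by linarith
      rw [← h', this]; simpa using hx
    · exact cone_add (cone_smul hx h) (cone_smul hy h')

lemma closure_cone {x : Fin 3 → ℝ} (hx : x ∈ closure Cone) :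
    0 ≤ x 1 + x 2 ∧ 0 ≤ x 0 + x 2 ∧ 0 ≤ x 0 + x 1 := by
  have hcl : IsClosed {x : Fin 3 → ℝ | 0 ≤ x 1 + x 2 ∧ 0 ≤ x 0 + x 2 ∧ 0 ≤ x 0 + x 1} := by
    have h1 : IsClosed {x : Fin 3 → ℝ | 0 ≤ x 1 + x 2} :=
      isClosed_le continuous_const (by fun_prop)
    have h2 : IsClosed {x : Fin 3 → ℝ | 0 ≤ x 0 + x 2} :=
      isClosed_le continuous_const (by fun_prop)
    have h3 : IsClosed {x : Fin 3 → ℝ | 0 ≤ x 0 + x 1} :=
      isClosed_le continuous_const (by fun_prop)
    exact h1.inter (h2.inter h3)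
  have hsub : Cone ⊆ {x : Fin 3 → ℝ | 0 ≤ x 1 + x 2 ∧ 0 ≤ x 0 + x 2 ∧ 0 ≤ x 0 + x 1} :=
    fun y hy => ⟨(cone_12 hy).le, (cone_02 hy).le, (cone_01 hy).le⟩
  exact closure_minimal hsub hcl hx

lemma aux_line {a b : ℝ} (h : ∀ t : ℝ, 0 ≤ a + t * b) : b = 0 := by
  by_contra hb
  have := h (-(a + 1) / b)
  rw [div_mul_cancel₀ _ hb] at this
  linarith

lemma cone_noline (x v : Fin 3 → ℝ) (hv : v ≠ 0) : ∃ t : ℝ, x + t • v ∉ closure Cone := by
  by_contra hcon
  push Not at hcon
  have h1 : v 1 + v 2 = 0 := aux_line (a := x 1 + x 2) fun t => by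
    have := (closure_cone (hcon t)).1
    simp only [Pi.add_apply, Pi.smul_apply, smul_eq_mul] at this
    linarith
  have h2 : v 0 + v 2 = 0 := aux_line (a := x 0 + x 2) fun t => by
    have := (closure_cone (hcon t)).2.1
    simp only [Pi.add_apply, Pi.smul_apply, smul_eq_mul] at this
    linarith
  have h3 : v 0 + v 1 = 0 := aux_line (a := x 0 + x 1) fun t => by
    have := (closure_cone (hcon t)).2.2
    simp only [Pi.add_apply, Pi.smul_apply, smul_eq_mul] at this
    linarith
  apply hv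
  funext i
  fin_cases i
  · change v 0 = 0; linarith
  · change v 1 = 0; linarith
  · change v 2 = 0; linarith

/-- The three half-turns, as integer matrices. -/
def hZ : Fin 3 → Matrix (Fin 3) (Fin 3) ℤ :=
  ![!![-1, 0, 0; 2, 0, 1; 2, 1, 0], !![0, 2, 1; 0, -1, 0; 1, 2, 0], !![0, 1, 2; 1, 0, 2; 0, 0, -1]]

/-- The Coxeter matrix of the free product of three groups of order two. -/
def M3 : CoxeterMatrix (Fin 3) where
  M := !![1, 0, 0; 0, 1, 0; 0, 0, 1]

lemma liftable : M3.IsLiftable hZ := by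
  intro i j
  fin_cases i <;> fin_cases j <;> first | rfl | decide

abbrev W : Type := M3.Group

noncomputable def cs : CoxeterSystem M3 W := M3.toCoxeterSystem

noncomputable def ρZ : W →* Matrix (Fin 3) (Fin 3) ℤ := cs.lift ⟨hZ, liftable⟩

noncomputable def ρR : W →* Matrix (Fin 3) (Fin 3) ℝ :=
  ((Int.castRingHom ℝ).mapMatrix.toMonoidHom).comp ρZ

noncomputable def ρ : W →* (Matrix (Fin 3) (Fin 3) ℝ)ˣ := ρR.toHomUnits

lemma ρ_val (w : W) : (ρ w).val = (ρZ w).map (Int.cast : ℤ → ℝ) := rfl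

lemma ρZ_simple (i : Fin 3) : ρZ (cs.simple i) = hZ i := cs.lift_apply_simple liftable i

/-- the action -/
noncomputable def act (w : W) (x : Fin 3 → ℝ) : Fin 3 → ℝ := (ρ w).val *ᵥ x

lemma act_mul (w w' : W) (x : Fin 3 → ℝ) : act (w * w') x = act w (act w' x) := by
  simp only [act, map_mul, Units.val_mul, mulVec_mulVec]

lemma act_one (x : Fin 3 → ℝ) : act 1 x = x := by
  simp only [act, map_one, Units.val_one, one_mulVec]

lemma act0 (x : Fin 3 → ℝ) : act (cs.simple 0) x = ![-x 0, x 2 + 2 * x 0, x 1 + 2 * x 0] := by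
  rw [act, ρ_val, ρZ_simple]
  funext i
  fin_cases i <;> simp [hZ, mulVec, dotProduct, Fin.sum_univ_three] <;> ring

lemma act1 (x : Fin 3 → ℝ) : act (cs.simple 1) x = ![x 2 + 2 * x 1, -x 1, x 0 + 2 * x 1] := by
  rw [act, ρ_val, ρZ_simple]
  funext i
  fin_cases i <;> simp [hZ, mulVec, dotProduct, Fin.sum_univ_three] <;> ring

lemma act2 (x : Fin 3 → ℝ) : act (cs.simple 2) x = ![x 1 + 2 * x 2, x 0 + 2 * x 2, -x 2] := by
  rw [act, ρ_val, ρZ_simple]
  funext i
  fin_cases i <;> simp [hZ, mulVec, dotProduct, Fin.sum_univ_three] <;> ring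

lemma Q_simple (i : Fin 3) (x : Fin 3 → ℝ) : Q (act (cs.simple i) x) = Q x := by
  fin_cases i
  · change Q (act (cs.simple 0) x) = _
    rw [act0]; simp [Q]; ring
  · change Q (act (cs.simple 1) x) = _
    rw [act1]; simp [Q]; ring
  · change Q (act (cs.simple 2) x) = _
    rw [act2]; simp [Q]; ring

lemma simple_mem (i : Fin 3) {x : Fin 3 → ℝ} (hx : x ∈ Cone) : act (cs.simple i) x ∈ Cone := by
  refine ⟨?_, by rw [Q_simple]; exact hx.2⟩
  have h1 := cone_12 hx
  have h2 := cone_02 hx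
  have h3 := cone_01 hx
  have hq := hx.2
  fin_cases i
  · change 0 < act (cs.simple 0) x 1 + act (cs.simple 0) x 2
    rw [act0]
    simp only [Matrix.cons_val_one, Matrix.cons_val_zero, Matrix.cons_val]
    have e : (x 1 + x 2) * (x 2 + 2 * x 0 + (x 1 + 2 * x 0)) = 4 * Q x + (x 1 - x 2) ^ 2 := by
      unfold Q; ring
    have h4 : 0 < (x 1 + x 2) * (x 2 + 2 * x 0 + (x 1 + 2 * x 0)) := by rw [e]; positivity
    exact (pos_iff_pos_of_mul_pos h4).mp h1
  · change 0 < act (cs.simple 1) x 1 + act (cs.simple 1) x 2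
    rw [act1]
    simp only [Matrix.cons_val_one, Matrix.cons_val_zero, Matrix.cons_val]
    linarith
  · change 0 < act (cs.simple 2) x 1 + act (cs.simple 2) x 2
    rw [act2]
    simp only [Matrix.cons_val_one, Matrix.cons_val_zero, Matrix.cons_val]
    linarith

lemma act_mem (w : W) {x : Fin 3 → ℝ} (hx : x ∈ Cone) : act w x ∈ Cone := by
  induction w using cs.simple_induction_left with
  | one => rw [act_one]; exact hx
  | mul_simple_left w i ih => rw [act_mul]; exact simple_mem i ih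

lemma det_simple (i : Fin 3) : (hZ i).det = 1 := by
  fin_cases i <;> decide

lemma det_ρ (w : W) : (ρ w).val.det = 1 := by
  induction w using cs.simple_induction_left with
  | one => simp
  | mul_simple_left w i ih =>
    rw [map_mul, Units.val_mul, det_mul, ih, ρ_val, ρZ_simple, mul_one]
    have := (Int.castRingHom ℝ).map_det (hZ i)
    rw [det_simple] at this
    simpa using this.symm

lemma simple_sign (i : Fin 3) {y : Fin 3 → ℝ} (hy : y ∈ Cone) (hi : 0 < y i) :
    act (cs.simple i) y i < 0 ∧ ∀ j, j ≠ i → 0 < act (cs.simple i) y j := by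
  have h1 := cone_12 hy
  have h2 := cone_02 hy
  have h3 := cone_01 hy
  fin_cases i
  · change 0 < y 0 at hi
    change act (cs.simple 0) y 0 < 0 ∧ ∀ j, j ≠ 0 → 0 < act (cs.simple 0) y j
    rw [act0]
    refine ⟨by simpa using hi, fun j hj => ?_⟩
    fin_cases j
    · exact absurd rfl hj
    · simp; linarith
    · simp; linarith
  · change 0 < y 1 at hi
    change act (cs.simple 1) y 1 < 0 ∧ ∀ j, j ≠ 1 → 0 < act (cs.simple 1) y j
    rw [act1]
    refine ⟨by simpa using hi, fun j hj => ?_⟩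
    fin_cases j
    · simp; linarith
    · exact absurd rfl hj
    · simp; linarith
  · change 0 < y 2 at hi
    change act (cs.simple 2) y 2 < 0 ∧ ∀ j, j ≠ 2 → 0 < act (cs.simple 2) y j
    rw [act2]
    refine ⟨by simpa using hi, fun j hj => ?_⟩
    fin_cases j
    · simp; linarith
    · simp; linarith
    · exact absurd rfl hj

/-- Ping-pong: every element is trivial, or starts with a generator `i` in the sense below. -/
def Good (w : W) : Prop :=
  ∃ ω : List (Fin 3), cs.wordProd ω = w ∧ ω.IsChain (· ≠ ·)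

lemma all_good (w : W) : Good w := by
  induction w using cs.simple_induction_left with
  | one => exact ⟨[], by simp, List.IsChain.nil⟩
  | mul_simple_left w i ih =>
    obtain ⟨ω, h1, h2⟩ := ih
    cases ω with
    | nil => exact ⟨[i], by rw [cs.wordProd_cons, h1], List.IsChain.singleton i⟩
    | cons j ω' =>
      by_cases hij : i = j
      · subst hij
        refine ⟨ω', ?_, h2.tail⟩
        rw [← h1, cs.wordProd_cons, cs.simple_mul_simple_cancel_left]
      · exact ⟨i :: j :: ω', by rw [cs.wordProd_cons, h1], List.IsChain.cons_cons hij h2⟩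

lemma pingpong (ω : List (Fin 3)) (h : ω.IsChain (· ≠ ·)) :
    ∀ j : Fin 3, (ω.head? = some j → act (cs.wordProd ω) (fun _ => 1) j < 0) ∧
      (ω.head? ≠ some j → 0 < act (cs.wordProd ω) (fun _ => 1) j) := by
  induction ω with
  | nil =>
    intro j
    refine ⟨by simp, fun _ => ?_⟩
    rw [cs.wordProd_nil, act_one]; norm_num
  | cons i ω ih =>
    have ih' := ih h.tail
    have hi : ω.head? ≠ some i := by
      cases ω with
      | nil => simp
      | cons k ω' =>
        have := (List.isChain_cons_cons.mp h).1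
        simpa using this.symm
    have hs := simple_sign i (act_mem (cs.wordProd ω) cone_nonempty) ((ih' i).2 hi)
    intro j
    rw [cs.wordProd_cons, act_mul]
    constructor
    · intro hj
      have : i = j := by simpa using hj
      subst this
      exact hs.1
    · intro hj
      apply hs.2
      intro h'
      apply hj
      simp [h']

lemma ρ_injective : Function.Injective ρ := by
  rw [injective_iff_map_eq_one]
  intro w hw
  obtain ⟨ω, h1, h2⟩ := all_good w
  cases ω with
  | nil => rw [← h1]; simp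
  | cons i ω =>
    exfalso
    have h3 := (pingpong (i :: ω) h2 i).1 rfl
    rw [h1, act, hw, Units.val_one, one_mulVec] at h3
    norm_num at h3

lemma ρ_discrete (w : W)
    (h : ∀ i j, |(ρ w).val i j - (1 : Matrix (Fin 3) (Fin 3) ℝ) i j| < 1) : ρ w = 1 := by
  ext i j
  have h1 := h i j
  have h2 : (1 : Matrix (Fin 3) (Fin 3) ℝ) i j = ((1 : Matrix (Fin 3) (Fin 3) ℤ) i j : ℝ) := by
    rw [Matrix.one_apply, Matrix.one_apply]; split_ifs <;> simp
  rw [Units.val_one, h2]
  rw [h2, ρ_val, Matrix.map_apply, ← Int.cast_sub, ← Int.cast_abs] at h1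
  have h3 : |ρZ w i j - (1 : Matrix (Fin 3) (Fin 3) ℤ) i j| < 1 := by exact_mod_cast h1
  rw [Int.abs_lt_one_iff, sub_eq_zero] at h3
  rw [ρ_val, Matrix.map_apply, h3]

lemma not_reflection (α v : Fin 3 → ℝ) (h : α ⬝ᵥ v = 2) :
    (ρ (cs.simple 0)).val ≠ 1 - Matrix.vecMulVec v α := by
  intro h1
  have h2 := congrArg Matrix.trace h1
  rw [ρ_val, ρZ_simple] at h2
  simp [hZ, Matrix.trace, Fin.sum_univ_three, vecMulVec_apply] at h2
  simp [dotProduct, Fin.sum_univ_three] at h
  nlinarith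

/-! ### Reduction to a strip -/

def S (x : Fin 3 → ℝ) : ℝ := x 0 + x 1 + x 2

lemma S_pos {x : Fin 3 → ℝ} (hx : x ∈ Cone) : 0 < S x := by
  have h1 := cone_12 hx
  have h2 := cone_02 hx
  have h3 := cone_01 hx
  unfold S; linarith

lemma aux_step {a b c q s : ℝ} (ha : a < 0) (hab : 0 < a + b) (hac : 0 < a + c)
    (hq : q = a * b + b * c + a * c) (hs : s = a + b + c) (h : b + 2 * a < 0 ∨ c + 2 * a < 0) :
    q ≤ s * (-a) := by
  rcases h with h | h
  · nlinarith
  · nlinarith

lemma step {x : Fin 3 → ℝ} (hx : x ∈ Cone) (hn : ¬ ∀ i, 0 ≤ x i) :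
    ∃ i, (∀ j, 0 ≤ act (cs.simple i) x j) ∨
      S (act (cs.simple i) x) * S x ≤ S x * S x - 2 * Q x ∧ S (act (cs.simple i) x) ≤ S x := by
  have h1 := cone_12 hx
  have h2 := cone_02 hx
  have h3 := cone_01 hx
  push Not at hn
  obtain ⟨i, hi⟩ := hn
  refine ⟨i, ?_⟩
  fin_cases i
  · change x 0 < 0 at hi
    change (∀ j, 0 ≤ act (cs.simple 0) x j) ∨
      S (act (cs.simple 0) x) * S x ≤ S x * S x - 2 * Q x ∧ S (act (cs.simple 0) x) ≤ S x
    rw [act0]
    by_cases hc : x 1 + 2 * x 0 < 0 ∨ x 2 + 2 * x 0 < 0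
    · right
      have := aux_step (q := Q x) (s := S x) hi h3 h2 (by unfold Q; ring) rfl hc
      have e : S ![-x 0, x 2 + 2 * x 0, x 1 + 2 * x 0] = S x + 2 * x 0 := by simp [S]; ring
      rw [e]
      constructor <;> nlinarith
    · left
      push Not at hc
      intro j
      fin_cases j
      · simp; linarith
      · simpa using hc.2
      · simpa using hc.1
  · change x 1 < 0 at hi
    change (∀ j, 0 ≤ act (cs.simple 1) x j) ∨
      S (act (cs.simple 1) x) * S x ≤ S x * S x - 2 * Q x ∧ S (act (cs.simple 1) x) ≤ S x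
    rw [act1]
    by_cases hc : x 0 + 2 * x 1 < 0 ∨ x 2 + 2 * x 1 < 0
    · right
      have := aux_step (q := Q x) (s := S x) hi (by linarith : 0 < x 1 + x 0) h1
        (by unfold Q; ring) (by unfold S; ring) hc
      have e : S ![x 2 + 2 * x 1, -x 1, x 0 + 2 * x 1] = S x + 2 * x 1 := by simp [S]; ring
      rw [e]
      constructor <;> nlinarith
    · left
      push Not at hc
      intro j
      fin_cases j
      · simpa using hc.2
      · simp; linarith
      · simpa using hc.1
  · change x 2 < 0 at hi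
    change (∀ j, 0 ≤ act (cs.simple 2) x j) ∨
      S (act (cs.simple 2) x) * S x ≤ S x * S x - 2 * Q x ∧ S (act (cs.simple 2) x) ≤ S x
    rw [act2]
    by_cases hc : x 0 + 2 * x 2 < 0 ∨ x 1 + 2 * x 2 < 0
    · right
      have := aux_step (q := Q x) (s := S x) hi (by linarith : 0 < x 2 + x 0)
        (by linarith : 0 < x 2 + x 1) (by unfold Q; ring) (by unfold S; ring) hc
      have e : S ![x 1 + 2 * x 2, x 0 + 2 * x 2, -x 2] = S x + 2 * x 2 := by simp [S]; ring
      rw [e]
      constructor <;> nlinarith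
    · left
      push Not at hc
      intro j
      fin_cases j
      · simpa using hc.2
      · simpa using hc.1
      · simp; linarith

lemma descent (n : ℕ) : ∀ x ∈ Cone, S x * S x ≤ n * Q x → ∃ w : W, ∀ j, 0 ≤ act w x j := by
  induction n with
  | zero =>
    intro x hx h
    have := S_pos hx
    simp only [Nat.cast_zero, zero_mul] at h
    nlinarith
  | succ n ih =>
    intro x hx h
    by_cases hn : ∀ i, 0 ≤ x i
    · exact ⟨1, by rw [act_one]; exact hn⟩
    · obtain ⟨i, h1 | ⟨h1, h2⟩⟩ := step hx hn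
      · exact ⟨_, h1⟩
      · have hy := simple_mem i hx
        have hS := S_pos hy
        have hq := hx.2
        obtain ⟨w, hw⟩ := ih _ hy (by
          rw [Q_simple]
          push_cast at h
          nlinarith)
        exact ⟨w * cs.simple i, by rw [act_mul]; exact hw⟩

/-- The strip. -/
def Strip : Set (Fin 3 → ℝ) :=
  {x | x ∈ Cone ∧ -(x 1 + x 2) ≤ x 2 ∧ x 2 ≤ 2 * (x 1 + x 2) ∧ (x 1 + x 2) ^ 2 ≤ 2 * Q x}

lemma to_strip {x : Fin 3 → ℝ} (hx : x ∈ Cone) : ∃ w : W, act w x ∈ Strip := by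
  obtain ⟨n, hn⟩ := exists_nat_ge (S x * S x / Q x)
  rw [div_le_iff₀ hx.2] at hn
  obtain ⟨w, hw⟩ := descent n x hx hn
  have hy := act_mem w hx
  set y := act w x with hydef
  have h0 := hw 0
  have h1 := hw 1
  have h2 := hw 2
  by_cases ha : y 1 ≤ y 0 ∧ y 2 ≤ y 0
  · refine ⟨w, hy, by linarith, by linarith, ?_⟩
    rw [← hydef]
    unfold Q
    nlinarith [mul_nonneg h1 h2, ha.1, ha.2]
  · by_cases hb : y 2 ≤ y 1
    · have hc : y 0 ≤ y 1 := by
        by_contra hc
        exact ha ⟨by linarith, by linarith⟩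
      refine ⟨cs.simple 2 * w, ?_⟩
      rw [act_mul, ← hydef]
      refine ⟨simple_mem 2 hy, ?_, ?_, ?_⟩
      · rw [act2]; simp; linarith
      · rw [act2]; simp; linarith
      · rw [Q_simple, act2]; simp; unfold Q
        nlinarith [mul_nonneg h0 h2]
    · have hc : y 0 ≤ y 2 := by
        by_contra hc
        exact ha ⟨by linarith, by linarith⟩
      push Not at hb
      refine ⟨cs.simple 1 * w, ?_⟩
      rw [act_mul, ← hydef]
      refine ⟨simple_mem 1 hy, ?_, ?_, ?_⟩
      · rw [act1]; simp; linarith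
      · rw [act1]; simp; linarith
      · rw [Q_simple, act1]; simp; unfold Q
        nlinarith [mul_nonneg h0 h1]

end Pool.Agent.H452Z.Cox
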