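import Mathlib
import Pool.Agent.H452Z.CoxGroup

/-!
The strip has finite two-dimensional Hausdorff measure for the Hilbert metric of the cone.
-/

namespace Pool.Agent.H452Z.Cox

noncomputable def dH (x y : Fin 3 → ℝ) : ℝ :=
  (1/2) * Real.log (sInf {t : ℝ | t • y - x ∈ closure Cone}
    * sInf {t : ℝ | t • x - y ∈ closure Cone})

lemma sInf_lower {x y : Fin 3 → ℝ} (hy : y ∈ Cone) {t : ℝ} (ht : t • y - x ∈ closure Cone) :
    (x 1 + x 2) / (y 1 + y 2) ≤ t := by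
  have h := (closure_cone ht).1
  simp only [Pi.sub_apply, Pi.smul_apply, smul_eq_mul] at h
  rw [div_le_iff₀ hy.1]
  linarith

lemma dH_le {x y : Fin 3 → ℝ} (hx : x ∈ Cone) (hy : y ∈ Cone) {s t : ℝ}
    (hs : s • y - x ∈ closure Cone) (ht : t • x - y ∈ closure Cone) :
    dH x y ≤ (1/2) * Real.log (s * t) := by
  have a1 := hx.1
  have a2 := hy.1
  have b1 : BddBelow {t : ℝ | t • y - x ∈ closure Cone} := ⟨_, fun t ht => sInf_lower hy ht⟩
  have b2 : BddBelow {t : ℝ | t • x - y ∈ closure Cone} := ⟨_, fun t ht => sInf_lower hx ht⟩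
  have l1 : (x 1 + x 2) / (y 1 + y 2) ≤ sInf {t : ℝ | t • y - x ∈ closure Cone} :=
    le_csInf ⟨s, hs⟩ fun t ht => sInf_lower hy ht
  have l2 : (y 1 + y 2) / (x 1 + x 2) ≤ sInf {t : ℝ | t • x - y ∈ closure Cone} :=
    le_csInf ⟨t, ht⟩ fun t ht => sInf_lower hx ht
  have u1 : sInf {t : ℝ | t • y - x ∈ closure Cone} ≤ s := csInf_le b1 hs
  have u2 : sInf {t : ℝ | t • x - y ∈ closure Cone} ≤ t := csInf_le b2 ht
  have p1 : 0 < sInf {t : ℝ | t • y - x ∈ closure Cone} := lt_of_lt_of_le (by positivity) l1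
  have p2 : 0 < sInf {t : ℝ | t • x - y ∈ closure Cone} := lt_of_lt_of_le (by positivity) l2
  unfold dH
  apply mul_le_mul_of_nonneg_left _ (by norm_num)
  apply Real.log_le_log (mul_pos p1 p2)
  exact mul_le_mul u1 u2 p2.le (p1.le.trans u1)

/-- horizontal coordinate -/
noncomputable def uu (x : Fin 3 → ℝ) : ℝ := x 2 / (x 1 + x 2)
/-- vertical coordinate -/
noncomputable def vv (x : Fin 3 → ℝ) : ℝ := √(Q x) / (x 1 + x 2)

lemma vv_pos {x : Fin 3 → ℝ} (hx : x ∈ Cone) : 0 < vv x :=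
  div_pos (Real.sqrt_pos.mpr hx.2) hx.1

lemma vv_sq {x : Fin 3 → ℝ} (hx : x ∈ Cone) : vv x ^ 2 * (x 1 + x 2) ^ 2 = Q x := by
  have := hx.1
  unfold vv
  rw [div_pow, Real.sq_sqrt hx.2.le]
  field_simp

lemma key_mem {x y : Fin 3 → ℝ} (hx : x ∈ Cone) (hy : y ∈ Cone) {ε : ℝ} (hε : 0 < ε)
    (hε1 : ε ≤ 1 / 2) (hu : |uu x - uu y| ≤ ε * vv y) (hv : vv x ≤ (1 + ε) * vv y) :
    ((1 + 4 * ε) * ((x 1 + x 2) / (y 1 + y 2))) • y - x ∈ Cone := by
  have a1 := hx.1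
  have a2 := hy.1
  set a := x 1 + x 2 with ha
  set a' := y 1 + y 2 with ha'
  set T := 1 + 4 * ε with hT
  have v1 := vv_pos hx
  have v2 := vv_pos hy
  have q1 := vv_sq hx
  have q2 := vv_sq hy
  rw [← ha] at q1
  rw [← ha'] at q2
  have hb : x 2 = uu x * a := by unfold uu; rw [← ha]; field_simp
  have hb' : y 2 = uu y * a' := by unfold uu; rw [← ha']; field_simp
  have hx1 : x 1 = a - uu x * a := by rw [← hb, ha]; ring
  have hy1 : y 1 = a' - uu y * a' := by rw [← hb', ha']; ring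
  have hx0 : x 0 = a * (uu x ^ 2 + vv x ^ 2) - uu x * a := by
    have e : Q x = a * (x 0 + x 2) - x 2 ^ 2 := by rw [ha]; unfold Q; ring
    rw [e, hb] at q1
    have : a * (x 0 + uu x * a) = a * (a * (uu x ^ 2 + vv x ^ 2)) := by linarith
    have := mul_left_cancel₀ a1.ne' this
    linarith
  have hy0 : y 0 = a' * (uu y ^ 2 + vv y ^ 2) - uu y * a' := by
    have e : Q y = a' * (y 0 + y 2) - y 2 ^ 2 := by rw [ha']; unfold Q; ring
    rw [e, hb'] at q2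
    have : a' * (y 0 + uu y * a') = a' * (a' * (uu y ^ 2 + vv y ^ 2)) := by linarith
    have := mul_left_cancel₀ a2.ne' this
    linarith
  constructor
  · simp only [Pi.sub_apply, Pi.smul_apply, smul_eq_mul]
    have : T * (a / a') * y 1 - x 1 + (T * (a / a') * y 2 - x 2) = 4 * ε * a := by
      have e : T * (a / a') * y 1 - x 1 + (T * (a / a') * y 2 - x 2) =
        T * (a / a') * a' - a := by rw [ha, ha']; ring
      rw [e, hT]; field_simp; ring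
    rw [this]; positivity
  · have e : Q ((T * (a / a')) • y - x) =
        a ^ 2 * ((T - 1) * (T * vv y ^ 2 - vv x ^ 2) - T * (uu x - uu y) ^ 2) := by
      simp only [Q, Pi.sub_apply, Pi.smul_apply, smul_eq_mul]
      generalize uu x = u at *
      generalize uu y = u' at *
      generalize vv x = v at *
      generalize vv y = v' at *
      rw [hx0, hy0, hx1, hy1, hb, hb']
      field_simp
      ring
    rw [e]
    apply mul_pos (by positivity)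
    have h1 : (uu x - uu y) ^ 2 ≤ (ε * vv y) ^ 2 := by
      rw [← sq_abs]; exact pow_le_pow_left₀ (abs_nonneg _) hu 2
    have h2 : vv x ^ 2 ≤ ((1 + ε) * vv y) ^ 2 := pow_le_pow_left₀ v1.le hv 2
    set w := vv y ^ 2 with hw
    have hw0 : 0 < w := by positivity
    have h1' : (uu x - uu y) ^ 2 ≤ ε ^ 2 * w := by rw [hw]; nlinarith
    have h2' : vv x ^ 2 ≤ (1 + ε) ^ 2 * w := by rw [hw]; nlinarith
    have h3 : ε * w ≤ T * w - vv x ^ 2 := by
      rw [hT]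
      have : 0 ≤ ε * (1 - ε) * w := by apply mul_nonneg (mul_nonneg hε.le (by linarith)) hw0.le
      nlinarith
    have h4 : (T - 1) * (ε * w) ≤ (T - 1) * (T * w - vv x ^ 2) :=
      mul_le_mul_of_nonneg_left h3 (by rw [hT]; linarith)
    have h5 : T * (uu x - uu y) ^ 2 ≤ T * (ε ^ 2 * w) :=
      mul_le_mul_of_nonneg_left h1' (by rw [hT]; linarith)
    have h6 : T * (ε ^ 2 * w) < (T - 1) * (ε * w) := by
      rw [hT]
      have : 0 < ε ^ 2 * w * (3 - 4 * ε) := mul_pos (by positivity) (by linarith)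
      nlinarith
    linarith

lemma dH_box {x y : Fin 3 → ℝ} (hx : x ∈ Cone) (hy : y ∈ Cone) {ε : ℝ} (hε : 0 < ε)
    (hε1 : ε ≤ 1 / 2) (hu : |uu x - uu y| ≤ ε * vv y) (hv : vv x ≤ (1 + ε) * vv y)
    (hu' : |uu y - uu x| ≤ ε * vv x) (hv' : vv y ≤ (1 + ε) * vv x) : dH x y ≤ 4 * ε := by
  have h1 := subset_closure (key_mem hx hy hε hε1 hu hv)
  have h2 := subset_closure (key_mem hy hx hε hε1 hu' hv')
  refine (dH_le hx hy h1 h2).trans ?_
  have a1 := hx.1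
  have a2 := hy.1
  have e : (1 + 4 * ε) * ((x 1 + x 2) / (y 1 + y 2)) * ((1 + 4 * ε) * ((y 1 + y 2) / (x 1 + x 2)))
      = (1 + 4 * ε) ^ 2 := by field_simp
  rw [e, Real.log_pow]
  have := Real.log_le_sub_one_of_pos (show 0 < 1 + 4 * ε by positivity)
  push_cast
  linarith

/-- the boxes -/
def box (N j k : ℕ) : Set (Fin 3 → ℝ) :=
  {x | x ∈ Cone ∧ (j : ℝ) ≤ (uu x + 1) * N ∧ (uu x + 1) * N ≤ j + 1 ∧
    (k : ℝ) ≤ vv x * N ∧ vv x * N ≤ k + 1}

lemma box_diam {N j k : ℕ} (hN : 0 < N) (hk : 2 ≤ k) {x y : Fin 3 → ℝ} (hx : x ∈ box N j k)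
    (hy : y ∈ box N j k) : dH x y ≤ 4 / k := by
  have hN' : (0 : ℝ) < N := by exact_mod_cast hN
  have hk' : (2 : ℝ) ≤ k := by exact_mod_cast hk
  have main : ∀ x y : Fin 3 → ℝ, x ∈ box N j k → y ∈ box N j k →
      |uu x - uu y| ≤ (1 / k) * vv y ∧ vv x ≤ (1 + 1 / k) * vv y := by
    rintro x y ⟨-, h1, h2, h3, h4⟩ ⟨-, g1, g2, g3, g4⟩
    have e1 : 1 ≤ (1 / k) * vv y * N := by
      rw [mul_assoc, one_div, inv_mul_eq_div, le_div_iff₀ (by linarith)]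
      linarith
    constructor
    · have : |uu x - uu y| * N ≤ (1 / k) * vv y * N := by
        rw [← abs_of_pos hN', ← abs_mul, abs_of_pos hN']
        refine le_trans ?_ e1
        rw [abs_le]
        constructor <;> nlinarith
      exact le_of_mul_le_mul_right this hN'
    · have : vv x * N ≤ (1 + 1 / k) * vv y * N := by nlinarith
      exact le_of_mul_le_mul_right this hN'
  have := dH_box hx.1 hy.1 (ε := 1 / k) (by positivity)
    (by rw [div_le_div_iff₀ (by linarith) (by norm_num)]; linarith)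
    (main x y hx hy).1 (main x y hx hy).2 (main y x hy hx).1 (main y x hy hx).2
  rw [mul_one_div] at this
  exact this

lemma strip_cover (k0 : ℕ) (hk0 : 0 < k0) {x : Fin 3 → ℝ} (hx : x ∈ Strip) :
    ∃ i : ℕ, x ∈ box (2 * k0) (i % (8 * k0)) (k0 + i / (8 * k0)) := by
  obtain ⟨hc, h1, h2, h3⟩ := hx
  have a1 := hc.1
  have hk : (0 : ℝ) < k0 := by exact_mod_cast hk0
  have hu0 : 0 ≤ uu x + 1 := by
    have : -1 ≤ uu x := by unfold uu; rw [le_div_iff₀ a1]; linarith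
    linarith
  have hu3 : uu x + 1 ≤ 3 := by
    have : uu x ≤ 2 := by unfold uu; rw [div_le_iff₀ a1]; linarith
    linarith
  have hv : 1 / 2 ≤ vv x := by
    have q := vv_sq hc
    have v1 := vv_pos hc
    by_contra hcon
    push Not at hcon
    have h4 : vv x ^ 2 < 1 / 4 := by nlinarith
    have h5 : 0 < (x 1 + x 2) ^ 2 := by positivity
    nlinarith
  set j := ⌊(uu x + 1) * ((2 * k0 : ℕ) : ℝ)⌋₊ with hj
  set k := ⌊vv x * ((2 * k0 : ℕ) : ℝ)⌋₊ with hkk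
  have hj1 : (j : ℝ) ≤ (uu x + 1) * ((2 * k0 : ℕ) : ℝ) := Nat.floor_le (by positivity)
  have hj2 : (uu x + 1) * ((2 * k0 : ℕ) : ℝ) ≤ j + 1 := (Nat.lt_floor_add_one _).le
  have hk1 : (k : ℝ) ≤ vv x * ((2 * k0 : ℕ) : ℝ) := Nat.floor_le (by positivity)
  have hk2 : vv x * ((2 * k0 : ℕ) : ℝ) ≤ k + 1 := (Nat.lt_floor_add_one _).le
  have hjlt : j < 8 * k0 := by
    have : (j : ℝ) < ((8 * k0 : ℕ) : ℝ) := by
      push_cast at hj1 ⊢
      nlinarith
    exact_mod_cast this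
  have hkge : k0 ≤ k := by
    apply Nat.le_floor
    push_cast
    nlinarith
  refine ⟨j + (8 * k0) * (k - k0), ?_⟩
  have e1 : (j + (8 * k0) * (k - k0)) % (8 * k0) = j := by
    rw [Nat.add_mul_mod_self_left, Nat.mod_eq_of_lt hjlt]
  have e2 : k0 + (j + (8 * k0) * (k - k0)) / (8 * k0) = k := by
    rw [Nat.add_mul_div_left _ _ (by omega), Nat.div_eq_of_lt hjlt]
    omega
  rw [e1, e2]
  exact ⟨hc, hj1, hj2, hk1, hk2⟩

lemma term_le (k0 : ℕ) (hk0 : 2 ≤ k0) (i : ℕ) :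
    (4 / ((k0 + i / (8 * k0) : ℕ) : ℝ)) ^ 2 ≤
      1024 * (k0 : ℝ) ^ 2 * (1 / (4 * (k0 : ℝ) ^ 2 + i) - 1 / (4 * (k0 : ℝ) ^ 2 + (i + 1 : ℕ))) := by
  have hk : (2 : ℝ) ≤ k0 := by exact_mod_cast hk0
  set m := i / (8 * k0) with hm
  have h1 : i + 1 ≤ 8 * k0 * (m + 1) := by
    exact Nat.lt_mul_div_succ i (show 0 < 8 * k0 by omega)
  have h1' : (i : ℝ) + 1 ≤ 8 * k0 * (m + 1) := by exact_mod_cast h1
  have hi : (0 : ℝ) ≤ i := Nat.cast_nonneg i
  have hm0 : (0 : ℝ) ≤ m := Nat.cast_nonneg m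
  set L : ℝ := 4 * (k0 : ℝ) ^ 2 + i with hL
  have hL0 : 0 < L := by positivity
  have e : (1 / L - 1 / (4 * (k0 : ℝ) ^ 2 + (i + 1 : ℕ))) = 1 / (L * (L + 1)) := by
    have : 4 * (k0 : ℝ) ^ 2 + (i + 1 : ℕ) = L + 1 := by rw [hL]; push_cast; ring
    rw [this]; field_simp; ring
  rw [e]
  push_cast
  have h2 : L + 1 ≤ 8 * k0 * (k0 + m) := by rw [hL]; nlinarith
  have h3 : L * (L + 1) ≤ (8 * k0 * (k0 + m)) ^ 2 := by nlinarith
  rw [div_pow, mul_one_div, div_le_div_iff₀ (by positivity) (by positivity)]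
  nlinarith

lemma sum_le (k0 : ℕ) (hk0 : 2 ≤ k0) (n : ℕ) :
    ∑ i ∈ Finset.range n, (4 / ((k0 + i / (8 * k0) : ℕ) : ℝ)) ^ 2 ≤ 256 := by
  have hk : (2 : ℝ) ≤ k0 := by exact_mod_cast hk0
  refine (Finset.sum_le_sum fun i _ => term_le k0 hk0 i).trans ?_
  rw [← Finset.mul_sum, Finset.sum_range_sub' (fun i : ℕ => 1 / (4 * (k0 : ℝ) ^ 2 + i))]
  have h1 : 0 ≤ 1 / (4 * (k0 : ℝ) ^ 2 + n) := by positivity
  have h2 : 1024 * (k0 : ℝ) ^ 2 * (1 / (4 * (k0 : ℝ) ^ 2 + (0 : ℕ))) = 256 := by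
    push_cast; field_simp; ring
  have h3 : 0 ≤ 1024 * (k0 : ℝ) ^ 2 * (1 / (4 * (k0 : ℝ) ^ 2 + n)) := by positivity
  rw [mul_sub, h2]
  linarith

noncomputable def diamH (U : Set (Fin 3 → ℝ)) : ENNReal :=
  ⨆ x ∈ U, ⨆ y ∈ U, ENNReal.ofReal (dH x y)

lemma diam_box {N j k : ℕ} (hN : 0 < N) (hk : 2 ≤ k) :
    diamH (box N j k) ≤ ENNReal.ofReal (4 / k) :=
  iSup₂_le fun _ hx => iSup₂_le fun _ hy => ENNReal.ofReal_le_ofReal (box_diam hN hk hx hy)

theorem strip_finite :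
    (⨆ (r : ℝ) (_ : 0 < r), ⨅ (U : ℕ → Set (Fin 3 → ℝ))
        (_ : Strip ⊆ ⋃ i, U i) (_ : ∀ i, U i ⊆ Cone ∧ diamH (U i) ≤ ENNReal.ofReal r),
        ∑' i, diamH (U i) ^ 2) < ⊤ := by
  refine lt_of_le_of_lt (b := ENNReal.ofReal 256) ?_ ENNReal.ofReal_lt_top
  refine iSup₂_le fun r hr => ?_
  obtain ⟨n, hn⟩ := exists_nat_ge (4 / r)
  set k0 := n + 2 with hk0
  have hk2 : 2 ≤ k0 := by omega
  let U : ℕ → Set (Fin 3 → ℝ) := fun i => box (2 * k0) (i % (8 * k0)) (k0 + i / (8 * k0))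
  have hU : ∀ i, diamH (U i) ≤ ENNReal.ofReal (4 / ((k0 + i / (8 * k0) : ℕ) : ℝ)) :=
    fun i => diam_box (by omega) (le_trans hk2 (Nat.le_add_right _ _))
  refine iInf_le_of_le U (iInf_le_of_le ?_ (iInf_le_of_le ?_ ?_))
  · intro x hx
    exact Set.mem_iUnion.mpr (strip_cover k0 (by omega) hx)
  · intro i
    refine ⟨fun x hx => hx.1, (hU i).trans (ENNReal.ofReal_le_ofReal ?_)⟩
    have h1 : (n : ℝ) ≤ ((k0 + i / (8 * k0) : ℕ) : ℝ) := by
      exact_mod_cast (le_trans (by omega : n ≤ k0) (Nat.le_add_right k0 (i / (8 * k0))))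
    have h2 : (0 : ℝ) < ((k0 + i / (8 * k0) : ℕ) : ℝ) := by
      exact_mod_cast (lt_of_lt_of_le (by omega : 0 < k0) (Nat.le_add_right k0 (i / (8 * k0))))
    rw [div_le_iff₀ h2]
    rw [div_le_iff₀ hr] at hn
    nlinarith
  · refine ENNReal.tsum_le_of_sum_range_le fun m => ?_
    refine le_trans (Finset.sum_le_sum fun i _ => pow_le_pow_left₀ (by simp) (hU i) 2) ?_
    simp_rw [← ENNReal.ofReal_pow (show (0 : ℝ) ≤ 4 / ((k0 + _ / (8 * k0) : ℕ) : ℝ) by positivity)]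
    rw [← ENNReal.ofReal_sum_of_nonneg (fun i _ => by positivity)]
    exact ENNReal.ofReal_le_ofReal (sum_le k0 hk2 m)

end Pool.Agent.H452Z.Cox
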