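import Pool.Agent.H113Z.Dist.Defs

set_option autoImplicit false

namespace Pool.Agent.H113Z.Dist
open Filter Topology Set Asymptotics

namespace Exc452

lemma Bd_mono {f : ℝ → ℝ} {x s η s' η' : ℝ} (h : Bd f x s η) (hs' : 0 < s') (hs : s' ≤ s)
    (hη : η ≤ η') : Bd f x s' η' := by
  obtain ⟨h1, h2, h3, h4⟩ := h
  have h0 : 0 ≤ η' := ((abs_nonneg _).trans h1).trans hη
  refine ⟨h1.trans hη, h2.trans ?_, h3.trans ?_, h4.trans ?_⟩
  · exact div_le_div₀ h0 hη hs' hs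
  · exact div_le_div₀ h0 hη (by positivity) (pow_le_pow_left₀ hs'.le hs 2)
  · exact div_le_div₀ h0 hη (by positivity) (pow_le_pow_left₀ hs'.le hs 3)

lemma D_congr {f g : ℝ → ℝ} {x : ℝ} (h : f =ᶠ[𝓝 x] g) (k : ℕ) : D k f x = D k g x :=
  h.iteratedDeriv_eq k

lemma D_id (k : ℕ) (x : ℝ) : D (k + 2) id x = 0 := by
  unfold D
  rw [iteratedDeriv_succ', deriv_id', iteratedDeriv_succ']
  simp

lemma Bd_congr {f g : ℝ → ℝ} {x s η : ℝ} (h : f =ᶠ[𝓝 x] g) (hg : Bd g x s η) : Bd f x s η := by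
  unfold Bd
  rw [h.deriv_eq, D_congr h, D_congr h, D_congr h]
  exact hg

lemma Bd_id {x s η : ℝ} (hs : 0 < s) (hη : 0 ≤ η) : Bd id x s η := by
  refine ⟨by simpa using hη, ?_, ?_, ?_⟩
  · rw [D_id 0, abs_zero]; positivity
  · rw [D_id 1, abs_zero]; positivity
  · rw [D_id 2, abs_zero]; positivity

lemma rE_ge {e : ℕ} : 10 ≤ rE e := by
  unfold rE
  have := Real.log_natCast_nonneg e
  linarith

lemma w_tendsto : Tendsto (fun e : ℕ => rE e ^ 6 / (e : ℝ)) atTop (𝓝 0) := by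
  have h1 := Real.tendsto_pow_log_div_mul_add_atTop (Real.exp (-10)) 0 6 (Real.exp_ne_zero _)
  have h2 : Tendsto (fun e : ℕ => Real.exp 10 * (e : ℝ)) atTop atTop :=
    tendsto_natCast_atTop_atTop.const_mul_atTop (Real.exp_pos _)
  refine (h1.comp h2).congr' ?_
  filter_upwards [eventually_gt_atTop 0] with e he
  have he' : (e : ℝ) ≠ 0 := by exact_mod_cast he.ne'
  simp only [Function.comp, rE]
  rw [Real.log_mul (Real.exp_ne_zero _) he', Real.log_exp, ← mul_assoc, ← Real.exp_add]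
  simp [add_comm]

lemma rE_tendsto : Tendsto (fun e : ℕ => 1 / rE e) atTop (𝓝 0) := by
  have h : Tendsto rE atTop atTop :=
    tendsto_atTop_add_const_right _ 10
      (Real.tendsto_log_atTop.comp tendsto_natCast_atTop_atTop)
  simp only [one_div]
  exact h.inv_tendsto_atTop

lemma big (e2 : ℕ) : ∃ R : ℝ, ∀ k : IE, R ≤ loE k → e2 ≤ k.1 := by
  refine ⟨2 ^ (e2 + 1) * e2 + 1, fun k hk => ?_⟩
  by_contra h
  have h1 : k.1 ≤ e2 := (not_le.mp h).le
  have h2 : (k.1 : ℝ) ≤ e2 := by exact_mod_cast h1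
  have h3 : (2 : ℝ) ^ (k.1 + 1) ≤ 2 ^ (e2 + 1) := pow_le_pow_right₀ one_le_two (by omega)
  have h4 : 0 < 2 / rE k.1 := by have := @rE_ge k.1; positivity
  have h5 : (2 : ℝ) ^ (k.1 + 1) * k.1 ≤ 2 ^ (e2 + 1) * e2 :=
    mul_le_mul h3 h2 (by positivity) (by positivity)
  have h6 : (0 : ℝ) ≤ 2 ^ (k.1 + 1) * k.1 := by positivity
  unfold loE at hk
  nlinarith

/-- the decay rate -/
noncomputable def del (K C : ℝ) (i e : ℕ) : ℝ :=
  4 * K * (2 * ((2 * i + 6) * C * (rE e ^ 6 / e)) +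
    (2 * i + 1) * (C * (C * (rE e ^ 6 / e) + (e : ℝ) ^ 13 / 2 ^ e)) + 1 / rE e)

lemma del_tendsto (K C : ℝ) (i : ℕ) : Tendsto (del K C i) atTop (𝓝 0) := by
  have h1 := w_tendsto
  have h2 := tendsto_pow_const_div_const_pow_of_one_lt 13 (r := 2) one_lt_two
  have := ((((h1.const_mul ((2 * i + 6) * C)).const_mul 2).add
    ((((h1.const_mul C).add h2).const_mul C).const_mul (2 * (i : ℝ) + 1))).add
      rE_tendsto).const_mul (4 * K)
  simp only [mul_zero, add_zero] at this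
  exact this

lemma rz_le {e : ℕ} (he : 3 ≤ e) : rz e ≤ 2 ^ e / 8 := by
  unfold rz
  have h1 : (3 : ℝ) ≤ e := by exact_mod_cast he
  have h2 : (3 : ℝ) ^ 14 ≤ (e : ℝ) ^ 14 := pow_le_pow_left₀ (by norm_num) h1 14
  rw [div_le_div_iff₀ (by positivity) (by norm_num)]
  have : (0 : ℝ) < 2 ^ e := by positivity
  nlinarith

lemma size_bound {K C I p E R y l c : ℝ} (hK : 0 ≤ K) (hC : 0 < C) (hI : 0 ≤ I) (hp : 1 ≤ p)
    (hE : 1 ≤ E) (hR : 1 ≤ R) (hy : y = p * E) (hl0 : 0 ≤ l) (hl : l ≤ (2 * I + 6) * p * R ^ 3)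
    (hc0 : 0 ≤ c) (hc : c ≤ 2 * I + 1) :
    K * (l * (C * y ^ (-19 / 5 : ℝ)) + c * (C * p / E ^ 14 / (1 / R ^ 3) + 1) * (C * E ^ 11 / p ^ 3)
      + l * (C * y ^ (-5 / 4 : ℝ)) * (1 / R ^ 3) ^ 2 / (y ^ (3 / 4 : ℝ)) ^ 3 +
      1 / R ^ 3 / (2 * y / R) ^ 2) * (2 * y) ^ 2 ≤
    4 * K * (2 * ((2 * I + 6) * C * (R ^ 6 / E)) +
      (2 * I + 1) * (C * (C * (R ^ 6 / E) + E ^ 13 / p)) + 1 / R) := by
  have hy1 : 1 ≤ y := by rw [hy]; nlinarith
  have hy0 : 0 < y := by linarith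
  have hR36 : R ^ 3 ≤ R ^ 6 := pow_le_pow_right₀ hR (by norm_num)
  have hw : p * R ^ 3 / y ≤ R ^ 6 / E := by
    rw [hy, mul_div_mul_left _ _ (by linarith : p ≠ 0)]
    exact div_le_div_of_nonneg_right hR36 (by linarith)
  have k : ∀ z : ℝ, 0 ≤ z → z ≤ 1 / y → l * C * z ≤ (2 * I + 6) * C * (R ^ 6 / E) := by
    intro z hz0 hz
    calc l * C * z ≤ (2 * I + 6) * p * R ^ 3 * C * (1 / y) := by gcongr
      _ = (2 * I + 6) * C * (p * R ^ 3 / y) := by ring
      _ ≤ _ := by gcongr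
  have e1 : y ^ (-19 / 5 : ℝ) * y ^ 2 ≤ 1 / y := by
    rw [← Real.rpow_natCast, ← Real.rpow_add hy0, one_div, ← Real.rpow_neg_one]
    exact Real.rpow_le_rpow_of_exponent_le hy1 (by norm_num)
  have e2 : y ^ (-5 / 4 : ℝ) / (y ^ (3 / 4 : ℝ)) ^ 3 * y ^ 2 ≤ 1 / y := by
    rw [← Real.rpow_natCast, ← Real.rpow_natCast, ← Real.rpow_mul hy0.le, ← Real.rpow_sub hy0,
      ← Real.rpow_add hy0, one_div, ← Real.rpow_neg_one]
    exact Real.rpow_le_rpow_of_exponent_le hy1 (by norm_num)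
  have t1 := k _ (by positivity) e1
  have hτ : (1 / R ^ 3) ^ 2 ≤ 1 :=
    pow_le_one₀ (by positivity) ((div_le_one (by positivity)).mpr (one_le_pow₀ hR))
  have t3 := k ((1 / R ^ 3) ^ 2 * (y ^ (-5 / 4 : ℝ) / (y ^ (3 / 4 : ℝ)) ^ 3 * y ^ 2))
    (by positivity) ((mul_le_of_le_one_left (by positivity) hτ).trans e2)
  have t2 : c * (C * p / E ^ 14 / (1 / R ^ 3) + 1) * (C * E ^ 11 / p ^ 3) * y ^ 2 ≤
      (2 * I + 1) * (C * (C * (R ^ 6 / E) + E ^ 13 / p)) := by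
    have : c * (C * p / E ^ 14 / (1 / R ^ 3) + 1) * (C * E ^ 11 / p ^ 3) * y ^ 2 =
        c * (C * (C * (R ^ 3 / E) + E ^ 13 / p)) := by
      rw [hy]
      field_simp
    rw [this]
    gcongr
  have t4 : 1 / R ^ 3 / (2 * y / R) ^ 2 * y ^ 2 ≤ 1 / R := by
    have : 1 / R ^ 3 / (2 * y / R) ^ 2 * y ^ 2 = 1 / R / 4 := by
      field_simp
      ring
    rw [this]
    have : 0 < 1 / R := by positivity
    linarith
  calc _ = 4 * K * (l * C * (y ^ (-19 / 5 : ℝ) * y ^ 2) +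
        c * (C * p / E ^ 14 / (1 / R ^ 3) + 1) * (C * E ^ 11 / p ^ 3) * y ^ 2 +
        l * C * ((1 / R ^ 3) ^ 2 * (y ^ (-5 / 4 : ℝ) / (y ^ (3 / 4 : ℝ)) ^ 3 * y ^ 2)) +
        1 / R ^ 3 / (2 * y / R) ^ 2 * y ^ 2) := by ring
    _ ≤ _ := by
        refine mul_le_mul_of_nonneg_left ?_ (by positivity)
        linarith

lemma pointwise (hP : PerfStmt) (hC : CutStmt) (i : ℕ) (ρ : Pm) (h : Rem i ρ) :
    ∃ (δ : ℕ → ℝ) (e1 : ℕ), Tendsto δ atTop (𝓝 0) ∧ ∀ k : IE, e1 ≤ k.1 →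
      ∃ P1 Q1 P2 Q2 : Pm,
        (∀ f ∈ [P1, Q1, P2, Q2], G2 f ∧ Supp f (loE k) (hiE k) ∧
          ∀ x, |D 2 f x| ≤ δ k.1 / loE k ^ 2) ∧
        ∀ x : ℝ, (x ∈ Icc (aE i k.1) (bE k.1) → (cm P1 Q1 * cm P2 Q2) x = ρ x) ∧
          (x ∉ Icc (aE i k.1) (bE k.1) → (cm P1 Q1 * cm P2 Q2) x = x) := by
  obtain ⟨K, hK, hP⟩ := hP
  obtain ⟨hρ, C, X, e0, hC0, r1, r2, -, r4⟩ := h
  have ev : ∀ᶠ e : ℕ in atTop, e0 ≤ e ∧ 2 * i + 1 ≤ e ∧ X ≤ e ∧ K ≤ e ∧ 2 * C < e ∧
      (K + 4) * (2 * i + 6) * (C + 1) * (rE e ^ 6 / e) ≤ 1 := by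
    have h1 := w_tendsto.const_mul ((K + 4) * (2 * i + 6) * (C + 1))
    rw [mul_zero] at h1
    filter_upwards [eventually_ge_atTop e0, eventually_ge_atTop (2 * i + 1),
      tendsto_natCast_atTop_atTop.eventually_ge_atTop X,
      tendsto_natCast_atTop_atTop.eventually_ge_atTop K,
      tendsto_natCast_atTop_atTop.eventually_gt_atTop (2 * C),
      h1.eventually (ge_mem_nhds one_pos)] with e a b c d f g
    exact ⟨a, b, c, d, f, g⟩
  obtain ⟨e1, he1⟩ := eventually_atTop.mp ev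
  refine ⟨del K C i, e1, del_tendsto K C i, ?_⟩
  rintro ⟨e, he3⟩ hk
  obtain ⟨c1, c2, c4, c5, c6, c7⟩ := he1 e hk
  simp only [loE, hiE]
  obtain ⟨p, hp⟩ : ∃ p : ℝ, p = 2 ^ e := ⟨_, rfl⟩
  obtain ⟨R, hR⟩ : ∃ R : ℝ, R = rE e := ⟨_, rfl⟩
  have hp1 : 1 ≤ p := by rw [hp]; exact one_le_pow₀ one_le_two
  have hR10 : 10 ≤ R := by rw [hR]; exact rE_ge
  have hR1 : 1 ≤ R := by linarith
  have hE3 : (3 : ℝ) ≤ e := by exact_mod_cast he3
  have hI : (0 : ℝ) ≤ i := Nat.cast_nonneg i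
  have c2' : 2 * (i : ℝ) + 1 ≤ e := by exact_mod_cast c2
  obtain ⟨y, hy⟩ : ∃ y : ℝ, y = p * e := ⟨_, rfl⟩
  have hyE : (e : ℝ) ≤ y := by rw [hy]; nlinarith
  have hy1 : 1 ≤ y := by linarith
  have hy0 : 0 < y := by linarith
  have ha : aE i e = p * (2 * (e : ℝ) - 2 * i - 1 / 2) := by rw [hp]; rfl
  have hb : bE e = p * (2 * (e : ℝ) + 1 / 2) := by rw [hp]; rfl
  have hab : aE i e < bE e := by rw [ha, hb]; nlinarith
  have hya : y ≤ aE i e := by rw [ha, hy]; nlinarith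
  rw [← hR] at c7
  have hw0 : 0 < R ^ 6 / e := by positivity
  have hR36 : R ^ 3 ≤ R ^ 6 := pow_le_pow_right₀ hR1 (by norm_num)
  have hR16 : R ≤ R ^ 6 := le_self_pow₀ hR1 (by norm_num)
  have hR3 : 1 ≤ R ^ 3 := one_le_pow₀ hR1
  have ida : ⇑ρ =ᶠ[𝓝 (aE i e)] id := by
    have hz := rz_le he3
    rw [← hp] at hz
    have hn : ((2 * e - 2 * i : ℕ) : ℝ) = 2 * (e : ℝ) - 2 * i := by
      rw [Nat.cast_sub (by omega)]; push_cast; ring
    filter_upwards [Ioo_mem_nhds (show aE i e - p / 4 < aE i e by linarith)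
      (show aE i e < aE i e + p / 4 by linarith)] with x hx
    refine r2 e (2 * e - 2 * i) c1 (by omega) (by omega) x ?_ ?_
    · rw [hn, ← hp]; have := hx.1; rw [ha] at this; linarith
    · rw [hn, ← hp]; have := hx.2; rw [ha] at this; linarith
  have idb : ⇑ρ =ᶠ[𝓝 (bE e)] id := by
    have hz := rz_le (e := e + 1) (by omega)
    rw [pow_succ, ← hp] at hz
    filter_upwards [Ioo_mem_nhds (show bE e - p / 4 < bE e by linarith)
      (show bE e < bE e + p / 4 by linarith)] with x hx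
    refine r2 (e + 1) (e + 1) (by omega) le_rfl (by omega) x ?_ ?_
    · rw [pow_succ, ← hp]; have := hx.1; rw [hb] at this; push_cast; linarith
    · rw [pow_succ, ← hp]; have := hx.2; rw [hb] at this; push_cast; linarith
  obtain ⟨u, ug, us, uin, uout⟩ := hC ρ _ _ hρ hab ida idb
  have hout : ∀ x, x ∉ Icc (aE i e) (bE e) → x ≤ aE i e ∨ bE e ≤ x := by
    intro x hx
    rw [mem_Icc, not_and_or, not_le, not_le] at hx
    exact hx.imp le_of_lt le_of_lt
  obtain ⟨l, hl⟩ : ∃ l : ℕ, l = ⌈(2 * (i : ℝ) + 1) * p * R ^ 3⌉₊ + 4 := ⟨_, rfl⟩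
  have hpR : 1 ≤ p * R ^ 3 := one_le_mul_of_one_le_of_one_le hp1 hR3
  have hl1 : (2 * (i : ℝ) + 1) * p * R ^ 3 + 4 ≤ l := by
    rw [hl]; push_cast
    linarith [Nat.le_ceil ((2 * (i : ℝ) + 1) * p * R ^ 3)]
  have hl2 : (l : ℝ) ≤ (2 * i + 6) * p * R ^ 3 := by
    rw [hl]; push_cast
    have := Nat.ceil_lt_add_one (show 0 ≤ (2 * (i : ℝ) + 1) * p * R ^ 3 by positivity)
    nlinarith
  have hl0 : (0 : ℝ) ≤ l := Nat.cast_nonneg l
  have hly : l * C / y ≤ (2 * i + 6) * C * (R ^ 3 / e) := by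
    calc l * C / y ≤ (2 * i + 6) * p * R ^ 3 * C / y := by gcongr
      _ = _ := by rw [hy]; field_simp
  have hs0 : 0 < y ^ (3 / 4 : ℝ) := by positivity
  have hM0 : ∀ x ∈ Icc (aE i e) (bE e), C * x ^ (-19 / 5 : ℝ) ≤ C * y ^ (-19 / 5 : ℝ) :=
    fun x hx => mul_le_mul_of_nonneg_left
      (Real.rpow_le_rpow_of_nonpos hy0 (hya.trans hx.1) (by norm_num)) hC0.le
  have h8 : (8 : ℝ) ^ e = p ^ 3 := by
    rw [hp, ← pow_mul, mul_comm, pow_mul]; norm_num
  obtain ⟨T, hT⟩ : ∃ T : Finset ℝ, T = (Finset.Icc (2 * (e : ℤ) - 2 * i) (2 * e)).image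
    fun m : ℤ => p * m := ⟨_, rfl⟩
  have hTc : (T.card : ℝ) ≤ 2 * i + 1 := by
    have h1 : T.card ≤ 2 * i + 1 := by
      rw [hT]
      refine Finset.card_image_le.trans ?_
      rw [Int.card_Icc]
      omega
    exact_mod_cast h1
  have hr : C * p / (e : ℝ) ^ 14 < p / 2 := by
    have h1 : (e : ℝ) ≤ (e : ℝ) ^ 14 := le_self_pow₀ (by linarith) (by norm_num)
    rw [div_lt_div_iff₀ (by positivity) two_pos]
    nlinarith
  have H : Hyp K u (aE i e) (bE e) (y ^ (3 / 4 : ℝ)) (C * y ^ (-5 / 4 : ℝ)) (C / y) (1 / R ^ 3) l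
      (C * y ^ (-19 / 5 : ℝ)) (C * (e : ℝ) ^ 11 / p ^ 3) (C * p / (e : ℝ) ^ 14) T := by
    refine ⟨ug, us, hab.le, by positivity, ?_, by positivity, fun x => ?_, fun x => ?_, ?_, ?_, ?_,
      by positivity, by positivity, by positivity, fun x => ?_, fun x hx => ?_⟩
    · exact ((div_le_one (by positivity)).mpr hR3).trans (Real.one_le_rpow hy1 (by norm_num))
    · by_cases hx : x ∈ Icc (aE i e) (bE e)
      · have hyx := hya.trans hx.1
        refine Bd_congr (uin x hx) (Bd_mono (r1 x (by linarith)).2 hs0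
          (Real.rpow_le_rpow hy0.le hyx (by norm_num)) ?_)
        exact mul_le_mul_of_nonneg_left
          (Real.rpow_le_rpow_of_nonpos hy0 hyx (by norm_num)) hC0.le
      · exact Bd_congr (uout x (hout x hx)) (Bd_id hs0 (by positivity))
    · by_cases hx : x ∈ Icc (aE i e) (bE e)
      · have hyx := hya.trans hx.1
        rw [(uin x hx).eq_of_nhds]
        exact (r1 x (by linarith)).1.trans (div_le_div_of_nonneg_left hC0.le hy0 hyx)
      · rw [us x (hout x hx), sub_self, abs_zero]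
        positivity
    · refine le_trans (le_of_eq ?_) hl1
      rw [ha, hb]
      field_simp
      ring
    · have e1 : y ^ (-5 / 4 : ℝ) ≤ 1 / y := by
        rw [one_div, ← Real.rpow_neg_one]
        exact Real.rpow_le_rpow_of_exponent_le hy1 (by norm_num)
      calc K * l * (C * y ^ (-5 / 4 : ℝ)) ≤ K * l * (C * (1 / y)) := by gcongr
        _ = K * (l * C / y) := by ring
        _ ≤ (K + 4) * ((2 * i + 6) * (C + 1) * (R ^ 6 / e)) := by
          refine mul_le_mul (by linarith) (hly.trans ?_) (by positivity) (by linarith)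
          gcongr
          linarith
        _ ≤ 1 := by linarith
    · rw [le_div_iff₀ (by positivity)]
      calc 4 * l * (C / y) * R ^ 3 = 4 * (l * C / y) * R ^ 3 := by ring
        _ ≤ 4 * ((2 * i + 6) * C * (R ^ 3 / e)) * R ^ 3 := by gcongr
        _ = 4 * ((2 * i + 6) * C * (R ^ 6 / e)) := by ring
        _ ≤ (K + 4) * ((2 * i + 6) * (C + 1) * (R ^ 6 / e)) := by
          gcongr <;> linarith
        _ ≤ 1 := by linarith
    · by_cases hx : x ∈ Icc (aE i e) (bE e)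
      · rw [D_congr (uin x hx), ← h8]
        exact (r4 e c1 x hx).1.trans (add_le_add (hM0 x hx) le_rfl)
      · rw [D_congr (uout x (hout x hx)), D_id 0, abs_zero]
        positivity
    · by_cases hx' : x ∈ Icc (aE i e) (bE e)
      · rw [D_congr (uin x hx')]
        refine ((r4 e c1 x hx').2 fun m => ?_).trans (hM0 x hx')
        rw [← hp]
        by_cases hm : m ∈ Finset.Icc (2 * (e : ℤ) - 2 * i) (2 * e)
        · exact hx _ (hT ▸ Finset.mem_image_of_mem _ hm)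
        · rw [Finset.mem_Icc, not_and_or, not_le, not_le] at hm
          refine hr.trans_le ?_
          have h1 := hx'.1
          have h2 := hx'.2
          rw [ha] at h1
          rw [hb] at h2
          rcases hm with hm | hm
          · have : (m : ℝ) + 1 ≤ 2 * e - 2 * i := by exact_mod_cast hm
            refine le_trans ?_ (le_abs_self _)
            nlinarith
          · have : 2 * (e : ℝ) + 1 ≤ m := by exact_mod_cast hm
            refine le_trans ?_ (neg_le_abs _)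
            nlinarith
      · rw [D_congr (uout x (hout x hx')), D_id 0, abs_zero]
        positivity
  have hKl : K * (1 / R ^ 3) ≤ 2 * y / R := by
    rw [mul_one_div]
    exact div_le_div₀ (by positivity) (by linarith) (by linarith) (le_self_pow₀ hR1 (by norm_num))
  obtain ⟨P1, Q1, P2, Q2, hu, hf⟩ := hP _ _ _ _ _ _ _ _ _ _ _ _ _ H hKl
  have hiR : (2 * (i : ℝ) + 1) * R ≤ e := by
    have h1 : (2 * (i : ℝ) + 1) * (R ^ 6 / e) ≤ 1 := by
      refine le_trans (mul_le_mul_of_nonneg_right ?_ hw0.le) c7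
      calc 2 * (i : ℝ) + 1 ≤ 1 * (2 * i + 6) * 1 := by linarith
        _ ≤ _ := by gcongr <;> linarith
    rw [← mul_div_assoc, div_le_one (by positivity)] at h1
    exact (mul_le_mul_of_nonneg_left hR16 (by positivity)).trans h1
  have hyR : p * (2 * (i : ℝ) + 1) ≤ y / R := by
    rw [le_div_iff₀ (by positivity), hy, mul_assoc]
    exact mul_le_mul_of_nonneg_left hiR (by positivity)
  have hyR0 : 0 < y / R := by positivity
  have ht : (2 : ℝ) ^ (e + 1) * e = 2 * y := by rw [pow_succ, ← hp, hy]; ring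
  rw [ht, ← hR]
  have lo0 : 0 < 2 * y * (1 - 2 / R) := by
    have : 2 / R < 1 := by rw [div_lt_one (by positivity)]; linarith
    have : 0 < 1 - 2 / R := by linarith
    positivity
  have lo1 : 2 * y * (1 - 2 / R) ≤ 2 * y :=
    mul_le_of_le_one_right (by positivity) (by have : 0 < 2 / R := by positivity
                                               linarith)
  refine ⟨P1, Q1, P2, Q2, fun f hf' => ?_, fun x => ?_⟩
  · obtain ⟨g1, g2, g3⟩ := hf f hf'
    have e2 : 2 * y / R = 2 * (y / R) := by ring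
    have s1 : 2 * y * (1 - 2 / R) ≤ aE i e - 2 * y / R := by
      have e1 : 2 * y * (1 - 2 / R) = 2 * y - 4 * (y / R) := by ring
      have e3 : aE i e = 2 * y - p * (2 * (i : ℝ) + 1) + p / 2 := by rw [ha, hy]; ring
      rw [e1, e2, e3]
      linarith
    have s2 : bE e + 3 * (2 * y / R) ≤ 2 * y * (1 + 4 / R) := by
      have e1 : 2 * y * (1 + 4 / R) = 2 * y + 8 * (y / R) := by ring
      have e3 : bE e = 2 * y + p / 2 := by rw [hb, hy]; ring
      have e4 : p ≤ p * (2 * (i : ℝ) + 1) := le_mul_of_one_le_right (by linarith) (by linarith)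
      rw [e1, e2, e3]
      linarith
    refine ⟨g1, fun x hx => g2 x (hx.imp (fun h => h.trans s1) (fun h => s2.trans h)),
      fun x => (g3 x).trans ?_⟩
    rw [le_div_iff₀ (by positivity)]
    have := size_bound (K := K) (by linarith) hC0 hI hp1 (by linarith) hR1 hy hl0 hl2
      (Nat.cast_nonneg T.card) hTc
    unfold del
    rw [← hR, ← hp]
    refine le_trans ?_ this
    unfold Om
    have hK0 : 0 ≤ K := by linarith
    exact mul_le_mul_of_nonneg_left (pow_le_pow_left₀ lo0.le lo1 2) (by positivity)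
  · rw [← hu]
    exact ⟨fun hx => (uin x hx).eq_of_nhds, fun hx => us x (hout x hx)⟩

end Exc452

open Exc452 in
theorem exc (hP : PerfStmt) (hC : CutStmt) : ExcStmt := by
  intro i ρ h
  obtain ⟨δ, e1, hδ, H⟩ := pointwise hP hC i ρ h
  have H' : ∀ k : IE, ∃ P1 Q1 P2 Q2 : Pm,
      (∀ f ∈ [P1, Q1, P2, Q2], (G2 f ∧ Supp f (loE k) (hiE k)) ∧
        (e1 ≤ k.1 → ∀ x, |D 2 f x| ≤ δ k.1 / loE k ^ 2)) ∧
      (e1 ≤ k.1 → ∀ x : ℝ, (x ∈ Icc (aE i k.1) (bE k.1) → (cm P1 Q1 * cm P2 Q2) x = ρ x) ∧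
        (x ∉ Icc (aE i k.1) (bE k.1) → (cm P1 Q1 * cm P2 Q2) x = x)) := by
    intro k
    by_cases hk : e1 ≤ k.1
    · obtain ⟨P1, Q1, P2, Q2, h1, h2⟩ := H k hk
      exact ⟨P1, Q1, P2, Q2, fun f hf => ⟨⟨(h1 f hf).1, (h1 f hf).2.1⟩, fun _ => (h1 f hf).2.2⟩,
        fun _ => h2⟩
    · refine ⟨1, 1, 1, 1, fun f hf => ⟨?_, fun h => absurd h hk⟩, fun h => absurd h hk⟩
      have : f = 1 := by simpa using hf
      subst this
      exact ⟨⟨contDiff_id, strictMono_id⟩, fun _ _ => rfl⟩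
  choose P1 Q1 P2 Q2 h1 h2 using H'
  have sm : ∀ P : IE → Pm, (∀ k, P k ∈ [P1 k, Q1 k, P2 k, Q2 k]) → Sm loE hiE P := by
    intro P hPk
    refine ⟨fun k => (h1 k _ (hPk k)).1, fun ε hε => ?_⟩
    obtain ⟨e2, he2⟩ := eventually_atTop.mp (hδ.eventually (ge_mem_nhds hε))
    obtain ⟨R, hR⟩ := big (max e1 e2)
    refine ⟨R, fun k hk x => ?_⟩
    have := hR k hk
    exact ((h1 k _ (hPk k)).2 (le_of_max_le_left this) x).trans
      (div_le_div_of_nonneg_right (he2 _ (le_of_max_le_right this)) (sq_nonneg _))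
  obtain ⟨R, hR⟩ := big e1
  exact ⟨P1, Q1, P2, Q2, sm _ (by simp), sm _ (by simp), sm _ (by simp), sm _ (by simp), R,
    fun k hk => h2 k (hR k hk)⟩

end Pool.Agent.H113Z.Dist
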