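import Pool.Agent.Helper418.FEDefs

set_option autoImplicit false

open MeasureTheory
open scoped ENNReal

namespace Pool.Agent.H452Z.Fj

open Pool.Agent.Helper418.FE

/-- `N` is the norm on the Hardy space `H^p` of the operator `f ↦ f - K * f`, that is, the least
constant `c ≥ 0` with `‖f - K * f‖_p ≤ c ‖f‖_p` for all `f ∈ L^p` whose Fourier coefficients of
negative index vanish. -/
def IsNormOnHardy (K : Circ → ℂ) (p : ℝ≥0∞) (N : ℝ) : Prop :=
  IsLeast {c : ℝ | 0 ≤ c ∧ ∀ f : Circ → ℂ, MemLp f p μ →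
    (∀ k : ℤ, k < 0 → fourierCoeff f k = 0) →
    eLpNorm (fun x => f x - conv K f x) p μ ≤ ENNReal.ofReal c * eLpNorm f p μ} N

end Pool.Agent.H452Z.Fj
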