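import Pool.Agent.H452Z.HpOne

set_option autoImplicit false

open MeasureTheory AddCircle Filter Topology Metric
open scoped ENNReal Real ComplexConjugate goldenRatio

namespace Pool.Agent.H452Z.Bcap

lemma norm_four (z : ℂ) : ‖z‖ ^ 4 = (z.re ^ 2 + z.im ^ 2) ^ 2 := by
  rw [show (4 : ℕ) = 2 * 2 from rfl, pow_mul, ← Complex.normSq_eq_norm_sq, Complex.normSq_apply]
  ring

lemma sos {A : ℝ} (hA : A ^ 2 = A + 1) (a g : ℂ) :
    A * ‖g + a‖ ^ 4 - ‖g‖ ^ 4 -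
      ((4 * A ^ 3 * ‖a‖ ^ 2 : ℝ) * (g * conj a) - (2 * A ^ 2 : ℝ) * (g * conj a) ^ 2).re =
      (A - 1) * (‖g‖ ^ 2 + 2 * A ^ 2 * (g * conj a).re - A * ‖a‖ ^ 2) ^ 2 := by
  rw [norm_four, norm_four, Complex.sub_re, Complex.re_ofReal_mul, Complex.re_ofReal_mul,
    ← Complex.normSq_eq_norm_sq, ← Complex.normSq_eq_norm_sq, Complex.normSq_apply,
    Complex.normSq_apply, sq (g * conj a)]
  simp only [Complex.mul_re, Complex.mul_im, Complex.add_re, Complex.add_im, Complex.conj_re,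
    Complex.conj_im]
  set x := g.re * a.re + g.im * a.im with hx
  set ρ := g.re ^ 2 + g.im ^ 2 with hρ
  set s := a.re ^ 2 + a.im ^ 2 with hs
  have key : A * (ρ + 2 * x + s) ^ 2 - ρ ^ 2 - (4 * A ^ 3 * s * x - 2 * A ^ 2 * (2 * x ^ 2 - ρ * s)) =
      (A - 1) * (ρ + 2 * A ^ 2 * x - A * s) ^ 2 := by
    linear_combination (-4 * A * ρ * x - 4 * A ^ 3 * x ^ 2 - 4 * A * x ^ 2 + 4 * A ^ 2 * s * x
      - 4 * A * s * x - A * s ^ 2) * hA
  rw [hx, hρ, hs] at key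
  linear_combination key

lemma four_int {A : ℝ} (hA : A ^ 2 = A + 1) {g : ℂ → ℂ} (hg : DiffContOnCl ℂ g (ball 0 1))
    (h0 : g 0 = 0) (a : ℂ) :
    A * ∫ x, ‖g (zc x) + a‖ ^ 4 ∂mu - ∫ x, ‖g (zc x)‖ ^ 4 ∂mu =
      ∫ x, (A - 1) * (‖g (zc x)‖ ^ 2 + 2 * A ^ 2 * (g (zc x) * conj a).re - A * ‖a‖ ^ 2) ^ 2
        ∂mu := by
  have cg := cont_bd hg
  have h1 : DiffContOnCl ℂ (fun w => g w * conj a) (ball 0 1) := dmul hg diffContOnCl_const
  have h2 : DiffContOnCl ℂ (fun w => ((4 * A ^ 3 * ‖a‖ ^ 2 : ℝ) : ℂ) * (g w * conj a) -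
      ((2 * A ^ 2 : ℝ) : ℂ) * (g w * conj a) ^ 2) (ball 0 1) := by
    simp_rw [sq (g _ * conj a)]
    exact (dmul diffContOnCl_const h1).sub (dmul diffContOnCl_const (dmul h1 h1))
  have h3 := integral_re (𝕜 := ℂ) (μ := mu) (int_cont (cont_bd h2))
  rw [mean h2] at h3
  simp only [h0, zero_mul, mul_zero, ne_eq, OfNat.ofNat_ne_zero, not_false_eq_true, zero_pow,
    sub_zero, map_zero, RCLike.re_to_complex] at h3
  simp_rw [← sos hA]
  have i1 : Integrable (fun x => A * ‖g (zc x) + a‖ ^ 4) mu :=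
    (int_cont ((cg.add continuous_const).norm.pow 4)).const_mul _
  have i2 : Integrable (fun x => ‖g (zc x)‖ ^ 4) mu := int_cont (cg.norm.pow 4)
  have i3 : Integrable (fun x => A * ‖g (zc x) + a‖ ^ 4 - ‖g (zc x)‖ ^ 4) mu := i1.sub i2
  have i4 : Integrable (fun x => (((4 * A ^ 3 * ‖a‖ ^ 2 : ℝ) : ℂ) * (g (zc x) * conj a) -
      ((2 * A ^ 2 : ℝ) : ℂ) * (g (zc x) * conj a) ^ 2).re) mu :=
    int_cont (Complex.continuous_re.comp (cont_bd h2))
  rw [integral_sub i3 i4, integral_sub i1 i2, integral_const_mul, h3, sub_zero]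

instance factFour : Fact ((1 : ℝ≥0∞) ≤ 4) := ⟨by norm_num⟩

lemma root_pow : (φ ^ ((1 : ℝ) / 4)) ^ (4 : ℝ) = φ := by
  rw [← Real.rpow_mul Real.goldenRatio_pos.le]
  norm_num

lemma K0_four_le : ‖1 - K0 4‖ ≤ φ ^ ((1 : ℝ) / 4) := by
  have hpos : 0 ≤ φ ^ ((1 : ℝ) / 4) := Real.rpow_nonneg Real.goldenRatio_pos.le _
  refine K0_le ENNReal.ofNat_ne_top hpos fun c => ?_
  rw [lc_eq, lc_eq, Submodule.coe_norm, Submodule.coe_norm,
    coe_sum_eH 4 c.support c (fun k => k * 1),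
    coe_sum_eH 4 (c.erase 0).support (c.erase 0) (fun k => k * 1)]
  refine le_of_int ENNReal.ofNat_ne_top hpos ?_
  simp_rw [sum_apply']
  rw [ENNReal.toReal_ofNat, root_pow]
  simp only [mul_one, zpow_natCast, Real.rpow_ofNat]
  have e : ∀ w : ℂ, ∑ k ∈ c.support, c k * w ^ k =
      ∑ k ∈ (c.erase 0).support, (c.erase 0) k * w ^ k + c 0 := by
    intro w
    have h1 := congrArg (Finsupp.linearCombination ℂ fun k => w ^ k)
      (Finsupp.single_add_erase 0 c)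
    rw [map_add, Finsupp.linearCombination_single] at h1
    simp only [pow_zero, smul_eq_mul, mul_one, Finsupp.linearCombination_apply,
      Finsupp.sum] at h1
    rw [add_comm]
    exact h1.symm
  have e0 : ∑ k ∈ (c.erase 0).support, (c.erase 0) k * (0 : ℂ) ^ k = 0 := by
    refine Finset.sum_eq_zero fun k hk => ?_
    have hk0 : k ≠ 0 := by
      rintro rfl
      simp at hk
    rw [zero_pow hk0, mul_zero]
  simp_rw [e]
  have := four_int Real.goldenRatio_sq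
    (g := fun w => ∑ k ∈ (c.erase 0).support, (c.erase 0) k * w ^ k)
    (Differentiable.diffContOnCl (by fun_prop)) e0 (c 0)
  rw [← sub_nonneg, this]
  exact integral_nonneg fun x =>
    mul_nonneg (sub_nonneg.mpr Real.one_lt_goldenRatio.le) (sq_nonneg _)

lemma le_K0_four : φ ^ ((1 : ℝ) / 4) ≤ ‖1 - K0 4‖ := by
  have hA := Real.goldenRatio_sq
  have hA0 := Real.goldenRatio_pos
  obtain ⟨R, hR⟩ : ∃ R : ℝ, R = √(φ ^ 4 + φ) := ⟨_, rfl⟩
  have hR2 : R ^ 2 = φ ^ 4 + φ := by rw [hR]; exact Real.sq_sqrt (by positivity)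
  have hR0 : 0 < R := by rw [hR]; positivity
  have r0 : 0 ≤ φ ^ 2 / R := by positivity
  have r1 : φ ^ 2 / R < 1 := by
    rw [div_lt_one hR0]
    refine lt_of_pow_lt_pow_left₀ 2 hR0.le ?_
    rw [hR2]
    nlinarith
  have hg : DiffContOnCl ℂ (fun w => (R : ℂ) * mob (φ ^ 2 / R) w - ((φ ^ 2 : ℝ) : ℂ))
      (ball 0 1) := (dmul diffContOnCl_const (dcc (mob_diff r0 r1))).sub_const _
  have g0 : (R : ℂ) * mob (φ ^ 2 / R) 0 - ((φ ^ 2 : ℝ) : ℂ) = 0 := by
    rw [mob_zero, ← Complex.ofReal_mul, mul_div_cancel₀ _ hR0.ne', sub_self]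
  have h1 := four_int hA hg g0 1
  have h2 : ∀ x, ‖(R : ℂ) * mob (φ ^ 2 / R) (zc x) - ((φ ^ 2 : ℝ) : ℂ)‖ ^ 2 +
      2 * φ ^ 2 * (((R : ℂ) * mob (φ ^ 2 / R) (zc x) - ((φ ^ 2 : ℝ) : ℂ)) * conj 1).re -
      φ * ‖(1 : ℂ)‖ ^ 2 = 0 := by
    intro x
    have hm := norm_mob r0 r1 x
    generalize mob (φ ^ 2 / R) (zc x) = u at hm
    have hu : u.re * u.re + u.im * u.im = 1 := by
      rw [← Complex.normSq_apply, Complex.normSq_eq_norm_sq, hm, one_pow]
    rw [← Complex.normSq_eq_norm_sq, Complex.normSq_apply]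
    simp only [map_one, mul_one, norm_one, Complex.sub_re, Complex.sub_im, Complex.re_ofReal_mul,
      Complex.im_ofReal_mul, Complex.ofReal_re, Complex.ofReal_im]
    linear_combination R ^ 2 * hu + hR2
  simp only [h2, ne_eq, OfNat.ofNat_ne_zero, not_false_eq_true, zero_pow, mul_zero,
    integral_zero] at h1
  have key := keyA (p := 4) ENNReal.ofNat_ne_top _ (hg.add_const 1)
  have jen := jensen' (cont_bd (hg.add_const 1)) (q := 4) (by norm_num)
  rw [mean (hg.add_const 1)] at jen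
  simp only [g0, zero_add, add_sub_cancel_right, ENNReal.toReal_ofNat, Real.rpow_ofNat, norm_one,
    one_pow] at key jen
  have h3 : φ ≤ ‖1 - K0 4‖ ^ 4 := by
    rw [sub_eq_zero] at h1
    rw [← h1] at key
    exact le_of_mul_le_mul_right key (by linarith)
  rw [← root_pow, Real.rpow_ofNat] at h3
  exact le_of_pow_le_pow_left₀ (by norm_num) (ContinuousLinearMap.opNorm_nonneg _) h3

theorem approx_four : approxConst (Hardy 4) = ENNReal.ofReal (φ ^ ((1 : ℝ) / 4)) := by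
  rw [approx_eq 4 ENNReal.ofNat_ne_top, ← ofReal_norm, le_antisymm K0_four_le le_K0_four]

end Pool.Agent.H452Z.Bcap
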