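import Pool.Agent.H452Z.FjOne
import Pool.Agent.H452Z.HpFour

set_option autoImplicit false

open MeasureTheory AddCircle Filter Topology Metric Finset Matrix
open scoped ENNReal Real ComplexConjugate goldenRatio

namespace Pool.Agent.H452Z.Bcap

section NC

variable {ι : Type} [Fintype ι] [DecidableEq ι]

/-- real part of the trace -/
noncomputable def rho (M : Matrix ι ι ℂ) : ℝ := (trace M).re

omit [DecidableEq ι] in
lemma rho_add (P R : Matrix ι ι ℂ) : rho (P + R) = rho P + rho R := by simp [rho]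

omit [DecidableEq ι] in
lemma rho_smul (s : ℝ) (P : Matrix ι ι ℂ) : rho (s • P) = s * rho P := by simp [rho]

omit [DecidableEq ι] in
lemma rho_cyc (P R : Matrix ι ι ℂ) : rho (P * R) = rho (R * P) := by
  unfold rho; rw [trace_mul_comm]

omit [DecidableEq ι] in
lemma rho_adj (P : Matrix ι ι ℂ) : rho Pᴴ = rho P := by simp [rho, trace_conjTranspose]

omit [DecidableEq ι] in
lemma rho_sq {M : Matrix ι ι ℂ} (hM : Mᴴ = M) : 0 ≤ rho (M * M) := by
  have e : rho (Mᴴ * M) = ∑ i, ∑ j, ‖M j i‖ ^ 2 := by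
    simp only [rho, trace, Matrix.diag, Matrix.mul_apply, conjTranspose_apply, Complex.re_sum, RCLike.star_def]
    refine sum_congr rfl fun i _ => sum_congr rfl fun j _ => ?_
    rw [mul_comm, Complex.mul_conj, Complex.ofReal_re, Complex.normSq_eq_norm_sq]
  rw [hM] at e
  rw [e]
  positivity

omit [DecidableEq ι] in
lemma quad (X Y Z : Matrix ι ι ℂ) (s t : ℝ) :
    rho ((X + s • Y + t • Z) * (X + s • Y + t • Z)) =
      rho (X * X) + s ^ 2 * rho (Y * Y) + t ^ 2 * rho (Z * Z) + 2 * s * rho (X * Y) +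
        2 * t * rho (X * Z) + 2 * s * t * rho (Y * Z) := by
  simp only [add_mul, mul_add, smul_mul_assoc, mul_smul_comm, rho_add, rho_smul]
  rw [rho_cyc Y X, rho_cyc Z X, rho_cyc Z Y]
  ring

/-- four-letter words -/
noncomputable def T4 (p q r s : Matrix ι ι ℂ) : ℝ := rho (pᴴ * q * (rᴴ * s))

omit [DecidableEq ι] in
lemma T4_def (p q r s : Matrix ι ι ℂ) : rho (pᴴ * q * (rᴴ * s)) = T4 p q r s := rfl

omit [DecidableEq ι] in
lemma T4_cyc (p q r s : Matrix ι ι ℂ) : T4 p q r s = T4 r s p q := rho_cyc _ _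

omit [DecidableEq ι] in
lemma T4_adj (p q r s : Matrix ι ι ℂ) : T4 p q r s = T4 s r q p := by
  unfold T4
  rw [← rho_adj]
  simp [conjTranspose_mul]

omit [DecidableEq ι] in
lemma T4_alt (p q r s : Matrix ι ι ℂ) : rho (p * qᴴ * (r * sᴴ)) = T4 s p q r := by
  unfold T4
  rw [← Matrix.mul_assoc, rho_cyc]
  simp [Matrix.mul_assoc]

omit [DecidableEq ι] in
lemma nc_sos {A : ℝ} (hA : A ^ 2 = A + 1) (hA1 : 1 ≤ A) (g a : Matrix ι ι ℂ) :
    T4 g g g g + (4 * A ^ 3 * T4 a a a g - 2 * A ^ 2 * T4 a g a g) ≤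
      A * T4 (g + a) (g + a) (g + a) (g + a) := by
  have e0 : (g + a)ᴴ * (g + a) =
      gᴴ * g + (1 : ℝ) • (gᴴ * a + aᴴ * g) + (1 : ℝ) • (aᴴ * a) := by
    simp only [conjTranspose_add, add_mul, mul_add, one_smul]
    abel
  have h0 := quad (gᴴ * g) (gᴴ * a + aᴴ * g) (aᴴ * a) 1 1
  rw [← e0] at h0
  have h1 := rho_sq (M := gᴴ * g + (A ^ 2) • (gᴴ * a + aᴴ * g) + (-A) • (aᴴ * a)) (by
    simp [conjTranspose_add, conjTranspose_mul, conjTranspose_smul, add_comm])
  have h2 := rho_sq (M := g * gᴴ + (A ^ 2) • (g * aᴴ + a * gᴴ) + (-A) • (a * aᴴ)) (by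
    simp [conjTranspose_add, conjTranspose_mul, conjTranspose_smul, add_comm])
  rw [quad] at h1 h2
  change T4 (g + a) (g + a) (g + a) (g + a) = _ at h0
  rw [h0]
  simp only [add_mul, mul_add, rho_add, T4_alt, T4_def] at h1 h2 ⊢
  have s1 : T4 g g a g = T4 g g g a := (T4_adj _ _ _ _).trans (T4_cyc _ _ _ _)
  have s2 : T4 a g g g = T4 g g g a := T4_adj _ _ _ _
  have s3 : T4 g a g a = T4 a g a g := T4_adj _ _ _ _
  have s4 : T4 a g g a = T4 g a a g := T4_cyc _ _ _ _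
  have s5 : T4 g a a a = T4 a a a g := T4_adj _ _ _ _
  have s6 : T4 a g a a = T4 a a a g := T4_cyc _ _ _ _
  have s7 : T4 a a g a = T4 a a a g := (T4_adj _ _ _ _).trans (T4_cyc _ _ _ _)
  have s8 : T4 a a g g = T4 g g a a := T4_cyc _ _ _ _
  simp only [s1, s2, s3, s4, s5, s6, s7, s8] at h1 h2 ⊢
  have h3 := mul_nonneg (sub_nonneg.mpr hA1) (add_nonneg h1 h2)
  linear_combination (1 / 2) * h3 - (1 / 2) * (-A * (A ^ 2 + 1) *
    (4 * T4 a g a g + 2 * T4 g g a a + 2 * T4 g a a g) - 2 * A * T4 a a a a - 8 * A * T4 g g g a +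
      8 * A * (A - 1) * T4 a a a g) * hA

/-- squared Euclidean norm -/
noncomputable def nsq (u : ι → ℂ) : ℝ := ∑ a, ‖u a‖ ^ 2

omit [DecidableEq ι] in
lemma star_dot_self (u : ι → ℂ) : star u ⬝ᵥ u = (nsq u : ℂ) := by
  simp only [dotProduct, nsq, Pi.star_apply, RCLike.star_def, Complex.ofReal_sum]
  refine sum_congr rfl fun a _ => ?_
  rw [mul_comm, Complex.mul_conj, Complex.normSq_eq_norm_sq]

omit [DecidableEq ι] in
lemma cs (v u : ι → ℂ) : ‖star v ⬝ᵥ u‖ ^ 2 ≤ nsq v * nsq u := by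
  refine le_trans ?_ (sum_mul_sq_le_sq_mul_sq univ (fun a => ‖v a‖) (fun a => ‖u a‖))
  refine pow_le_pow_left₀ (norm_nonneg _) ((norm_sum_le _ _).trans (le_of_eq ?_)) 2
  simp

omit [DecidableEq ι] in
lemma dot_adj (P : Matrix ι ι ℂ) (v u : ι → ℂ) :
    star v ⬝ᵥ (Pᴴ *ᵥ u) = star (P *ᵥ v) ⬝ᵥ u := by
  rw [star_mulVec, dotProduct_mulVec]

omit [DecidableEq ι] in
lemma four_le (G : Matrix ι ι ℂ) (v : ι → ℂ) {N : ℝ} (hN : 0 < N) (hv : nsq v = N) {d : ℂ}
    (hd : star v ⬝ᵥ (G *ᵥ v) = N * d) :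
    N * ‖d‖ ^ 4 ≤ (star v ⬝ᵥ ((Gᴴ * G * (Gᴴ * G)) *ᵥ v)).re := by
  have e1 : star v ⬝ᵥ ((Gᴴ * G * (Gᴴ * G)) *ᵥ v) = (nsq ((Gᴴ * G) *ᵥ v) : ℂ) := by
    rw [← star_dot_self, ← dot_adj, mulVec_mulVec]
    simp [conjTranspose_mul]
  have e2 : star v ⬝ᵥ ((Gᴴ * G) *ᵥ v) = (nsq (G *ᵥ v) : ℂ) := by
    rw [← star_dot_self, ← dot_adj, mulVec_mulVec]
  have h1 := cs v ((Gᴴ * G) *ᵥ v)
  have h2 := cs v (G *ᵥ v)
  rw [e2, hv, Complex.norm_real, Real.norm_eq_abs, sq_abs] at h1
  rw [hd, hv, norm_mul, Complex.norm_real, Real.norm_of_nonneg hN.le] at h2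
  rw [e1, Complex.ofReal_re]
  have h3 : N * ‖d‖ ^ 2 ≤ nsq (G *ᵥ v) := by
    refine le_of_mul_le_mul_left ?_ hN
    nlinarith
  have h4 := pow_le_pow_left₀ (by positivity) h3 2
  refine le_of_mul_le_mul_left ?_ hN
  nlinarith

omit [Fintype ι] [DecidableEq ι] in
/-- entrywise entire matrix functions -/
def DM (M : ℂ → Matrix ι ι ℂ) : Prop := ∀ a b, Differentiable ℂ fun w => M w a b

omit [Fintype ι] [DecidableEq ι] in
lemma DM.const (P : Matrix ι ι ℂ) : DM fun _ => P := fun _ _ => differentiable_const _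

omit [DecidableEq ι] in
lemma DM.mul {M R : ℂ → Matrix ι ι ℂ} (hM : DM M) (hR : DM R) : DM fun w => M w * R w := by
  intro a b
  simp only [Matrix.mul_apply]
  exact Differentiable.fun_sum fun k _ => (hM a k).mul (hR k b)

lemma DM.pow {M : ℂ → Matrix ι ι ℂ} (hM : DM M) (k : ℕ) : DM fun w => M w ^ k := by
  induction k with
  | zero => simpa using DM.const 1
  | succ k ih => simpa [pow_succ] using ih.mul hM

omit [DecidableEq ι] in
lemma DM.trace {M : ℂ → Matrix ι ι ℂ} (hM : DM M) : Differentiable ℂ fun w => trace (M w) := by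
  simp only [Matrix.trace, Matrix.diag]
  exact Differentiable.fun_sum fun k _ => hM k k

omit [Fintype ι] [DecidableEq ι] in
lemma DM.cont {M : ℂ → Matrix ι ι ℂ} (hM : DM M) : Continuous M :=
  continuous_matrix fun a b => (hM a b).continuous

lemma nc_int {G : ℂ → Matrix ι ι ℂ} (hG : DM G) (h0 : G 0 = 0) (a : Matrix ι ι ℂ) {N : ℕ}
    (hN : N ≠ 0) :
    ∫ x, T4 (G (zc x ^ N)) (G (zc x ^ N)) (G (zc x ^ N)) (G (zc x ^ N)) ∂mu ≤
      φ * ∫ x, T4 (G (zc x ^ N) + a) (G (zc x ^ N) + a) (G (zc x ^ N) + a) (G (zc x ^ N) + a)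
        ∂mu := by
  have cG : Continuous fun x => G (zc x ^ N) := hG.cont.comp (zc_cont.pow N)
  have cT : ∀ {p q r s : Circ → Matrix ι ι ℂ}, Continuous p → Continuous q → Continuous r →
      Continuous s → Integrable (fun x => T4 (p x) (q x) (r x) (s x)) mu :=
    fun hp hq hr hs => int_cont (Complex.continuous_re.comp
      ((hp.matrix_conjTranspose.matrix_mul hq).matrix_mul
        (hr.matrix_conjTranspose.matrix_mul hs)).matrix_trace)
  have z : ∀ {M : ℂ → Matrix ι ι ℂ}, DM M → M 0 = 0 → ∫ x, rho (M (zc x ^ N)) ∂mu = 0 := by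
    intro M hM hM0
    have hd : DiffContOnCl ℂ (fun w => trace (M (w ^ N))) (ball 0 1) :=
      (hM.trace.comp (differentiable_pow N)).diffContOnCl
    have := integral_re (𝕜 := ℂ) (μ := mu) (int_cont (cont_bd hd))
    rw [mean hd] at this
    simpa [hN, hM0, rho] using this
  have z1 : ∫ x, T4 a a a (G (zc x ^ N)) ∂mu = 0 :=
    z (M := fun w => aᴴ * a * (aᴴ * G w)) ((DM.const _).mul ((DM.const _).mul hG)) (by simp [h0])
  have z2 : ∫ x, T4 a (G (zc x ^ N)) a (G (zc x ^ N)) ∂mu = 0 :=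
    z (M := fun w => aᴴ * G w * (aᴴ * G w))
      (((DM.const _).mul hG).mul ((DM.const _).mul hG)) (by simp [h0])
  have cc : Continuous fun _ : Circ => a := continuous_const
  have i1 := cT cG cG cG cG
  have i2 := (cT cc cc cc cG).const_mul (4 * φ ^ 3)
  have i3 := (cT cc cG cc cG).const_mul (2 * φ ^ 2)
  have i4 : Integrable (fun x => 4 * φ ^ 3 * T4 a a a (G (zc x ^ N)) -
      2 * φ ^ 2 * T4 a (G (zc x ^ N)) a (G (zc x ^ N))) mu := i2.sub i3
  have cF : Continuous fun x => G (zc x ^ N) + a := cG.add cc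
  have key := integral_mono (i1.add i4) ((cT cF cF cF cF).const_mul φ) fun x =>
    nc_sos Real.goldenRatio_sq Real.one_lt_goldenRatio.le (G (zc x ^ N)) a
  simp only [Pi.add_apply] at key
  rwa [integral_add i1 i4, integral_sub i2 i3, integral_const_mul, integral_const_mul,
    integral_const_mul, z1, z2, mul_zero, mul_zero, sub_zero, add_zero] at key

end NC

/-- the eigenvector -/
noncomputable def ev (n : ℕ) (x : Circ) : Fin (n + 1) → ℂ := fun a => conj (zc x) ^ (a : ℕ)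

lemma nsq_ev (n : ℕ) (x : Circ) : nsq (ev n x) = (n : ℝ) + 1 := by
  simp [nsq, ev, norm_zc]

lemma int_trace (n : ℕ) {M : ℂ → Matrix (Fin (n + 1)) (Fin (n + 1)) ℂ} (hM : Continuous M) :
    ∫ x, (star (ev n x) ⬝ᵥ (M (zc x ^ (n + 1)) *ᵥ ev n x)).re ∂mu =
      ∫ x, rho (M (zc x ^ (n + 1))) ∂mu := by
  have cM : ∀ a b, Continuous fun x => M (zc x ^ (n + 1)) a b := fun a b =>
    (hM.comp (zc_cont.pow _)).matrix_elem a b
  have c1 : ∀ a b : Fin (n + 1), Continuous fun x =>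
      M (zc x ^ (n + 1)) a b * (zc x ^ (a : ℕ) * conj (zc x) ^ (b : ℕ)) := fun a b =>
    (cM a b).mul ((zc_cont.pow _).mul (cpow_cont _))
  have e : ∀ x, star (ev n x) ⬝ᵥ (M (zc x ^ (n + 1)) *ᵥ ev n x) =
      ∑ a, ∑ b, M (zc x ^ (n + 1)) a b * (zc x ^ (a : ℕ) * conj (zc x) ^ (b : ℕ)) := by
    intro x
    simp only [dotProduct, mulVec, ev, Pi.star_apply, RCLike.star_def, map_pow, Complex.conj_conj,
      mul_sum]
    exact sum_congr rfl fun a _ => sum_congr rfl fun b _ => by ring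
  have off : ∀ a b : Fin (n + 1), b ≠ a → ∫ x,
      M (zc x ^ (n + 1)) a b * (zc x ^ (a : ℕ) * conj (zc x) ^ (b : ℕ)) ∂mu = 0 := by
    intro a b hab
    have hω := Complex.isPrimitiveRoot_exp (n + 1) (Nat.succ_ne_zero n)
    set ω := Complex.exp (2 * π * Complex.I / (n + 1 : ℕ))
    have hn : ‖ω‖ = 1 := hω.norm'_eq_one (Nat.succ_ne_zero n)
    have h1 := rot (fun w => M (w ^ (n + 1)) a b * (w ^ (a : ℕ) * conj w ^ (b : ℕ))) hn
    have h2 : ∀ x, M ((zc x * ω) ^ (n + 1)) a b * ((zc x * ω) ^ (a : ℕ) * conj (zc x * ω) ^ (b : ℕ))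
        = (ω ^ (a : ℕ) * conj ω ^ (b : ℕ)) *
          (M (zc x ^ (n + 1)) a b * (zc x ^ (a : ℕ) * conj (zc x) ^ (b : ℕ))) := by
      intro x
      rw [mul_pow, hω.pow_eq_one, mul_one, map_mul, mul_pow, mul_pow]
      ring
    simp_rw [h2] at h1
    rw [integral_const_mul] at h1
    by_contra hne
    have h3 : ω ^ (a : ℕ) * conj ω ^ (b : ℕ) = 1 :=
      mul_right_cancel₀ hne (h1.trans (one_mul _).symm)
    have h4 : ω ^ (a : ℕ) = ω ^ (b : ℕ) := by
      have h5 : (ω * conj ω) ^ (b : ℕ) = 1 := by rw [mul_conj_one hn, one_pow]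
      rw [mul_pow] at h5
      linear_combination ω ^ (b : ℕ) * h3 - ω ^ (a : ℕ) * h5
    exact hab (Fin.ext (hω.pow_inj a.2 b.2 h4).symm)
  have c2 : Continuous fun x => ∑ a, ∑ b,
      M (zc x ^ (n + 1)) a b * (zc x ^ (a : ℕ) * conj (zc x) ^ (b : ℕ)) :=
    continuous_finsetSum _ fun a _ => continuous_finsetSum _ fun b _ => c1 a b
  have c3 : Continuous fun x => trace (M (zc x ^ (n + 1))) :=
    (hM.comp (zc_cont.pow _)).matrix_trace
  have r1 := integral_re (𝕜 := ℂ) (μ := mu) (int_cont c2)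
  have r2 := integral_re (𝕜 := ℂ) (μ := mu) (int_cont c3)
  simp_rw [e]
  refine r1.trans (Eq.trans ?_ r2.symm)
  congr 1
  simp only [Matrix.trace, Matrix.diag]
  rw [integral_finsetSum _ fun a _ => int_cont (continuous_finsetSum _ fun b _ => c1 a b),
    integral_finsetSum _ fun a _ => int_cont (cM a a)]
  refine sum_congr rfl fun a _ => ?_
  rw [integral_finsetSum _ fun b _ => int_cont (c1 a b), sum_eq_single a (fun b _ hb => off a b hb)
    (by simp)]
  congr 1
  funext x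
  rw [← mul_pow, mul_conj_one (norm_zc x), one_pow, mul_one]

/-- the cyclic shift with a corner parameter -/
noncomputable def sh (n : ℕ) (w : ℂ) : Matrix (Fin (n + 1)) (Fin (n + 1)) ℂ :=
  Matrix.of fun a b => (if (a : ℕ) = b + 1 then 1 else 0) +
    (if (a : ℕ) = 0 ∧ (b : ℕ) = n then w else 0)

lemma sh_DM (n : ℕ) : DM (sh n) := by
  intro a b
  simp only [sh, of_apply]
  split_ifs <;> fun_prop

lemma sum_fin_ite {n : ℕ} (P : Fin (n + 1) → Prop) [DecidablePred P] (f : Fin (n + 1) → ℂ)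
    (b : Fin (n + 1)) (h : ∀ c, P c ↔ c = b) : ∑ c, (if P c then f c else 0) = f b := by
  simp [h]

lemma sh_ev (n : ℕ) (x : Circ) : sh n (zc x ^ (n + 1)) *ᵥ ev n x = zc x • ev n x := by
  funext a
  simp only [mulVec, dotProduct, sh, of_apply, ev, add_mul, ite_mul, one_mul, zero_mul,
    sum_add_distrib, Pi.smul_apply, smul_eq_mul]
  rcases Nat.eq_zero_or_pos a with h | h
  · rw [sum_eq_zero (fun b _ => if_neg (by omega)), zero_add,
      sum_fin_ite _ _ (Fin.last n) (fun c => by simp [h, Fin.ext_iff]), h, Fin.val_last,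
      mul_comm, conj_pow_mul (Nat.le_add_right n 1)]
    simp
  · rw [sum_eq_zero (s := univ) (f := fun b : Fin (n + 1) =>
      if (a : ℕ) = 0 ∧ (b : ℕ) = n then zc x ^ (n + 1) * conj (zc x) ^ (b : ℕ) else 0)
      (fun b _ => if_neg (by omega)), add_zero,
      sum_fin_ite _ _ ⟨a - 1, by omega⟩ (fun c => by simp only [Fin.ext_iff]; omega)]
    have := conj_pow_mul' (k := 1) (m := a) h x
    rw [pow_one] at this
    rw [mul_comm, this]

lemma sh_ev' (n : ℕ) (x : Circ) :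
    (sh n (zc x ^ (n + 1)))ᴴ *ᵥ ev n x = conj (zc x) • ev n x := by
  funext b
  simp only [mulVec, dotProduct, sh, conjTranspose_apply, of_apply, ev, star_add,
    apply_ite (star : ℂ → ℂ), star_one, star_zero, add_mul, ite_mul, one_mul, zero_mul,
    sum_add_distrib, Pi.smul_apply, smul_eq_mul]
  rcases Nat.lt_or_ge b n with h | h
  · rw [sum_eq_zero (s := univ) (f := fun a : Fin (n + 1) =>
      if (a : ℕ) = 0 ∧ (b : ℕ) = n then star (zc x ^ (n + 1)) * conj (zc x) ^ (a : ℕ) else 0)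
      (fun a _ => if_neg (by omega)), add_zero,
      sum_fin_ite _ _ ⟨b + 1, by omega⟩ (fun c => by simp only [Fin.ext_iff])]
    rw [pow_succ']
  · have hb : (b : ℕ) = n := by omega
    rw [sum_eq_zero (fun a _ => if_neg (by omega)), zero_add,
      sum_fin_ite _ _ 0 (fun c => by simp only [Fin.ext_iff, Fin.val_zero]; omega), hb]
    simp [pow_succ']

lemma pow_ev {ι : Type} [Fintype ι] [DecidableEq ι] {S : Matrix ι ι ℂ} {v : ι → ℂ} {z : ℂ}
    (h : S *ᵥ v = z • v) (k : ℕ) : (S ^ k) *ᵥ v = z ^ k • v := by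
  induction k with
  | zero => simp
  | succ k ih => rw [pow_succ, ← mulVec_mulVec, h, mulVec_smul, ih, smul_smul, pow_succ']

lemma sh_zero_pow (n k : ℕ) (a b : Fin (n + 1)) :
    (sh n 0 ^ k) a b = if (a : ℕ) = b + k then 1 else 0 := by
  induction k generalizing b with
  | zero => simp [one_apply, Fin.ext_iff]
  | succ k ih =>
    rw [pow_succ, Matrix.mul_apply]
    simp only [ih]
    simp only [sh, of_apply, ite_self, add_zero, mul_ite, mul_one, mul_zero]
    rcases Nat.lt_or_ge b n with h | h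
    · rw [sum_fin_ite _ _ ⟨b + 1, by omega⟩ (fun c => by simp only [Fin.ext_iff])]
      simp only [add_assoc, add_comm 1 k]
    · rw [sum_eq_zero (fun c _ => if_neg (by omega)), if_neg (by omega)]

lemma sh_zero_form (n k : ℕ) (x : Circ) :
    star (ev n x) ⬝ᵥ ((sh n 0 ^ k) *ᵥ ev n x) = ((n : ℂ) + 1) * (mF n k * zc x ^ k) := by
  have hn : (n : ℂ) + 1 ≠ 0 := by exact_mod_cast Nat.succ_ne_zero n
  simp only [dotProduct, mulVec, sh_zero_pow, ev, Pi.star_apply, RCLike.star_def, map_pow,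
    Complex.conj_conj, mul_sum, ite_mul, one_mul, zero_mul, mul_ite, mul_zero]
  rw [sum_comm]
  have e : ∀ b : Fin (n + 1), ∑ a : Fin (n + 1),
      (if (a : ℕ) = b + k then zc x ^ (a : ℕ) * conj (zc x) ^ (b : ℕ) else 0) =
      if (b : ℕ) < n + 1 - k then zc x ^ k else 0 := by
    intro b
    split_ifs with h
    · rw [sum_fin_ite _ _ ⟨b + k, by omega⟩ (fun c => by simp only [Fin.ext_iff]), mul_comm,
        conj_pow_mul (Nat.le_add_right _ _), Nat.add_sub_cancel_left]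
    · exact sum_eq_zero fun a _ => if_neg (by omega)
  simp_rw [e]
  rw [Fin.sum_univ_eq_sum_range (fun b => if b < n + 1 - k then zc x ^ k else 0) (n + 1),
    ← sum_filter]
  have e2 : filter (fun b => b < n + 1 - k) (range (n + 1)) = range (n + 1 - k) := by
    ext b
    simp only [mem_filter, mem_range]
    omega
  rw [e2, sum_const, card_range, nsmul_eq_mul, mF]
  split_ifs with h
  · rw [Nat.cast_sub (by omega)]
    push_cast
    field_simp
  · rw [Nat.sub_eq_zero_of_le (by omega)]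
    simp

theorem fejer_four (n : ℕ) (c : ℕ →₀ ℂ) :
    ∫ x, ‖∑ k ∈ c.support, c k * zc x ^ k - ∑ k ∈ c.support, c k * mF n k * zc x ^ k‖ ^ 4 ∂mu ≤
      φ * ∫ x, ‖∑ k ∈ c.support, c k * zc x ^ k‖ ^ 4 ∂mu := by
  have hn : (0 : ℝ) < n + 1 := by positivity
  obtain ⟨F, hF⟩ : ∃ F : ℂ → Matrix (Fin (n + 1)) (Fin (n + 1)) ℂ,
      F = fun w => ∑ k ∈ c.support, c k • sh n w ^ k := ⟨_, rfl⟩
  have dF : DM F := by
    intro a b
    simp only [hF, Matrix.sum_apply, Matrix.smul_apply, smul_eq_mul]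
    exact Differentiable.fun_sum fun k _ => ((sh_DM n).pow k a b).const_mul _
  have dG : DM fun w => F w - F 0 := fun a b => (dF a b).sub_const _
  have key := nc_int dG (sub_self _) (F 0) (Nat.succ_ne_zero n)
  simp only [sub_add_cancel] at key
  have cT : ∀ {M : ℂ → Matrix (Fin (n + 1)) (Fin (n + 1)) ℂ}, Continuous M →
      Continuous fun w => (M w)ᴴ * M w * ((M w)ᴴ * M w) := fun h =>
    (h.matrix_conjTranspose.matrix_mul h).matrix_mul (h.matrix_conjTranspose.matrix_mul h)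
  have t1 := int_trace n (cT dG.cont)
  have t2 := int_trace n (cT dF.cont)
  unfold T4 at key
  rw [← t1, ← t2] at key
  have f1 : ∀ x, F (zc x ^ (n + 1)) *ᵥ ev n x = (∑ k ∈ c.support, c k * zc x ^ k) • ev n x := by
    intro x
    simp only [hF, sum_mulVec, smul_mulVec, pow_ev (sh_ev n x), smul_smul, sum_smul]
  have f2 : ∀ x, (F (zc x ^ (n + 1)))ᴴ *ᵥ ev n x =
      conj (∑ k ∈ c.support, c k * zc x ^ k) • ev n x := by
    intro x
    simp only [hF, conjTranspose_sum, conjTranspose_smul, conjTranspose_pow, sum_mulVec,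
      smul_mulVec, pow_ev (sh_ev' n x), smul_smul, sum_smul, map_sum, map_mul, map_pow,
      RCLike.star_def]
  have f3 : ∀ x, (star (ev n x) ⬝ᵥ (((F (zc x ^ (n + 1)))ᴴ * F (zc x ^ (n + 1)) *
      ((F (zc x ^ (n + 1)))ᴴ * F (zc x ^ (n + 1)))) *ᵥ ev n x)).re =
      ((n : ℝ) + 1) * ‖∑ k ∈ c.support, c k * zc x ^ k‖ ^ 4 := by
    intro x
    simp only [← mulVec_mulVec, f1, f2, mulVec_smul, smul_smul, dotProduct_smul, star_dot_self,
      nsq_ev, smul_eq_mul]
    generalize ∑ k ∈ c.support, c k * zc x ^ k = u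
    have : u * conj u * (u * conj u) = ((‖u‖ ^ 4 : ℝ) : ℂ) := by
      rw [Complex.mul_conj, Complex.normSq_eq_norm_sq]
      push_cast
      ring
    rw [this, ← Complex.ofReal_mul, Complex.ofReal_re, mul_comm]
  have f4 : ∀ x, star (ev n x) ⬝ᵥ ((F (zc x ^ (n + 1)) - F 0) *ᵥ ev n x) =
      (((n : ℝ) + 1 : ℝ) : ℂ) *
        (∑ k ∈ c.support, c k * zc x ^ k - ∑ k ∈ c.support, c k * mF n k * zc x ^ k) := by
    intro x
    rw [sub_mulVec, dotProduct_sub, f1, dotProduct_smul, star_dot_self, nsq_ev, mul_sub]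
    congr 1
    · rw [smul_eq_mul, mul_comm]
    · simp only [hF, sum_mulVec, smul_mulVec, dotProduct_sum, dotProduct_smul, sh_zero_form,
        smul_eq_mul, mul_sum]
      refine sum_congr rfl fun k _ => ?_
      push_cast
      ring
  simp_rw [f3] at key
  rw [integral_const_mul] at key
  refine le_of_mul_le_mul_left ?_ hn
  rw [mul_left_comm, ← integral_const_mul]
  refine le_trans ?_ key
  refine integral_mono_of_nonneg (ae_of_all _ fun x => by positivity) (int_cont ?_)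
    (ae_of_all _ fun x => four_le _ _ hn (nsq_ev n x) (f4 x))
  have cv : Continuous (ev n) := continuous_pi fun a => cpow_cont _
  exact Complex.continuous_re.comp (cv.star.dotProduct
    (((cT dG.cont).comp (zc_cont.pow _)).matrix_mulVec cv))

end Pool.Agent.H452Z.Bcap
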