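import Pool.Agent.H452Z.FjFour
import Pool.Agent.H452Z.FjDefs

set_option autoImplicit false

open MeasureTheory AddCircle Filter Topology Metric Finset
open scoped ENNReal Real ComplexConjugate goldenRatio

namespace Pool.Agent.H452Z.Bcap

open Pool.Agent.Helper418.FE (fejer poisson conv)
open Pool.Agent.H452Z.Fj

lemma isNorm_of {p : ℝ≥0∞} [Fact (1 ≤ p)] (K : Circ → ℂ) (T : Hardy p →L[ℂ] Hardy p)
    (hT : ∀ f : Hardy p, ((T f : L p) : Circ → ℂ) =ᵐ[mu] conv K ((f : L p) : Circ → ℂ)) :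
    IsNormOnHardy K p ‖1 - T‖ := by
  have key : ∀ f : Hardy p, eLpNorm (fun x => (f : L p) x - conv K (f : L p) x) p mu =
      ENNReal.ofReal ‖(1 - T) f‖ := by
    intro f
    rw [Submodule.coe_norm, Lp.norm_def, ENNReal.ofReal_toReal (Lp.eLpNorm_ne_top _)]
    refine eLpNorm_congr_ae ?_
    filter_upwards [hT f, Lp.coeFn_sub (f : L p) (T f : L p)] with x h1 h2
    rw [← h1]
    exact h2.symm
  have key2 : ∀ f : Hardy p, eLpNorm (f : L p) p mu = ENNReal.ofReal ‖f‖ := by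
    intro f
    rw [Submodule.coe_norm, Lp.norm_def, ENNReal.ofReal_toReal (Lp.eLpNorm_ne_top _)]
  constructor
  · refine ⟨ContinuousLinearMap.opNorm_nonneg _, fun f hf h0 => ?_⟩
    have e := hf.coeFn_toLp
    let g : Hardy p := ⟨hf.toLp f, fun k hk => by rw [fourierCoeff_congr_ae e]; exact h0 k hk⟩
    have e1 : eLpNorm (fun x => f x - conv K f x) p mu =
        eLpNorm (fun x => (g : L p) x - conv K (g : L p) x) p mu := by
      refine eLpNorm_congr_ae ?_
      filter_upwards [e] with x hx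
      have : conv K f x = conv K (g : L p) x := by
        refine integral_congr_ae ?_
        filter_upwards [e] with y hy
        rw [← hy]
      rw [this, ← hx]
    have e2 : eLpNorm f p mu = eLpNorm (g : L p) p mu := eLpNorm_congr_ae e.symm
    change eLpNorm (fun x => f x - conv K f x) p mu ≤ _ * eLpNorm f p mu
    rw [e1, e2, key, key2, ← ENNReal.ofReal_mul (ContinuousLinearMap.opNorm_nonneg _)]
    exact ENNReal.ofReal_le_ofReal ((1 - T).le_opNorm g)
  · rintro c ⟨hc, H⟩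
    refine ContinuousLinearMap.opNorm_le_bound _ hc fun f => ?_
    have := H (f : L p) (Lp.memLp _) f.2
    change eLpNorm (fun x => (f : L p) x - conv K (f : L p) x) p mu ≤
      _ * eLpNorm (f : L p) p mu at this
    rw [key, key2, ← ENNReal.ofReal_mul hc] at this
    exact (ENNReal.ofReal_le_ofReal_iff (mul_nonneg hc (norm_nonneg _))).mp this

lemma K0_le_compact {p : ℝ≥0∞} [Fact (1 ≤ p)] (hp : p ≠ ∞) (T : Hardy p →L[ℂ] Hardy p)
    (hT : IsCompactOperator T) (h0 : T (eH p 0) = eH p 0) : ‖1 - K0 p‖ ≤ ‖1 - T‖ := by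
  refine K0_le hp (ContinuousLinearMap.opNorm_nonneg _) fun c => ?_
  simpa [h0] using one_step hp T hT c

lemma conv_fourier {f : Circ → ℂ} (k : ℤ) (x : Circ) :
    ∫ y, fourier k (x - y) * f y ∂mu = fourierCoeff f k * fourier k x := by
  rw [fourierCoeff, ← integral_mul_const]
  congr 1
  funext y
  rw [sub_eq_add_neg, fourier_eq_zpow, fourier_eq_zpow, fourier_eq_zpow, zc_add, mul_zpow, zc_neg,
    smul_eq_mul, eq_inv_of_mul_eq_one_left (conj_zc y), inv_zpow']
  ring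

lemma int_fourier {f : Circ → ℂ} (hf : Integrable f mu) (k : ℤ) (x : Circ) :
    Integrable (fun y => fourier k (x - y) * f y) mu := by
  refine hf.bdd_mul (c := 1) ?_ (ae_of_all _ fun y => ?_)
  · exact ((fourier k).continuous.comp (continuous_const.sub continuous_id)).aestronglyMeasurable
  · rw [fourier_apply, Circle.norm_coe]

variable (p : ℝ≥0∞) [Fact (1 ≤ p)]

/-- Fejér weights -/
noncomputable def wF (n : ℕ) (k : ℤ) : ℂ := ((1 - |(k : ℝ)| / ((n : ℝ) + 1) : ℝ) : ℂ)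

/-- Fejér means on `L^p` -/
noncomputable def Fe (n : ℕ) : L p →L[ℂ] L p :=
  ∑ k ∈ Icc (-(n : ℤ)) n, wF n k • (coeff p k).smulRight (fourierLp p k)

lemma Fe_apply (n : ℕ) (f : L p) :
    Fe p n f = ∑ k ∈ Icc (-(n : ℤ)) n, (wF n k * coeff p k f) • (fourierLp p (id k) : L p) := by
  simp [Fe, mul_smul]

lemma Fe_conv (n : ℕ) (f : L p) : (Fe p n f : Circ → ℂ) =ᵐ[mu] conv (fejer n) f := by
  rw [Fe_apply, J_sum]
  filter_upwards [ContinuousMap.coeFn_toLp (p := p) (𝕜 := ℂ) mu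
    (∑ k ∈ Icc (-(n : ℤ)) n, (wF n k * coeff p k f) • fourier (id k))] with x hx
  rw [hx, sum_apply']
  unfold conv fejer
  simp_rw [sum_mul, mul_assoc]
  rw [integral_finsetSum _ fun k _ => (int_fourier (integrable_L p f) k x).const_mul _]
  refine sum_congr rfl fun k _ => ?_
  rw [integral_const_mul, conv_fourier, fourier_eq_zpow]
  rfl

lemma Fe_mem (n : ℕ) {f : L p} (hf : f ∈ Hardy p) : Fe p n f ∈ Hardy p := by
  rw [Fe_apply]
  refine Submodule.sum_mem _ fun k _ => ?_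
  rcases lt_or_ge k 0 with hk | hk
  · rw [(mem_Hardy p f).mp hf k hk, mul_zero, zero_smul]
    exact Submodule.zero_mem _
  · obtain ⟨m, rfl⟩ := Int.eq_ofNat_of_zero_le hk
    exact Submodule.smul_mem _ _ (fourier_mem p m)

lemma Fe_fourier (n j : ℕ) : Fe p n (fourierLp p (j : ℤ)) = mF n j • fourierLp p (j : ℤ) := by
  rw [Fe_apply]
  simp only [coeff_fourier, mul_ite, mul_one, mul_zero, ite_smul, zero_smul, sum_ite_eq', mem_Icc,
    id, mF]
  by_cases h : j ≤ n
  · rw [if_pos ⟨by omega, by omega⟩, if_pos h]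
    simp [wF]
  · rw [if_neg (by omega), if_neg h]

lemma Fe_compact (n : ℕ) : IsCompactOperator (Fe p n) := by
  change Fe p n ∈ compactOperator (RingHom.id ℂ) (L p) (L p)
  refine Submodule.sum_mem _ fun k _ => Submodule.smul_mem _ _ ?_
  have h := (isCompactOperator_id (E := ℂ)).comp_clm (coeff p k)
  exact h.continuous_comp (g := fun c : ℂ => c • (fourierLp p k : L p)) (by fun_prop)

/-- Fejér means on the Hardy space -/
noncomputable def FeH (n : ℕ) : Hardy p →L[ℂ] Hardy p :=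
  ((Fe p n).comp (Hardy p).subtypeL).codRestrict (Hardy p) fun f => Fe_mem p n f.2

lemma FeH_lower {p : ℝ≥0∞} [Fact (1 ≤ p)] (hp : p ≠ ∞) (n : ℕ) : ‖1 - K0 p‖ ≤ ‖1 - FeH p n‖ := by
  refine K0_le_compact hp _ (((Fe_compact p n).comp_clm (Hardy p).subtypeL).codRestrict
    (fun f => Fe_mem p n f.2) (Hardy_closed p)) (Subtype.ext ?_)
  have := Fe_fourier p n 0
  rw [mF, if_pos (Nat.zero_le n), Nat.cast_zero (R := ℂ), zero_div, sub_zero, one_smul] at this
  exact this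

lemma FeH_upper {p : ℝ≥0∞} [Fact (1 ≤ p)] (hp : p ≠ ∞) (n : ℕ) {S : ℝ} (hS : 0 ≤ S)
    (H : ∀ c : ℕ →₀ ℂ, ∫ x, ‖∑ k ∈ c.support, c k * zc x ^ k -
      ∑ k ∈ c.support, c k * mF n k * zc x ^ k‖ ^ p.toReal ∂mu ≤
      S ^ p.toReal * ∫ x, ‖∑ k ∈ c.support, c k * zc x ^ k‖ ^ p.toReal ∂mu) :
    ‖1 - FeH p n‖ ≤ S := by
  refine ContinuousLinearMap.opNorm_le_bound _ hS fun f => ?_
  have hcl : IsClosed {f : L p | ‖f - Fe p n f‖ ≤ S * ‖f‖} :=
    isClosed_le (by fun_prop) (by fun_prop)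
  refine closure_minimal (t := {f : L p | ‖f - Fe p n f‖ ≤ S * ‖f‖}) ?_ hcl (Hardy_dense hp f.2)
  intro g hg
  obtain ⟨c, rfl⟩ := Finsupp.mem_span_range_iff_exists_finsupp.mp hg
  change ‖(∑ k ∈ c.support, c k • fourierLp p (k : ℤ)) -
    Fe p n (∑ k ∈ c.support, c k • fourierLp p (k : ℤ))‖ ≤
    S * ‖∑ k ∈ c.support, c k • fourierLp p (k : ℤ)‖
  rw [map_sum]
  simp_rw [map_smul, Fe_fourier, smul_smul]
  rw [J_sum p c.support (fun k => c k * mF n k) (fun k => (k : ℤ)), J_sum, ← map_sub]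
  refine le_of_int hp hS ?_
  simp_rw [ContinuousMap.sub_apply, sum_apply', zpow_natCast]
  exact H c

lemma FeH_zero : FeH p 0 = K0 p := by
  ext1 f
  apply Subtype.ext
  change Fe p 0 f = coeff p 0 f • fourierLp p 0
  rw [Fe_apply]
  simp [wF]

lemma poisson_sum {r : ℝ} (h0 : 0 ≤ r) (h1 : r < 1) (x : Circ) :
    HasSum (fun k : ℤ => (r : ℂ) ^ k.natAbs * fourier k x) (poisson r x) := by
  have n1 : ‖(r : ℂ) * zc x‖ < 1 := by
    rwa [norm_mul, norm_zc, mul_one, Complex.norm_real, Real.norm_of_nonneg h0]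
  have n2 : ‖(r : ℂ) * conj (zc x)‖ < 1 := by
    rwa [norm_mul, Complex.norm_conj, norm_zc, mul_one, Complex.norm_real, Real.norm_of_nonneg h0]
  have s1 := hasSum_geometric_of_norm_lt_one n1
  have s2 := (hasSum_geometric_of_norm_lt_one n2).mul_left ((r : ℂ) * conj (zc x))
  have d1 : 1 - (r : ℂ) * zc x ≠ 0 := fun h => by
    rw [← sub_eq_zero.mp h, norm_one] at n1
    exact lt_irrefl _ n1
  have d2 : 1 - (r : ℂ) * conj (zc x) ≠ 0 := fun h => by
    rw [← sub_eq_zero.mp h, norm_one] at n2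
    exact lt_irrefl _ n2
  have hz := conj_zc x
  have e : poisson r x = (1 - (r : ℂ) * zc x)⁻¹ +
      (r : ℂ) * conj (zc x) * (1 - (r : ℂ) * conj (zc x))⁻¹ := by
    have e1 : (((1 + r ^ 2 - 2 * r * (zc x).re : ℝ)) : ℂ) =
        (1 - (r : ℂ) * zc x) * (1 - (r : ℂ) * conj (zc x)) := by
      push_cast
      rw [Complex.re_eq_add_conj]
      linear_combination (-(r : ℂ) ^ 2) * hz
    change (((1 - r ^ 2) / (1 + r ^ 2 - 2 * r * (zc x).re) : ℝ) : ℂ) = _
    rw [Complex.ofReal_div, e1]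
    push_cast
    field_simp
    linear_combination ((r : ℂ) ^ 2) * hz
  rw [e]
  refine HasSum.of_nat_of_neg_add_one ?_ ?_
  · simpa only [fourier_eq_zpow, mul_pow, Int.natAbs_natCast, zpow_natCast] using s1
  · have e2 : ∀ m : ℕ, (r : ℂ) ^ (-((m : ℤ) + 1)).natAbs * fourier (-((m : ℤ) + 1)) x =
        (r : ℂ) * conj (zc x) * ((r : ℂ) * conj (zc x)) ^ m := by
      intro m
      rw [fourier_eq_zpow, eq_inv_of_mul_eq_one_left hz, Int.natAbs_neg, zpow_neg]
      have : ((m : ℤ) + 1).natAbs = m + 1 := by omega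
      rw [this, ← pow_succ', mul_pow, inv_pow]
      norm_cast
    simp only [e2]
    exact s2

lemma summable_abs {r : ℝ} (h0 : 0 ≤ r) (h1 : r < 1) : Summable fun k : ℤ => r ^ k.natAbs := by
  refine Summable.of_nat_of_neg ?_ ?_
  · simpa using summable_geometric_of_lt_one h0 h1
  · simpa using summable_geometric_of_lt_one h0 h1

lemma Q_conv {r : ℝ} (h0 : 0 ≤ r) (h1 : r < 1) (f : L p) :
    (Q p r f : Circ → ℂ) =ᵐ[mu] conv (poisson r) f := by
  have hs : Summable fun k : ℤ =>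
      (((r : ℂ) ^ k.natAbs * coeff p k f) • fourier k : C(Circ, ℂ)) := by
    refine Summable.of_norm_bounded ((summable_abs h0 h1).mul_right ‖f‖) fun k => ?_
    rw [norm_smul, fourier_norm, mul_one, norm_mul, norm_pow, Complex.norm_real,
      Real.norm_of_nonneg h0]
    refine mul_le_mul_of_nonneg_left ?_ (pow_nonneg h0 _)
    exact (fc_bound p k f).trans (one_mul _).le
  obtain ⟨g, hg⟩ := hs
  have e : Q p r f = J p g := by
    refine (hasSum_Q_apply p h0 h1 f).unique ?_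
    simpa using hg.mapL (J p)
  rw [e]
  filter_upwards [ContinuousMap.coeFn_toLp (p := p) (𝕜 := ℂ) mu g] with x hx
  rw [hx]
  have a1 : HasSum (fun k : ℤ => (r : ℂ) ^ k.natAbs * coeff p k f * fourier k x) (g x) := by
    simpa using hg.mapL (ContinuousMap.evalCLM ℂ x)
  have hi : ∀ k : ℤ, Integrable (fun y => (r : ℂ) ^ k.natAbs * (fourier k (x - y) * f y)) mu :=
    fun k => (int_fourier (integrable_L p f) k x).const_mul _
  have a2 := hasSum_integral_of_summable_integral_norm hi (by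
    refine ((summable_abs h0 h1).mul_right (∫ y, ‖f y‖ ∂mu)).congr fun k => ?_
    rw [← integral_const_mul]
    congr 1
    funext y
    rw [norm_mul, norm_mul, fourier_apply, Circle.norm_coe, one_mul, norm_pow, Complex.norm_real,
      Real.norm_of_nonneg h0])
  simp_rw [integral_const_mul, conv_fourier, ← mul_assoc] at a2
  refine (a1.unique a2).trans ?_
  unfold conv
  congr 1
  funext y
  exact ((poisson_sum h0 h1 (x - y)).mul_right _).tsum_eq

/-- Poisson means on the Hardy space -/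
noncomputable def QH {r : ℝ} (h0 : 0 ≤ r) (h1 : r < 1) : Hardy p →L[ℂ] Hardy p :=
  ((Q p r).comp (Hardy p).subtypeL).codRestrict (Hardy p) fun f => Q_mem_Hardy p h0 h1 f.2

lemma QH_norm {p : ℝ≥0∞} [Fact (1 ≤ p)] (hp : p ≠ ∞) {r : ℝ} (h0 : 0 ≤ r) (h1 : r < 1) :
    ‖1 - QH p h0 h1‖ = ‖1 - K0 p‖ := by
  apply le_antisymm
  · refine ContinuousLinearMap.opNorm_le_bound _ (ContinuousLinearMap.opNorm_nonneg _) fun f => ?_
    have := Q_bound hp (Real.sqrt_nonneg r) ((Real.sqrt_lt' one_pos).mpr (by linarith)) f.2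
    rw [Real.sq_sqrt h0] at this
    exact this
  · refine K0_le_compact hp _ (((Q_compact p h0 h1).comp_clm (Hardy p).subtypeL).codRestrict
      (fun f => Q_mem_Hardy p h0 h1 f.2) (Hardy_closed p)) (Subtype.ext ?_)
    have := Q_fourier p h0 h1 0
    rw [Int.natAbs_zero, pow_zero, one_smul] at this
    exact this

lemma fejer_norm (n : ℕ) : IsNormOnHardy (fejer n) p ‖1 - FeH p n‖ :=
  isNorm_of _ _ fun f => Fe_conv p n f

lemma poisson_norm {p : ℝ≥0∞} [Fact (1 ≤ p)] (hp : p ≠ ∞) {r : ℝ} (h0 : 0 ≤ r) (h1 : r < 1) :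
    IsNormOnHardy (poisson r) p ‖1 - K0 p‖ := by
  rw [← QH_norm hp h0 h1]
  exact isNorm_of _ _ fun f => Q_conv p h0 h1 f

lemma FeH_one (n : ℕ) : ‖1 - FeH 1 n‖ = 2 / √3 := by
  refine le_antisymm (FeH_upper ENNReal.one_ne_top n (by positivity) fun c => ?_)
    (le_K0_one.trans (FeH_lower ENNReal.one_ne_top n))
  simpa using fejer_one n c

lemma FeH_four (n : ℕ) : ‖1 - FeH 4 n‖ = φ ^ ((1 : ℝ) / 4) := by
  refine le_antisymm (FeH_upper ENNReal.ofNat_ne_top n
    (Real.rpow_nonneg Real.goldenRatio_pos.le _) fun c => ?_)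
    (le_K0_four.trans (FeH_lower ENNReal.ofNat_ne_top n))
  rw [ENNReal.toReal_ofNat, root_pow]
  simpa using fejer_four n c

theorem fj_main :
    (∀ n : ℕ, IsNormOnHardy (fejer n) 1 (2 / √3) ∧
      IsNormOnHardy (fejer n) 4 (((1 + √5) / 2) ^ ((1 : ℝ) / 4))) ∧
    (∀ r : ℝ, 0 ≤ r → r < 1 → IsNormOnHardy (poisson r) 1 (2 / √3) ∧
      IsNormOnHardy (poisson r) 4 (((1 + √5) / 2) ^ ((1 : ℝ) / 4))) ∧
    (∀ p : ℝ≥0∞, 1 ≤ p → p ≠ ∞ → ∃ c : ℝ, IsNormOnHardy (fejer 0) p c ∧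
      ∀ r : ℝ, 0 ≤ r → r < 1 → IsNormOnHardy (poisson r) p c) := by
  refine ⟨fun n => ⟨?_, ?_⟩, fun r h0 h1 => ⟨?_, ?_⟩, fun p h1 hp => ?_⟩
  · rw [← FeH_one n]; exact fejer_norm 1 n
  · have := fejer_norm 4 n
    rwa [FeH_four n] at this
  · rw [← le_antisymm K0_one_le le_K0_one]
    exact poisson_norm ENNReal.one_ne_top h0 h1
  · have := poisson_norm (p := 4) ENNReal.ofNat_ne_top h0 h1
    rwa [le_antisymm K0_four_le le_K0_four] at this
  · have : Fact (1 ≤ p) := ⟨h1⟩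
    refine ⟨‖1 - K0 p‖, ?_, fun r h0 h1 => poisson_norm hp h0 h1⟩
    rw [← FeH_zero]
    exact fejer_norm p 0

end Pool.Agent.H452Z.Bcap
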