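import Pool.Agent.H452Z.HpOne

set_option autoImplicit false

open MeasureTheory AddCircle Filter Topology Metric Finset
open scoped ENNReal Real ComplexConjugate

namespace Pool.Agent.H452Z.Bcap

lemma sq_add {g a : Circ → ℂ} (cg : Continuous g) (ca : Continuous a) :
    ∫ x, ‖g x + a x‖ ^ 2 ∂mu =
      ∫ x, ‖g x‖ ^ 2 ∂mu + ∫ x, ‖a x‖ ^ 2 ∂mu + 2 * ∫ x, (g x * conj (a x)).re ∂mu := by
  simp_rw [← Complex.normSq_eq_norm_sq, Complex.normSq_add]
  have i1 : Integrable (fun x => Complex.normSq (g x)) mu :=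
    int_cont (Complex.continuous_normSq.comp cg)
  have i2 : Integrable (fun x => Complex.normSq (a x)) mu :=
    int_cont (Complex.continuous_normSq.comp ca)
  have i3 : Integrable (fun x => 2 * (g x * conj (a x)).re) mu :=
    int_cont (continuous_const.mul
      (Complex.continuous_re.comp (cg.mul (Complex.continuous_conj.comp ca))))
  have i4 : Integrable (fun x => Complex.normSq (g x) + Complex.normSq (a x)) mu := i1.add i2
  rw [integral_add i4 i3, integral_add i1 i2, integral_const_mul]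

lemma orth_ineq {g h a b : Circ → ℂ} (cg : Continuous g) (ch : Continuous h) (ca : Continuous a)
    (cb : Continuous b) (h2 : ∀ x, ‖g x‖ = ‖h x‖)
    (ha : ∫ x, (g x * conj (a x)).re ∂mu = ∫ x, ‖a x‖ ^ 2 ∂mu)
    (hb : ∫ x, (h x * conj (b x)).re ∂mu = ∫ x, ‖b x‖ ^ 2 ∂mu) :
    ∫ x, ‖g x * h x - a x * b x‖ ∂mu ≤ 2 / √3 * ∫ x, ‖g x * h x‖ ∂mu := by
  have hs : (0 : ℝ) < √3 := by positivity
  have hs2 : (√3 : ℝ) ^ 2 = 3 := Real.sq_sqrt (by norm_num)
  set s : ℝ := √3
  have Ng : ∫ x, ‖g x * h x‖ ∂mu = ∫ x, ‖g x‖ ^ 2 ∂mu := by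
    simp_rw [norm_mul, ← h2, sq]
  have Nh : ∫ x, ‖g x * h x‖ ∂mu = ∫ x, ‖h x‖ ^ 2 ∂mu := by
    simp_rw [norm_mul, h2, sq]
  have g1 := sq_add cg ca
  have g2 := sq_add (a := fun x => -a x) cg ca.neg
  have k1 := sq_add ch cb
  have k2 := sq_add (a := fun x => -b x) ch cb.neg
  simp only [map_neg, mul_neg, Complex.neg_re, norm_neg, integral_neg] at g2 k2
  rw [ha, ← Ng] at g1 g2
  rw [hb, ← Nh] at k1 k2
  set N := ∫ x, ‖g x * h x‖ ∂mu
  have i1 : Integrable (fun x => 1 / (4 * s) * ‖g x + a x‖ ^ 2) mu :=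
    (int_cont ((cg.add ca).norm.pow 2)).const_mul _
  have i2 : Integrable (fun x => s / 4 * ‖g x + -a x‖ ^ 2) mu :=
    (int_cont ((cg.add ca.neg).norm.pow 2)).const_mul _
  have i3 : Integrable (fun x => 1 / (4 * s) * ‖h x + b x‖ ^ 2) mu :=
    (int_cont ((ch.add cb).norm.pow 2)).const_mul _
  have i4 : Integrable (fun x => s / 4 * ‖h x + -b x‖ ^ 2) mu :=
    (int_cont ((ch.add cb.neg).norm.pow 2)).const_mul _
  calc ∫ x, ‖g x * h x - a x * b x‖ ∂mu
      ≤ ∫ x, ((s / 4 * ‖g x + -a x‖ ^ 2 + 1 / (4 * s) * ‖h x + b x‖ ^ 2) +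
          (s / 4 * ‖h x + -b x‖ ^ 2 + 1 / (4 * s) * ‖g x + a x‖ ^ 2)) ∂mu := by
        refine integral_mono (int_cont ((cg.mul ch).sub (ca.mul cb)).norm)
          ((i2.add i3).add (i4.add i1)) fun x => ?_
        have e : g x * h x - a x * b x = (1 / 2 : ℂ) *
            ((g x + -a x) * (h x + b x) + (h x + -b x) * (g x + a x)) := by
          ring
        have t := norm_add_le ((g x + -a x) * (h x + b x)) ((h x + -b x) * (g x + a x))
        rw [norm_mul, norm_mul] at t
        have a1 := amgm (x := ‖g x + -a x‖) (y := ‖h x + b x‖) hs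
        have a2 := amgm (x := ‖h x + -b x‖) (y := ‖g x + a x‖) hs
        have n2 : ‖(1 / 2 : ℂ)‖ = 1 / 2 := by simp
        simp only
        rw [e, norm_mul, n2]
        have e1 : ∀ y : ℝ, 1 / (4 * s) * y = y / s / 4 := fun y => by field_simp
        rw [e1, e1]
        linarith
    _ = 2 / s * N := by
        have j1 : Integrable (fun x => s / 4 * ‖g x + -a x‖ ^ 2 +
          1 / (4 * s) * ‖h x + b x‖ ^ 2) mu := i2.add i3
        have j2 : Integrable (fun x => s / 4 * ‖h x + -b x‖ ^ 2 +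
          1 / (4 * s) * ‖g x + a x‖ ^ 2) mu := i4.add i1
        rw [integral_add j1 j2, integral_add i2 i3, integral_add i4 i1,
          integral_const_mul, integral_const_mul,
          integral_const_mul, integral_const_mul, g1, g2, k1, k2]
        field_simp
        rw [hs2]
        ring

/-- Taylor remainders -/
noncomputable def rem (g : ℂ → ℂ) : ℕ → ℂ → ℂ
  | 0 => g
  | k + 1 => dslope (rem g k) 0

/-- Taylor partial sums -/
noncomputable def ps (g : ℂ → ℂ) (j : ℕ) (w : ℂ) : ℂ := ∑ k ∈ range j, rem g k 0 * w ^ k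

lemma dcc_dslope {g : ℂ → ℂ} (hg : DiffContOnCl ℂ g (ball 0 1)) :
    DiffContOnCl ℂ (dslope g 0) (ball 0 1) := by
  have hb : ball (0 : ℂ) 1 ∈ 𝓝 (0 : ℂ) := ball_mem_nhds _ one_pos
  refine DiffContOnCl.mk_ball ((Complex.differentiableOn_dslope hb).mpr hg.differentiableOn) ?_
  exact (continuousOn_dslope (closedBall_mem_nhds _ one_pos)).mpr
    ⟨hg.continuousOn_ball, hg.differentiableAt' hb⟩

lemma rem_dcc {g : ℂ → ℂ} (hg : DiffContOnCl ℂ g (ball 0 1)) (k : ℕ) :
    DiffContOnCl ℂ (rem g k) (ball 0 1) := by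
  induction k with
  | zero => exact hg
  | succ k ih => exact dcc_dslope ih

lemma expand (g : ℂ → ℂ) (j : ℕ) (w : ℂ) : g w = ps g j w + w ^ j * rem g j w := by
  induction j with
  | zero => simp [ps, rem]
  | succ j ih =>
    have := sub_smul_dslope (rem g j) 0 w
    rw [sub_zero, smul_eq_mul] at this
    rw [ih]
    simp only [ps, sum_range_succ, rem]
    linear_combination (-w ^ j) * this

lemma ps_cont (g : ℂ → ℂ) (j : ℕ) : Continuous fun x => ps g j (zc x) :=
  continuous_finsetSum _ fun k _ => continuous_const.mul (zc_cont.pow k)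

lemma mean_pow_mul {g : ℂ → ℂ} (hg : DiffContOnCl ℂ g (ball 0 1)) {m : ℕ} (hm : m ≠ 0) :
    ∫ x, zc x ^ m * g (zc x) ∂mu = 0 := by
  have := mean (dmul (g := fun w : ℂ => w ^ m) (Differentiable.diffContOnCl (by fun_prop)) hg)
  simpa [hm] using this

lemma conj_zc (x : Circ) : conj (zc x) * zc x = 1 := by
  rw [mul_comm]; exact mul_conj_one (norm_zc x)

lemma cpow_cont (m : ℕ) : Continuous fun x => conj (zc x) ^ m :=
  (Complex.continuous_conj.comp zc_cont).pow m

lemma conj_pow_mul {k m : ℕ} (h : k ≤ m) (x : Circ) :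
    conj (zc x) ^ k * zc x ^ m = zc x ^ (m - k) := by
  obtain ⟨d, rfl⟩ := Nat.exists_eq_add_of_le h
  rw [pow_add, ← mul_assoc, ← mul_pow, conj_zc, one_pow, one_mul, Nat.add_sub_cancel_left]

lemma conj_pow_mul' {k m : ℕ} (h : k ≤ m) (x : Circ) :
    conj (zc x) ^ m * zc x ^ k = conj (zc x) ^ (m - k) := by
  obtain ⟨d, rfl⟩ := Nat.exists_eq_add_of_le h
  rw [pow_add, mul_right_comm, ← mul_pow, conj_zc, one_pow, one_mul, Nat.add_sub_cancel_left]

lemma int_orth (m k : ℕ) : ∫ x, conj (zc x) ^ m * zc x ^ k ∂mu = if k = m then 1 else 0 := by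
  rcases lt_trichotomy k m with h | h | h
  · simp_rw [conj_pow_mul' h.le]
    rw [refl (fun w => w ^ (m - k)), if_neg h.ne]
    simpa using mean_pow_mul (g := fun _ => 1) diffContOnCl_const (m := m - k) (by omega)
  · simp_rw [conj_pow_mul' h.le]
    simp [h]
  · simp_rw [conj_pow_mul h.le]
    rw [if_neg h.ne']
    simpa using mean_pow_mul (g := fun _ => 1) diffContOnCl_const (m := k - m) (by omega)

lemma coef_int {g : ℂ → ℂ} (hg : DiffContOnCl ℂ g (ball 0 1)) (m : ℕ) :
    ∫ x, conj (zc x) ^ m * g (zc x) ∂mu = rem g m 0 := by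
  have e : ∀ x, conj (zc x) ^ m * g (zc x) =
      ∑ k ∈ range m, rem g k 0 * (conj (zc x) ^ m * zc x ^ k) + rem g m (zc x) := by
    intro x
    rw [expand g m (zc x), mul_add, ← mul_assoc, conj_pow_mul le_rfl, Nat.sub_self, pow_zero,
      one_mul, ps, mul_sum]
    congr 1
    exact sum_congr rfl fun k _ => by ring
  have c1 : ∀ k, Continuous fun x => rem g k 0 * (conj (zc x) ^ m * zc x ^ k) := fun k =>
    continuous_const.mul ((cpow_cont m).mul (zc_cont.pow k))
  simp_rw [e]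
  rw [integral_add (int_cont (continuous_finsetSum _ fun k _ => c1 k))
    (int_cont (cont_bd (rem_dcc hg m))), integral_finsetSum _ fun k _ => int_cont (c1 k),
    mean (rem_dcc hg m), sum_eq_zero, zero_add]
  intro k hk
  rw [integral_const_mul, int_orth, if_neg (mem_range.mp hk).ne, mul_zero]

lemma prod_coef {g h : ℂ → ℂ} (hg : DiffContOnCl ℂ g (ball 0 1))
    (hh : DiffContOnCl ℂ h (ball 0 1)) (m : ℕ) :
    ∫ x, conj (zc x) ^ m * (g (zc x) * h (zc x)) ∂mu =
      ∑ a ∈ range (m + 1), rem g a 0 * rem h (m - a) 0 := by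
  have e : ∀ x, conj (zc x) ^ m * (g (zc x) * h (zc x)) =
      ∑ a ∈ range (m + 1), rem g a 0 * (conj (zc x) ^ (m - a) * h (zc x)) +
        zc x ^ 1 * (rem g (m + 1) (zc x) * h (zc x)) := by
    intro x
    have e1 := conj_pow_mul (Nat.le_add_right m 1) x
    rw [Nat.add_sub_cancel_left] at e1
    rw [expand g (m + 1) (zc x), add_mul, mul_add, ps, sum_mul, mul_sum, ← e1]
    congr 1
    · refine sum_congr rfl fun a ha => ?_
      rw [← conj_pow_mul' (Nat.lt_succ_iff.mp (mem_range.mp ha))]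
      ring
    · ring
  have c1 : ∀ a, Continuous fun x => rem g a 0 * (conj (zc x) ^ (m - a) * h (zc x)) := fun a =>
    continuous_const.mul ((cpow_cont _).mul (cont_bd hh))
  have hd := dmul (rem_dcc hg (m + 1)) hh
  have i2 : Integrable (fun x => zc x ^ 1 * (rem g (m + 1) (zc x) * h (zc x))) mu :=
    int_cont ((zc_cont.pow 1).mul (cont_bd hd))
  simp_rw [e]
  rw [integral_add (int_cont (continuous_finsetSum _ fun k _ => c1 k)) i2, integral_finsetSum _ fun k _ => int_cont (c1 k),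
    mean_pow_mul hd one_ne_zero, add_zero]
  exact sum_congr rfl fun a _ => by rw [integral_const_mul, coef_int hh]

lemma ps_orth {g : ℂ → ℂ} (hg : DiffContOnCl ℂ g (ball 0 1)) (j : ℕ) :
    ∫ x, (g (zc x) * conj (ps g j (zc x))).re ∂mu = ∫ x, ‖ps g j (zc x)‖ ^ 2 ∂mu := by
  have e : ∀ x, (g (zc x) * conj (ps g j (zc x))).re = ‖ps g j (zc x)‖ ^ 2 +
      (∑ k ∈ range j, conj (rem g k 0) * (zc x ^ (j - k) * rem g j (zc x))).re := by
    intro x
    conv_lhs => rw [expand g j (zc x), add_mul, Complex.add_re, Complex.mul_conj,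
      Complex.ofReal_re, Complex.normSq_eq_norm_sq]
    congr 2
    rw [ps, map_sum, mul_sum]
    refine sum_congr rfl fun k hk => ?_
    rw [← conj_pow_mul (mem_range.mp hk).le, map_mul, map_pow]
    ring
  have c1 : ∀ k, Continuous fun x => conj (rem g k 0) * (zc x ^ (j - k) * rem g j (zc x)) :=
    fun k => continuous_const.mul ((zc_cont.pow _).mul (cont_bd (rem_dcc hg j)))
  have c2 := continuous_finsetSum (range j) fun k _ => c1 k
  have h3 := integral_re (𝕜 := ℂ) (μ := mu) (int_cont c2)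
  rw [integral_finsetSum _ fun k _ => int_cont (c1 k), sum_eq_zero (fun k hk => by
    rw [integral_const_mul, mean_pow_mul (rem_dcc hg j) (by have := mem_range.mp hk; omega),
      mul_zero])] at h3
  simp only [RCLike.re_to_complex, map_zero] at h3
  have i2 : Integrable (fun x =>
      (∑ k ∈ range j, conj (rem g k 0) * (zc x ^ (j - k) * rem g j (zc x))).re) mu :=
    int_cont (Complex.continuous_re.comp c2)
  have i1 : Integrable (fun x => ‖ps g j (zc x)‖ ^ 2) mu := int_cont ((ps_cont g j).norm.pow 2)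
  simp_rw [e]
  rw [integral_add i1 i2, h3, add_zero]

lemma sum_ps (h : ℂ → ℂ) (M : ℕ) (w : ℂ) :
    ∑ j ∈ range M, ps h (j + 1) w = ∑ b ∈ range M, ((M : ℂ) - b) * (rem h b 0 * w ^ b) := by
  induction M with
  | zero => simp
  | succ M ih =>
    rw [sum_range_succ, ih, ps, sum_range_succ, sum_range_succ, ← add_assoc, ← sum_add_distrib]
    push_cast
    congr 1
    · exact sum_congr rfl fun b _ => by ring
    · ring

lemma fejer_split (g h : ℂ → ℂ) (N : ℕ) (w : ℂ) :
    ∑ j ∈ range N, ps g (N - j) w * ps h (j + 1) w =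
      ∑ k ∈ range N, ((N : ℂ) - k) * ((∑ a ∈ range (k + 1), rem g a 0 * rem h (k - a) 0) * w ^ k) := by
  have e1 : ∑ j ∈ range N, ps g (N - j) w * ps h (j + 1) w =
      ∑ a ∈ range N, ∑ j ∈ range (N - a), rem g a 0 * w ^ a * ps h (j + 1) w := by
    simp_rw [fun j => show ps g (N - j) w = ∑ k ∈ range (N - j), rem g k 0 * w ^ k from rfl,
      sum_mul]
    refine sum_comm' fun j a => ?_
    simp only [mem_range]
    omega
  have e2 := sum_range_diag_flip N fun a b =>
    ((N : ℂ) - a - b) * (rem g a 0 * w ^ a * (rem h b 0 * w ^ b))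
  rw [e1]
  simp_rw [← mul_sum, sum_ps, mul_sum, sum_mul, mul_sum]
  refine Eq.trans ?_ (e2.symm.trans ?_)
  · refine sum_congr rfl fun a ha => sum_congr rfl fun b _ => ?_
    rw [Nat.cast_sub (mem_range.mp ha).le]
    ring
  · refine sum_congr rfl fun k _ => sum_congr rfl fun a ha => ?_
    have hak := Nat.lt_succ_iff.mp (mem_range.mp ha)
    rw [Nat.cast_sub hak]
    conv_rhs => rw [← Nat.add_sub_cancel' hak, pow_add, Nat.add_sub_cancel' hak]
    ring

/-- the Fejér multiplier -/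
noncomputable def mF (n k : ℕ) : ℂ := if k ≤ n then 1 - (k : ℂ) / (n + 1) else 0

lemma mF_sum (n : ℕ) (c : ℕ →₀ ℂ) (w : ℂ) :
    ∑ k ∈ c.support, c k * mF n k * w ^ k =
      ((n : ℂ) + 1)⁻¹ * ∑ k ∈ range (n + 1), (((n + 1 : ℕ) : ℂ) - k) * (c k * w ^ k) := by
  have hn : (n : ℂ) + 1 ≠ 0 := by exact_mod_cast Nat.succ_ne_zero n
  rw [sum_subset (subset_union_left (s₂ := range (n + 1))) (fun k _ hk => by
      rw [Finsupp.notMem_support_iff.mp hk, zero_mul, zero_mul]),
    ← sum_subset (subset_union_right (s₁ := c.support)) (fun k _ hk => by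
      rw [mF, if_neg (by simpa [Nat.lt_succ_iff] using hk), mul_zero, zero_mul]), mul_sum]
  refine sum_congr rfl fun k hk => ?_
  rw [mF, if_pos (Nat.lt_succ_iff.mp (mem_range.mp hk))]
  push_cast
  field_simp

lemma poly_coef (c : ℕ →₀ ℂ) (m : ℕ) :
    ∫ x, conj (zc x) ^ m * ∑ k ∈ c.support, c k * zc x ^ k ∂mu = c m := by
  simp_rw [mul_sum, fun x k => mul_left_comm (conj (zc x) ^ m) (c k) (zc x ^ k)]
  have c1 : ∀ k, Continuous fun x => c k * (conj (zc x) ^ m * zc x ^ k) := fun k =>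
    continuous_const.mul ((cpow_cont m).mul (zc_cont.pow k))
  rw [integral_finsetSum _ fun k _ => int_cont (c1 k)]
  simp_rw [integral_const_mul, int_orth]
  simp only [mul_ite, mul_one, mul_zero, sum_ite_eq', Finsupp.mem_support_iff, ne_eq, ite_not]
  split_ifs with h
  · exact h.symm
  · rfl

theorem fejer_one (n : ℕ) (c : ℕ →₀ ℂ) :
    ∫ x, ‖∑ k ∈ c.support, c k * zc x ^ k - ∑ k ∈ c.support, c k * mF n k * zc x ^ k‖ ∂mu ≤
      2 / √3 * ∫ x, ‖∑ k ∈ c.support, c k * zc x ^ k‖ ∂mu := by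
  obtain ⟨g, h, hg, hh, h1, h2⟩ := Fac.poly c.support c
  have hn : (n : ℂ) + 1 ≠ 0 := by exact_mod_cast Nat.succ_ne_zero n
  have hn' : (0 : ℝ) < n + 1 := by positivity
  have e : ∀ x, ∑ k ∈ c.support, c k * zc x ^ k = g (zc x) * h (zc x) :=
    fun x => h1 _ (zc_mem x)
  have hc : ∀ m, c m = ∑ a ∈ range (m + 1), rem g a 0 * rem h (m - a) 0 := fun m => by
    rw [← poly_coef c m, ← prod_coef hg hh]
    simp_rw [e]
  have e2 : ∀ x, ∑ k ∈ c.support, c k * zc x ^ k - ∑ k ∈ c.support, c k * mF n k * zc x ^ k =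
      ((n : ℂ) + 1)⁻¹ * ∑ j ∈ range (n + 1),
        (g (zc x) * h (zc x) - ps g (n + 1 - j) (zc x) * ps h (j + 1) (zc x)) := by
    intro x
    rw [mF_sum, e, sum_sub_distrib, fejer_split]
    simp_rw [← hc]
    rw [sum_const, card_range, nsmul_eq_mul]
    push_cast
    field_simp
  have c1 : ∀ j, Continuous fun x =>
      ‖g (zc x) * h (zc x) - ps g (n + 1 - j) (zc x) * ps h (j + 1) (zc x)‖ := fun j =>
    (((cont_bd hg).mul (cont_bd hh)).sub ((ps_cont _ _).mul (ps_cont _ _))).norm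
  simp_rw [e2, e]
  calc _ ≤ ∫ x, ((n : ℝ) + 1)⁻¹ * ∑ j ∈ range (n + 1),
        ‖g (zc x) * h (zc x) - ps g (n + 1 - j) (zc x) * ps h (j + 1) (zc x)‖ ∂mu := by
        refine integral_mono_of_nonneg (ae_of_all _ fun x => norm_nonneg _)
          ((int_cont (continuous_finsetSum _ fun j _ => c1 j)).const_mul _)
          (ae_of_all _ fun x => ?_)
        simp only
        rw [norm_mul, norm_inv]
        have : ‖(n : ℂ) + 1‖ = (n : ℝ) + 1 := by
          exact_mod_cast Complex.norm_natCast (n + 1)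
        rw [this]
        exact mul_le_mul_of_nonneg_left (norm_sum_le _ _) (by positivity)
    _ ≤ ((n : ℝ) + 1)⁻¹ * ∑ _j ∈ range (n + 1), 2 / √3 * ∫ x, ‖g (zc x) * h (zc x)‖ ∂mu := by
        rw [integral_const_mul, integral_finsetSum _ fun j _ => int_cont (c1 j)]
        refine mul_le_mul_of_nonneg_left (sum_le_sum fun j _ => ?_) (by positivity)
        exact orth_ineq (cont_bd hg) (cont_bd hh) (ps_cont _ _) (ps_cont _ _) h2
          (ps_orth hg _) (ps_orth hh _)
    _ = _ := by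
        rw [sum_const, card_range, nsmul_eq_mul]
        push_cast
        field_simp

end Pool.Agent.H452Z.Bcap
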