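import Pool.Agent.H452Z.HpDefs

set_option autoImplicit false

open MeasureTheory AddCircle Filter Topology Metric
open scoped ENNReal Real ComplexConjugate

namespace Pool.Agent.H452Z.Bcap

/-- normalised measure -/
noncomputable abbrev mu : Measure Circ := haarAddCircle

/-- the coordinate on the circle -/
noncomputable def zc (x : Circ) : ℂ := fourier 1 x

lemma zc_cont : Continuous zc := (fourier 1 : C(Circ, ℂ)).continuous

lemma norm_zc (x : Circ) : ‖zc x‖ = 1 := by
  unfold zc; rw [fourier_apply, Circle.norm_coe]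

lemma zc_ne (x : Circ) : zc x ≠ 0 := by
  intro h; have := norm_zc x; rw [h, norm_zero] at this; exact zero_ne_one this

lemma zc_mem (x : Circ) : zc x ∈ closedBall (0 : ℂ) 1 := by
  simp [norm_zc]

lemma zc_add (x y : Circ) : zc (x + y) = zc x * zc y := by
  unfold zc
  rw [fourier_one, fourier_one, fourier_one, toCircle_add, Circle.coe_mul]

lemma fourier_eq_zpow (k : ℤ) (x : Circ) : fourier k x = zc x ^ k := by
  unfold zc
  rw [fourier_one, fourier_apply, toCircle_zsmul, Circle.coe_zpow]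

lemma zc_neg (x : Circ) : zc (-x) = conj (zc x) := by
  unfold zc
  rw [← fourier_neg, fourier_apply, fourier_apply]
  simp

lemma zc_zsmul (N : ℤ) (x : Circ) : zc (N • x) = zc x ^ N := by
  rw [← fourier_eq_zpow]; unfold zc; rw [fourier_one, fourier_apply]

lemma zc_surj {u : ℂ} (hu : ‖u‖ = 1) : ∃ a : Circ, zc a = u := by
  refine ⟨((Complex.arg u : ℝ) : Circ), ?_⟩
  unfold zc
  rw [fourier_coe_apply]
  have h := Complex.norm_mul_exp_arg_mul_I u
  rw [hu, Complex.ofReal_one, one_mul] at h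
  refine Eq.trans ?_ h
  congr 1
  have : (π : ℂ) ≠ 0 := Complex.ofReal_ne_zero.mpr Real.pi_ne_zero
  push_cast
  field_simp

lemma int_cont {E : Type} [NormedAddCommGroup E] {g : Circ → E} (hg : Continuous g) :
    Integrable g mu :=
  hg.integrable_of_hasCompactSupport (HasCompactSupport.of_compactSpace g)

lemma rot {E : Type} [NormedAddCommGroup E] [NormedSpace ℝ E] (G : ℂ → E) {u : ℂ}
    (hu : ‖u‖ = 1) : ∫ x, G (zc x * u) ∂mu = ∫ x, G (zc x) ∂mu := by
  obtain ⟨a, rfl⟩ := zc_surj hu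
  simp_rw [← zc_add]
  exact integral_add_right_eq_self (fun x => G (zc x)) a

lemma refl {E : Type} [NormedAddCommGroup E] [NormedSpace ℝ E] (G : ℂ → E) :
    ∫ x, G (conj (zc x)) ∂mu = ∫ x, G (zc x) ∂mu := by
  simp_rw [← zc_neg]
  exact integral_neg_eq_self (fun x => G (zc x)) mu

lemma dil {G : ℂ → ℝ} {N : ℤ} (hN : N ≠ 0) (hG : Continuous fun x => G (zc x)) :
    ∫ x, G (zc x ^ N) ∂mu = ∫ x, G (zc x) ∂mu := by
  simp_rw [← zc_zsmul]
  have h := Measure.measurePreserving_zsmul (G := Circ) mu hN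
  have h2 := integral_map (μ := mu) (φ := fun x : Circ => N • x) h.measurable.aemeasurable
    (f := fun x => G (zc x)) hG.aestronglyMeasurable
  rw [h.map_eq] at h2
  exact h2.symm

/-- mean value property -/
lemma mean {h : ℂ → ℂ} (hh : DiffContOnCl ℂ h (ball 0 1)) : ∫ x, h (zc x) ∂mu = h 0 := by
  have h1 : DiffContOnCl ℂ h (ball 0 |(1 : ℝ)|) := by rwa [abs_one]
  rw [← h1.circleAverage, Real.circleAverage_def, integral_haarAddCircle,
    ← AddCircle.intervalIntegral_preimage (2 * π) 0, zero_add]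
  congr 1
  refine intervalIntegral.integral_congr fun t _ => ?_
  congr 1
  unfold zc
  rw [fourier_coe_apply, circleMap]
  have : (π : ℂ) ≠ 0 := Complex.ofReal_ne_zero.mpr Real.pi_ne_zero
  simp only [Complex.ofReal_one, one_mul, zero_add]
  congr 1
  push_cast
  field_simp

lemma cont_bd {h : ℂ → ℂ} (hh : DiffContOnCl ℂ h (ball 0 1)) : Continuous fun x => h (zc x) := by
  have := hh.continuousOn
  rw [closure_ball _ one_ne_zero] at this
  exact this.comp_continuous zc_cont zc_mem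

lemma cont_rpow {X : Type} [TopologicalSpace X] {g : X → ℂ} (hg : Continuous g) {q : ℝ}
    (hq : 1 ≤ q) : Continuous fun x => ‖g x‖ ^ q :=
  hg.norm.rpow_const fun _ => Or.inr (by linarith)

/-- Jensen -/
lemma jensen {g : Circ → ℂ} (hg : Continuous g) {q : ℝ} (hq : 1 ≤ q) :
    (∫ x, ‖g x‖ ∂mu) ^ q ≤ ∫ x, ‖g x‖ ^ q ∂mu :=
  (convexOn_rpow hq).map_integral_le (f := fun x => ‖g x‖)
    (Real.continuous_rpow_const (by linarith)).continuousOn isClosed_Ici
    (ae_of_all _ fun x => norm_nonneg (g x)) (int_cont hg.norm) (int_cont (cont_rpow hg hq))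

lemma jensen' {g : Circ → ℂ} (hg : Continuous g) {q : ℝ} (hq : 1 ≤ q) :
    ‖∫ x, g x ∂mu‖ ^ q ≤ ∫ x, ‖g x‖ ^ q ∂mu :=
  (Real.rpow_le_rpow (norm_nonneg _) (norm_integral_le_integral_norm _) (by linarith)).trans
    (jensen hg hq)

lemma swap {G : Circ → Circ → ℝ} (hG : Continuous (Function.uncurry G)) :
    ∫ x, ∫ y, G x y ∂mu ∂mu = ∫ y, ∫ x, G x y ∂mu ∂mu :=
  integral_integral_swap
    (hG.integrable_of_hasCompactSupport (HasCompactSupport.of_compactSpace _))

lemma int_inner {G : Circ → Circ → ℝ} (hG : Continuous (Function.uncurry G)) :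
    Integrable (fun x => ∫ y, G x y ∂mu) mu :=
  (hG.integrable_of_hasCompactSupport (μ := mu.prod mu)
    (HasCompactSupport.of_compactSpace _)).integral_prod_left

/-- the disc automorphism -/
noncomputable def mob (r : ℝ) (w : ℂ) : ℂ := (w + r) / (1 + r * w)

lemma mob_den {r : ℝ} (h0 : 0 ≤ r) (h1 : r < 1) {w : ℂ} (hw : w ∈ closedBall (0 : ℂ) 1) :
    1 + (r : ℂ) * w ≠ 0 := by
  intro h
  have h2 : (r : ℂ) * w = -1 := by linear_combination h
  have h3 := congrArg norm h2
  rw [norm_mul, norm_neg, norm_one, Complex.norm_real, Real.norm_of_nonneg h0] at h3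
  have h4 : ‖w‖ ≤ 1 := by simpa using hw
  nlinarith [norm_nonneg w]

lemma mob_diff {r : ℝ} (h0 : 0 ≤ r) (h1 : r < 1) :
    DifferentiableOn ℂ (mob r) (closedBall 0 1) := by
  unfold mob
  exact DifferentiableOn.div (by fun_prop) (by fun_prop) fun w hw => mob_den h0 h1 hw

lemma dcc {h : ℂ → ℂ} (hh : DifferentiableOn ℂ h (closedBall 0 1)) :
    DiffContOnCl ℂ h (ball 0 1) := by
  apply DifferentiableOn.diffContOnCl
  rwa [closure_ball _ one_ne_zero]

lemma mob_zero (r : ℝ) : mob r 0 = r := by simp [mob]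

lemma mob_conj (r : ℝ) (w : ℂ) : mob r (conj w) = conj (mob r w) := by
  simp [mob]

lemma norm_mob {r : ℝ} (h0 : 0 ≤ r) (h1 : r < 1) (y : Circ) : ‖mob r (zc y)‖ = 1 := by
  have hd := mob_den h0 h1 (zc_mem y)
  have hz : zc y * conj (zc y) = 1 := by
    rw [Complex.mul_conj, Complex.normSq_eq_norm_sq, norm_zc]; simp
  have h2 : zc y + r = zc y * conj (1 + r * zc y) := by
    simp only [map_add, map_one, map_mul, Complex.conj_ofReal]
    linear_combination (-(r : ℂ)) * hz
  unfold mob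
  rw [h2, norm_div, norm_mul, norm_zc, Complex.norm_conj, one_mul,
    div_self (norm_ne_zero_iff.mpr hd)]

lemma mob_cont {r : ℝ} (h0 : 0 ≤ r) (h1 : r < 1) : Continuous fun y => mob r (zc y) :=
  cont_bd (dcc (mob_diff h0 h1))

lemma mul_conj_one {u : ℂ} (hu : ‖u‖ = 1) : u * conj u = 1 := by
  rw [Complex.mul_conj, Complex.normSq_eq_norm_sq, hu]; simp

lemma mean_mob {r : ℝ} (h0 : 0 ≤ r) (h1 : r < 1) {F : ℂ → ℂ} (hF : Differentiable ℂ F) :
    ∫ y, F (mob r (zc y)) ∂mu = F r := by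
  have := mean (h := fun w => F (mob r w))
    (dcc (hF.comp_differentiableOn (mob_diff h0 h1)))
  rw [this, mob_zero]

lemma mean_mob' {r : ℝ} (h0 : 0 ≤ r) (h1 : r < 1) {F : ℂ → ℂ} (hF : Differentiable ℂ F) :
    ∫ y, F (conj (mob r (zc y))) ∂mu = F r := by
  simp_rw [← mob_conj]
  rw [refl (fun w => F (mob r w)), mean_mob h0 h1 hF]

/-- The averaging over disc automorphisms. -/
lemma mob_avg {q K : ℝ} (hq : 1 ≤ q)
    (hK : ∀ h : ℂ → ℂ, DiffContOnCl ℂ h (ball 0 1) →
      ∫ x, ‖h (zc x) - h 0‖ ^ q ∂mu ≤ K * ∫ x, ‖h (zc x)‖ ^ q ∂mu)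
    {r : ℝ} (h0 : 0 ≤ r) (h1 : r < 1) {F : ℂ → ℂ} (hF : Differentiable ℂ F) :
    ∫ x, ‖F (zc x) - F (r ^ 2 * zc x)‖ ^ q ∂mu ≤ K * ∫ x, ‖F (zc x)‖ ^ q ∂mu := by
  have hFc := hF.continuous
  have hm := mob_cont h0 h1
  have hz := zc_cont
  have c1 : Continuous (Function.uncurry fun x y : Circ =>
      ‖F (zc x) - F (r * zc x * conj (mob r (zc y)))‖ ^ q) := by
    refine cont_rpow (g := fun p : Circ × Circ =>
      F (zc p.1) - F (r * zc p.1 * conj (mob r (zc p.2)))) ?_ hq
    exact (hFc.comp (hz.comp continuous_fst)).sub (hFc.comp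
      ((continuous_const.mul (hz.comp continuous_fst)).mul
        (Complex.continuous_conj.comp (hm.comp continuous_snd))))
  have c2 : Continuous (Function.uncurry fun x y : Circ =>
      ‖F (zc x * mob r (zc y)) - F (r * zc x)‖ ^ q) := by
    refine cont_rpow (g := fun p : Circ × Circ =>
      F (zc p.1 * mob r (zc p.2)) - F (r * zc p.1)) ?_ hq
    exact (hFc.comp ((hz.comp continuous_fst).mul (hm.comp continuous_snd))).sub
      (hFc.comp (continuous_const.mul (hz.comp continuous_fst)))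
  have c3 : Continuous (Function.uncurry fun x y : Circ =>
      ‖F (zc x * mob r (zc y))‖ ^ q) := by
    refine cont_rpow (g := fun p : Circ × Circ => F (zc p.1 * mob r (zc p.2))) ?_ hq
    exact hFc.comp ((hz.comp continuous_fst).mul (hm.comp continuous_snd))
  calc ∫ x, ‖F (zc x) - F (r ^ 2 * zc x)‖ ^ q ∂mu
      ≤ ∫ x, ∫ y, ‖F (zc x) - F (r * zc x * conj (mob r (zc y)))‖ ^ q ∂mu ∂mu := by
        refine integral_mono (int_cont (cont_rpow ?_ hq)) (int_inner c1) fun x => ?_
        · exact (hFc.comp hz).sub (hFc.comp (continuous_const.mul hz))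
        have hc : Continuous fun y => F (r * zc x * conj (mob r (zc y))) :=
          hFc.comp (continuous_const.mul (Complex.continuous_conj.comp hm))
        have e : F (zc x) - F (r ^ 2 * zc x) =
            ∫ y, (F (zc x) - F (r * zc x * conj (mob r (zc y)))) ∂mu := by
          rw [integral_sub (integrable_const _) (int_cont hc),
            mean_mob' h0 h1 (F := fun w => F (r * zc x * w)) (by fun_prop)]
          simp only [integral_const, probReal_univ, one_smul]
          congr 2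
          ring
        simp only
        rw [e]
        exact jensen' (continuous_const.sub hc) hq
    _ = ∫ y, ∫ x, ‖F (zc x) - F (r * zc x * conj (mob r (zc y)))‖ ^ q ∂mu ∂mu := swap c1
    _ = ∫ y, ∫ x, ‖F (zc x * mob r (zc y)) - F (r * zc x)‖ ^ q ∂mu ∂mu := by
        congr 1
        funext y
        rw [← rot (fun w => ‖F w - F (r * w * conj (mob r (zc y)))‖ ^ q) (norm_mob h0 h1 y)]
        congr 1
        funext x
        congr 4
        have := mul_conj_one (norm_mob h0 h1 y)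
        linear_combination (r * zc x) * this
    _ = ∫ x, ∫ y, ‖F (zc x * mob r (zc y)) - F (r * zc x)‖ ^ q ∂mu ∂mu := (swap c2).symm
    _ ≤ ∫ x, K * ∫ y, ‖F (zc x * mob r (zc y))‖ ^ q ∂mu ∂mu := by
        refine integral_mono (int_inner c2) ((int_inner c3).const_mul K) fun x => ?_
        have := hK (fun w => F (zc x * mob r w))
          (dcc (hF.comp_differentiableOn ((mob_diff h0 h1).const_mul (zc x))))
        simp only [mob_zero] at this
        simp only
        rw [mul_comm (r : ℂ) (zc x)]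
        exact this
    _ = K * ∫ x, ‖F (zc x)‖ ^ q ∂mu := by
        rw [integral_const_mul, swap c3]
        congr 1
        have : ∀ y, ∫ x, ‖F (zc x * mob r (zc y))‖ ^ q ∂mu = ∫ x, ‖F (zc x)‖ ^ q ∂mu :=
          fun y => rot (fun w => ‖F w‖ ^ q) (norm_mob h0 h1 y)
        simp_rw [this]
        simp

lemma mean_mob_zpow {r : ℝ} (h0 : 0 ≤ r) (h1 : r < 1) (k : ℤ) :
    ∫ y, mob r (zc y) ^ k ∂mu = (r : ℂ) ^ k.natAbs := by
  obtain ⟨n, rfl | rfl⟩ := k.eq_nat_or_neg
  · simp only [zpow_natCast, Int.natAbs_natCast]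
    exact mean_mob h0 h1 (F := fun w => w ^ n) (by fun_prop)
  · simp only [Int.natAbs_neg, Int.natAbs_natCast]
    rw [← mean_mob' h0 h1 (F := fun w => w ^ n) (by fun_prop)]
    congr 1
    funext y
    rw [zpow_neg, zpow_natCast, ← inv_pow]
    congr 1
    exact (eq_inv_of_mul_eq_one_right (mul_conj_one (norm_mob h0 h1 y))).symm

/-- Abel means contract on trigonometric polynomials. -/
lemma abel_contr {q : ℝ} (hq : 1 ≤ q) {r : ℝ} (h0 : 0 ≤ r) (h1 : r < 1) (s : Finset ℤ)
    (c : ℤ → ℂ) :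
    ∫ x, ‖∑ k ∈ s, c k * r ^ k.natAbs * zc x ^ k‖ ^ q ∂mu ≤
      ∫ x, ‖∑ k ∈ s, c k * zc x ^ k‖ ^ q ∂mu := by
  have hm := mob_cont h0 h1
  have hz := zc_cont
  have hmne : ∀ y, mob r (zc y) ≠ 0 := fun y h => by
    have := norm_mob h0 h1 y
    rw [h, norm_zero] at this
    exact zero_ne_one this
  have c1 : Continuous (Function.uncurry fun x y : Circ =>
      ‖∑ k ∈ s, c k * (zc x * mob r (zc y)) ^ k‖ ^ q) := by
    refine cont_rpow (g := fun p : Circ × Circ =>
      ∑ k ∈ s, c k * (zc p.1 * mob r (zc p.2)) ^ k) ?_ hq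
    refine continuous_finsetSum _ fun k _ => continuous_const.mul ?_
    exact ((hz.comp continuous_fst).mul (hm.comp continuous_snd)).zpow₀ k
      fun p => Or.inl (mul_ne_zero (zc_ne _) (hmne _))
  calc ∫ x, ‖∑ k ∈ s, c k * r ^ k.natAbs * zc x ^ k‖ ^ q ∂mu
      ≤ ∫ x, ∫ y, ‖∑ k ∈ s, c k * (zc x * mob r (zc y)) ^ k‖ ^ q ∂mu ∂mu := by
        refine integral_mono (int_cont (cont_rpow ?_ hq)) (int_inner c1) fun x => ?_
        · exact continuous_finsetSum _ fun k _ =>
            continuous_const.mul (hz.zpow₀ k fun x => Or.inl (zc_ne x))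
        have hc : ∀ k : ℤ, Continuous fun y => c k * (zc x * mob r (zc y)) ^ k := fun k =>
          continuous_const.mul ((continuous_const.mul hm).zpow₀ k
            fun y => Or.inl (mul_ne_zero (zc_ne _) (hmne _)))
        have e : ∑ k ∈ s, c k * r ^ k.natAbs * zc x ^ k =
            ∫ y, ∑ k ∈ s, c k * (zc x * mob r (zc y)) ^ k ∂mu := by
          rw [integral_finsetSum _ fun k _ => int_cont (hc k)]
          refine Finset.sum_congr rfl fun k _ => ?_
          simp_rw [mul_zpow, ← mul_assoc]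
          rw [integral_const_mul, mean_mob_zpow h0 h1]
          ring
        simp only
        rw [e]
        exact jensen' (continuous_finsetSum _ fun k _ => hc k) hq
    _ = ∫ x, ‖∑ k ∈ s, c k * zc x ^ k‖ ^ q ∂mu := by
        rw [swap c1]
        have : ∀ y, ∫ x, ‖∑ k ∈ s, c k * (zc x * mob r (zc y)) ^ k‖ ^ q ∂mu =
            ∫ x, ‖∑ k ∈ s, c k * zc x ^ k‖ ^ q ∂mu :=
          fun y => rot (fun w => ‖∑ k ∈ s, c k * w ^ k‖ ^ q) (norm_mob h0 h1 y)
        simp_rw [this]
        simp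

end Pool.Agent.H452Z.Bcap
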