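import Mathlib

set_option autoImplicit false

/-!
# Hardy spaces on the circle and the compact approximation constant
-/

open MeasureTheory AddCircle Filter Topology
open scoped ENNReal Real

namespace Pool.Agent.H452Z.Bcap

instance twoPiPos : Fact (0 < 2 * π) := ⟨Real.two_pi_pos⟩

/-- The circle `ℝ / 2πℤ`. -/
abbrev Circ : Type := AddCircle (2 * π)

/-- `L^p` of the circle with normalised Lebesgue (Haar probability) measure. -/
abbrev L (p : ℝ≥0∞) : Type := Lp ℂ p (haarAddCircle : Measure Circ)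

lemma integrable_L (p : ℝ≥0∞) [Fact (1 ≤ p)] (f : L p) :
    Integrable (f : Circ → ℂ) haarAddCircle :=
  (Lp.memLp f).integrable Fact.out

lemma fc_add (p : ℝ≥0∞) [Fact (1 ≤ p)] (k : ℤ) (f g : L p) :
    fourierCoeff ((f + g : L p) : Circ → ℂ) k =
      fourierCoeff (f : Circ → ℂ) k + fourierCoeff (g : Circ → ℂ) k := by
  rw [fourierCoeff_congr_ae (Lp.coeFn_add f g),
    fourierCoeff.add (integrable_L p f) (integrable_L p g)]
  rfl

lemma fc_smul (p : ℝ≥0∞) [Fact (1 ≤ p)] (k : ℤ) (c : ℂ) (f : L p) :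
    fourierCoeff ((c • f : L p) : Circ → ℂ) k = c • fourierCoeff (f : Circ → ℂ) k := by
  rw [fourierCoeff_congr_ae (Lp.coeFn_smul c f), fourierCoeff.const_smul]

lemma fc_bound (p : ℝ≥0∞) [Fact (1 ≤ p)] (k : ℤ) (f : L p) :
    ‖fourierCoeff (f : Circ → ℂ) k‖ ≤ 1 * ‖f‖ := by
  change ‖∫ t, fourier (-k) t • (f : Circ → ℂ) t ∂haarAddCircle‖ ≤ 1 * ‖f‖
  refine (norm_integral_le_lintegral_norm _).trans ?_
  rw [one_mul, Lp.norm_def]
  refine ENNReal.toReal_mono (Lp.eLpNorm_ne_top f) ?_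
  refine le_trans (le_of_eq ?_)
    (eLpNorm_le_eLpNorm_of_exponent_le (Fact.out : 1 ≤ p) (Lp.aestronglyMeasurable f))
  rw [eLpNorm_one_eq_lintegral_enorm]
  refine lintegral_congr fun t => ?_
  rw [norm_smul, fourier_apply, Circle.norm_coe, one_mul, ofReal_norm]

/-- The `k`-th Fourier coefficient, as a linear functional on `L^p`. -/
noncomputable def coeffLin (p : ℝ≥0∞) [Fact (1 ≤ p)] (k : ℤ) : L p →ₗ[ℂ] ℂ where
  toFun f := fourierCoeff (f : Circ → ℂ) k
  map_add' := fc_add p k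
  map_smul' := fc_smul p k

/-- The `k`-th Fourier coefficient, as a bounded functional on `L^p`. -/
noncomputable def coeff (p : ℝ≥0∞) [Fact (1 ≤ p)] (k : ℤ) : L p →L[ℂ] ℂ :=
  (coeffLin p k).mkContinuous 1 (fc_bound p k)

/-- The `f` in `L^p` whose Fourier coefficients of negative index vanish. -/
def IsHardy {p : ℝ≥0∞} (f : L p) : Prop := ∀ k : ℤ, k < 0 → fourierCoeff (f : Circ → ℂ) k = 0

lemma IsHardy.add {p : ℝ≥0∞} [Fact (1 ≤ p)] {f g : L p} (hf : IsHardy f) (hg : IsHardy g) :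
    IsHardy (f + g) := fun k hk => by rw [fc_add, hf k hk, hg k hk, add_zero]

lemma IsHardy.zero (p : ℝ≥0∞) [Fact (1 ≤ p)] : IsHardy (0 : L p) :=
  fun k _ => map_zero (coeff p k)

lemma IsHardy.smul {p : ℝ≥0∞} [Fact (1 ≤ p)] (c : ℂ) {f : L p} (hf : IsHardy f) :
    IsHardy (c • f) := fun k hk => by rw [fc_smul, hf k hk, smul_zero]

/-- The Hardy space `H^p`, a subspace of `L^p` with the `L^p` norm. -/
def Hardy (p : ℝ≥0∞) [Fact (1 ≤ p)] : Submodule ℂ (L p) where
  carrier := {f | IsHardy f}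
  add_mem' := IsHardy.add
  zero_mem' := IsHardy.zero p
  smul_mem' := fun c _ hf => IsHardy.smul c hf

lemma one_mem (p : ℝ≥0∞) [Fact (1 ≤ p)] : (fourierLp p 0 : L p) ∈ Hardy p := fun k hk => by
  rw [fourierCoeff_congr_ae (coeFn_fourierLp p 0), fourierCoeff_fourier,
    Pi.single_eq_of_ne hk.ne]

/-- The constant function `1` (the monomial `fourier 0`) as an element of `H^p`. -/
noncomputable def one (p : ℝ≥0∞) [Fact (1 ≤ p)] : Hardy p := ⟨fourierLp p 0, one_mem p⟩

section Generic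

variable {X : Type} [NormedAddCommGroup X] [NormedSpace ℂ X]

/-- The operator norm `‖I - T‖`. -/
noncomputable def distId (T : X →L[ℂ] X) : ℝ≥0∞ := ‖1 - T‖ₑ

variable (X) in
/-- `M(X)`: the infimum of `sup_n ‖I - T n‖` over all sequences of compact bounded operators `T n`
on `X` that tend strongly to the identity (it is `∞` when there is no such sequence). -/
noncomputable def approxConst : ℝ≥0∞ :=
  ⨅ (T : ℕ → X →L[ℂ] X) (_ : ∀ n, IsCompactOperator (T n))
    (_ : ∀ x, Tendsto (fun n => T n x) atTop (𝓝 x)), ⨆ n, distId (T n)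

/-- `M(S)` for a subspace `S` with the induced norm. -/
noncomputable def subConst (S : Submodule ℂ X) : ℝ≥0∞ := approxConst S

/-- The operator `f ↦ l(f) v` on the subspace `S`. -/
noncomputable def rankOne (S : Submodule ℂ X) (l : X →L[ℂ] ℂ) (v : S) : S →L[ℂ] S :=
  (l.comp S.subtypeL).smulRight v

/-- The operator norm on the subspace `S` of `f ↦ f - l(f) v`. -/
noncomputable def defect (S : Submodule ℂ X) (l : X →L[ℂ] ℂ) (v : S) : ℝ≥0∞ :=
  distId (rankOne S l v)

end Generic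

/-- `M(H^p)`. -/
noncomputable def MH (p : ℝ≥0∞) [Fact (1 ≤ p)] : ℝ≥0∞ := subConst (Hardy p)

/-- `‖I - K₀‖_{B(H^p)}`, where `K₀ f = f̂(0)`, viewed as a constant function. -/
noncomputable def normIK (p : ℝ≥0∞) [Fact (1 ≤ p)] : ℝ≥0∞ :=
  defect (Hardy p) (coeff p 0) (one p)

end Pool.Agent.H452Z.Bcap
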