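import Pool.Agent.H452Z.HpUp

set_option autoImplicit false

open MeasureTheory AddCircle Filter Topology Metric
open scoped ENNReal Real ComplexConjugate

namespace Pool.Agent.H452Z.Bcap

variable (p : ℝ≥0∞) [Fact (1 ≤ p)]

/-- monomials in the Hardy space -/
noncomputable def eH (k : ℕ) : Hardy p := ⟨fourierLp p (k : ℤ), fourier_mem p k⟩

lemma norm_eH (k : ℕ) : ‖eH p k‖ ≤ 1 := norm_fourierLp p k

lemma coe_sum_eH {ι : Type} (s : Finset ι) (c : ι → ℂ) (m : ι → ℕ) :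
    ((∑ k ∈ s, c k • eH p (m k) : Hardy p) : L p) =
      J p (∑ k ∈ s, c k • fourier (m k : ℤ)) := by
  rw [← J_sum]
  simp [eH]

lemma l2_avg (m : ℕ → ℕ) (hm : Function.Injective m) (n : ℕ) :
    ∫ x, ‖(∑ i ∈ Finset.range n, ((n : ℂ)⁻¹) • fourier (m i : ℤ) : C(Circ, ℂ)) x‖ ^ (2 : ℝ) ∂mu
      = (n : ℝ)⁻¹ := by
  have h1 := norm_J (p := 2) ENNReal.ofNat_ne_top
    (∑ i ∈ Finset.range n, ((n : ℂ)⁻¹) • fourier (m i : ℤ) : C(Circ, ℂ))
  rw [ENNReal.toReal_ofNat] at h1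
  rw [← h1, ← J_sum 2 (Finset.range n) (fun _ => (n : ℂ)⁻¹) (fun i => (m i : ℤ))]
  have ho : Orthonormal ℂ (fun i : ℕ => (fourierLp 2 (m i : ℤ) : L 2)) :=
    (orthonormal_fourier (T := 2 * π)).comp (fun i : ℕ => (m i : ℤ))
      (fun a b h => hm (Int.natCast_inj.mp h))
  have h2 := ho.inner_sum (fun _ => (n : ℂ)⁻¹) (fun _ => (n : ℂ)⁻¹) (Finset.range n)
  rw [inner_self_eq_norm_sq_to_K] at h2
  rw [Real.rpow_two]
  apply Complex.ofReal_injective
  push_cast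
  refine h2.trans ?_
  simp only [map_inv₀, map_natCast, Finset.sum_const, Finset.card_range, nsmul_eq_mul]
  rcases eq_or_ne (n : ℂ) 0 with h | h
  · simp [h]
  · field_simp

lemma avg_tendsto {p : ℝ≥0∞} [Fact (1 ≤ p)] (hp : p ≠ ∞) (m : ℕ → ℕ)
    (hm : Function.Injective m) :
    Tendsto (fun n : ℕ => ∑ i ∈ Finset.range n, ((n : ℂ)⁻¹) • eH p (m i)) atTop (𝓝 0) := by
  have hq := one_le_q hp
  rw [tendsto_zero_iff_norm_tendsto_zero]
  have hb : ∀ n : ℕ, ‖∑ i ∈ Finset.range n, ((n : ℂ)⁻¹) • eH p (m i)‖ ≤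
      (√((n : ℝ)⁻¹)) ^ p.toReal⁻¹ := by
    intro n
    set g : C(Circ, ℂ) := ∑ i ∈ Finset.range n, ((n : ℂ)⁻¹) • fourier (m i : ℤ) with hg
    have hg1 : ∀ x, ‖g x‖ ≤ 1 := by
      intro x
      rw [hg, sum_apply' (Finset.range n) (fun _ => (n : ℂ)⁻¹) (fun i => (m i : ℤ))]
      refine (norm_sum_le _ _).trans ?_
      simp only [norm_mul, norm_inv, Complex.norm_natCast, norm_zpow, norm_zc, one_zpow, mul_one,
        Finset.sum_const, Finset.card_range, nsmul_eq_mul]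
      exact mul_inv_le_one
    have h1 : ∫ x, ‖g x‖ ^ p.toReal ∂mu ≤ ∫ x, ‖g x‖ ∂mu := by
      refine integral_mono (int_cont (cont_rpow g.continuous hq)) (int_cont g.continuous.norm)
        fun x => ?_
      simpa using Real.rpow_le_rpow_of_exponent_ge' (norm_nonneg (g x)) (hg1 x) zero_le_one hq
    have h2 : ∫ x, ‖g x‖ ∂mu ≤ √((n : ℝ)⁻¹) := by
      have := jensen g.continuous (q := 2) one_le_two
      rw [l2_avg m hm n, Real.rpow_two] at this
      exact Real.le_sqrt_of_sq_le this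
    rw [Submodule.coe_norm, coe_sum_eH p (Finset.range n) (fun _ => (n : ℂ)⁻¹) m, ← hg,
      Real.le_rpow_inv_iff_of_pos (norm_nonneg _) (Real.sqrt_nonneg _) (by linarith), norm_J hp]
    exact h1.trans h2
  refine squeeze_zero (fun _ => norm_nonneg _) hb ?_
  have h1 : Tendsto (fun n : ℕ => √((n : ℝ)⁻¹)) atTop (𝓝 0) := by
    simpa using (tendsto_inv_atTop_nhds_zero_nat (𝕜 := ℝ)).sqrt
  have h2 : (0 : ℝ) < p.toReal⁻¹ := inv_pos.mpr (by linarith)
  simpa [Real.zero_rpow h2.ne'] using h1.rpow_const (p := p.toReal⁻¹) (Or.inr h2.le)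

lemma compact_tendsto {p : ℝ≥0∞} [Fact (1 ≤ p)] (hp : p ≠ ∞) (T : Hardy p →L[ℂ] Hardy p)
    (hT : IsCompactOperator T) : Tendsto (fun m => T (eH p m)) atTop (𝓝 0) := by
  refine tendsto_of_subseq_tendsto fun ns hns => ?_
  obtain ⟨φ, -, hφ⟩ := strictMono_subseq_of_tendsto_atTop hns
  obtain ⟨K, hK, hsub⟩ := IsCompactOperator.image_closedBall_subset_compact
    (f := T.toLinearMap) hT 1
  obtain ⟨y, -, ψ, hψ, hy⟩ := hK.tendsto_subseq (x := fun j => T (eH p (ns (φ j))))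
    fun j => hsub ⟨_, by simpa using norm_eH p _, rfl⟩
  refine ⟨φ ∘ ψ, ?_⟩
  have h1 := hy.cesaro_smul
  have h2 := (T.continuous.tendsto 0).comp
    (avg_tendsto hp (fun j => ns (φ (ψ j))) (hφ.comp hψ).injective)
  have h3 : (fun n : ℕ => (n⁻¹ : ℝ) • ∑ i ∈ Finset.range n,
      ((fun j => T (eH p (ns (φ j)))) ∘ ψ) i) =
      T ∘ fun n : ℕ => ∑ i ∈ Finset.range n, ((n : ℂ)⁻¹) • eH p (ns (φ (ψ i))) := by
    funext n
    simp only [Function.comp, map_sum, map_smul, Finset.smul_sum]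
    refine Finset.sum_congr rfl fun i _ => ?_
    rw [← algebraMap_smul ℂ ((n : ℝ)⁻¹)]
    simp
  rw [h3] at h1
  have hy0 : y = 0 := by simpa using tendsto_nhds_unique h1 h2
  rw [← hy0]
  exact hy

/-- dilated polynomials -/
noncomputable def lc (N : ℕ) : (ℕ →₀ ℂ) →ₗ[ℂ] Hardy p :=
  Finsupp.linearCombination ℂ fun k => eH p (k * N)

lemma lc_eq (N : ℕ) (c : ℕ →₀ ℂ) : lc p N c = ∑ k ∈ c.support, c k • eH p (k * N) := rfl

lemma norm_lc {p : ℝ≥0∞} [Fact (1 ≤ p)] (hp : p ≠ ∞) {N : ℕ} (hN : N ≠ 0) (c : ℕ →₀ ℂ) :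
    ‖lc p N c‖ = ‖lc p 1 c‖ := by
  have hq := one_le_q hp
  have h : ‖lc p N c‖ ^ p.toReal = ‖lc p 1 c‖ ^ p.toReal := by
    rw [lc_eq, lc_eq, Submodule.coe_norm, Submodule.coe_norm,
      coe_sum_eH p c.support c (fun k => k * N), coe_sum_eH p c.support c (fun k => k * 1),
      norm_J hp, norm_J hp]
    simp_rw [sum_apply']
    have := dil (G := fun w => ‖∑ k ∈ c.support, c k * w ^ k‖ ^ p.toReal) (N := (N : ℤ))
      (by exact_mod_cast hN) (cont_rpow (continuous_finsetSum _ fun k _ =>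
        continuous_const.mul (zc_cont.pow k)) hq)
    simp only [zpow_natCast, mul_one]
    rw [← this]
    simp only [zpow_natCast, ← pow_mul, mul_comm N]
  exact (Real.rpow_left_inj (norm_nonneg _) (norm_nonneg _) (by linarith)).mp h

lemma lc_split (N : ℕ) (c : ℕ →₀ ℂ) : lc p N c = c 0 • eH p 0 + lc p N (c.erase 0) := by
  conv_lhs => rw [← Finsupp.single_add_erase 0 c]
  rw [map_add]
  congr 1
  simp [lc]

lemma K0_eH (k : ℕ) : K0 p (eH p k) = if k = 0 then eH p 0 else 0 := by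
  change coeff p 0 (fourierLp p (k : ℤ)) • eH p 0 = _
  rw [coeff_fourier]
  by_cases h : k = 0
  · simp [h]
  · rw [if_neg (by omega), if_neg h, zero_smul]

lemma sub_K0_lc (c : ℕ →₀ ℂ) : (1 - K0 p) (lc p 1 c) = lc p 1 (c.erase 0) := by
  have h : K0 p (lc p 1 (c.erase 0)) = 0 := by
    rw [lc_eq, map_sum]
    refine Finset.sum_eq_zero fun k hk => ?_
    have hk0 : k ≠ 0 := by
      rintro rfl
      simp at hk
    rw [map_smul, K0_eH, if_neg (by omega), smul_zero]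
  rw [sub_apply, one_apply_eq_self, lc_split p 1 c, map_add, h,
    map_smul, K0_eH, if_pos rfl]
  abel

lemma T_lc {p : ℝ≥0∞} [Fact (1 ≤ p)] (hp : p ≠ ∞) (T : Hardy p →L[ℂ] Hardy p)
    (hT : IsCompactOperator T) (c : ℕ →₀ ℂ) :
    Tendsto (fun N => T (lc p N (c.erase 0))) atTop (𝓝 0) := by
  simp_rw [lc_eq, map_sum, map_smul]
  have h0 : (0 : Hardy p) = ∑ _k ∈ (c.erase 0).support, (0 : Hardy p) := by simp
  rw [h0]
  refine tendsto_finsetSum _ fun k hk => ?_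
  have hk0 : k ≠ 0 := by
    rintro rfl
    simp at hk
  have h1 : Tendsto (fun N : ℕ => k * N) atTop atTop :=
    tendsto_id.const_mul_atTop' (Nat.pos_of_ne_zero hk0)
  simpa using ((compact_tendsto hp T hT).comp h1).const_smul ((c.erase 0) k)

lemma one_step {p : ℝ≥0∞} [Fact (1 ≤ p)] (hp : p ≠ ∞) (T : Hardy p →L[ℂ] Hardy p)
    (hT : IsCompactOperator T) (c : ℕ →₀ ℂ) :
    ‖lc p 1 (c.erase 0)‖ ≤ ‖1 - T‖ * ‖lc p 1 c‖ + ‖c 0 • (eH p 0 - T (eH p 0))‖ := by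
  have h1 := ((T_lc hp T hT c).norm.const_add
    (‖1 - T‖ * ‖lc p 1 c‖ + ‖c 0 • (eH p 0 - T (eH p 0))‖))
  rw [norm_zero, add_zero] at h1
  refine ge_of_tendsto h1 ?_
  filter_upwards [eventually_ne_atTop 0] with N hN
  have e : lc p N (c.erase 0) = (1 - T) (lc p N c) - c 0 • (eH p 0 - T (eH p 0)) +
      T (lc p N (c.erase 0)) := by
    rw [lc_split p N c, sub_apply, one_apply_eq_self, map_add,
      map_smul, smul_sub]
    abel
  rw [← norm_lc hp hN, ← norm_lc hp hN c]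
  conv_lhs => rw [e]
  refine (norm_add_le _ _).trans (add_le_add ((norm_sub_le _ _).trans ?_) le_rfl)
  exact add_le_add ((1 - T).le_opNorm _) le_rfl

lemma K0_le {p : ℝ≥0∞} [Fact (1 ≤ p)] (hp : p ≠ ∞) {S : ℝ} (hS : 0 ≤ S)
    (H : ∀ c : ℕ →₀ ℂ, ‖lc p 1 (c.erase 0)‖ ≤ S * ‖lc p 1 c‖) : ‖1 - K0 p‖ ≤ S := by
  refine ContinuousLinearMap.opNorm_le_bound _ hS fun f => ?_
  have hcl : IsClosed {f : L p | ‖f - coeff p 0 f • (fourierLp p 0 : L p)‖ ≤ S * ‖f‖} :=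
    isClosed_le (by fun_prop) (by fun_prop)
  refine closure_minimal
    (t := {f : L p | ‖f - coeff p 0 f • (fourierLp p 0 : L p)‖ ≤ S * ‖f‖}) ?_ hcl
    (Hardy_dense hp f.2)
  intro g hg
  obtain ⟨c, hc⟩ := Finsupp.mem_span_range_iff_exists_finsupp.mp hg
  have e : (lc p 1 c : L p) = g := by
    rw [← hc, lc_eq]
    simp [eH, Finsupp.sum]
  have := H c
  rw [← sub_K0_lc] at this
  rw [← e]
  exact this

lemma lower {p : ℝ≥0∞} [Fact (1 ≤ p)] (hp : p ≠ ∞) : ‖1 - K0 p‖ₑ ≤ approxConst (Hardy p) := by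
  unfold approxConst distId
  refine le_iInf fun T => le_iInf fun hT => le_iInf fun hs => ?_
  rcases eq_or_ne (⨆ n, ‖1 - T n‖ₑ) ∞ with h | h
  · rw [h]; exact le_top
  set S := ⨆ n, ‖1 - T n‖ₑ with hSdef
  have hn : ∀ n, ‖1 - T n‖ ≤ S.toReal := fun n => by
    have := ENNReal.toReal_mono h (le_iSup (fun n => ‖1 - T n‖ₑ) n)
    simpa using this
  rw [← ofReal_norm, ← ENNReal.ofReal_toReal h]
  refine ENNReal.ofReal_le_ofReal (K0_le hp ENNReal.toReal_nonneg fun c => ?_)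
  have h1 := ((((tendsto_const_nhds (x := eH p 0)).sub (hs (eH p 0))).const_smul
    (c 0)).norm.const_add (S.toReal * ‖lc p 1 c‖))
  rw [sub_self, smul_zero, norm_zero, add_zero] at h1
  refine ge_of_tendsto' h1 fun n => (one_step hp (T n) (hT n) c).trans ?_
  exact add_le_add (mul_le_mul_of_nonneg_right (hn n) (norm_nonneg _)) le_rfl

theorem approx_eq (p : ℝ≥0∞) [Fact (1 ≤ p)] (hp : p ≠ ∞) :
    approxConst (Hardy p) = ‖1 - K0 p‖ₑ := le_antisymm (upper hp) (lower hp)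

end Pool.Agent.H452Z.Bcap
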