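import Pool.Agent.H452Z.HpLow

set_option autoImplicit false

open MeasureTheory AddCircle Filter Topology Metric
open scoped ENNReal Real ComplexConjugate

namespace Pool.Agent.H452Z.Bcap

lemma dmul {g h : ℂ → ℂ} (hg : DiffContOnCl ℂ g (ball 0 1)) (hh : DiffContOnCl ℂ h (ball 0 1)) :
    DiffContOnCl ℂ (fun w => g w * h w) (ball 0 1) := DiffContOnCl.smul (c := g) hg hh

/-- balanced factorisation in the disc algebra -/
def Fac (F : ℂ → ℂ) : Prop :=
  ∃ g h : ℂ → ℂ, DiffContOnCl ℂ g (ball 0 1) ∧ DiffContOnCl ℂ h (ball 0 1) ∧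
    (∀ w ∈ closedBall (0 : ℂ) 1, F w = g w * h w) ∧ ∀ x, ‖g (zc x)‖ = ‖h (zc x)‖

lemma Fac.congr {F G : ℂ → ℂ} (hF : Fac F) (e : ∀ w ∈ closedBall (0 : ℂ) 1, G w = F w) :
    Fac G := by
  obtain ⟨g, h, hg, hh, h1, h2⟩ := hF
  exact ⟨g, h, hg, hh, fun w hw => (e w hw).trans (h1 w hw), h2⟩

lemma Fac.mul {F G : ℂ → ℂ} (hF : Fac F) (hG : Fac G) : Fac fun w => F w * G w := by
  obtain ⟨g, h, hg, hh, h1, h2⟩ := hF
  obtain ⟨g', h', hg', hh', h1', h2'⟩ := hG
  refine ⟨fun w => g w * g' w, fun w => h w * h' w, dmul hg hg', dmul hh hh', fun w hw => ?_,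
    fun x => ?_⟩
  · simp only [h1 w hw, h1' w hw]; ring
  · simp only [norm_mul, h2 x, h2' x]

lemma Fac.const (c : ℂ) : Fac fun _ => c := by
  refine ⟨fun _ => c ^ ((2 : ℂ)⁻¹), fun _ => c ^ ((2 : ℂ)⁻¹), diffContOnCl_const,
    diffContOnCl_const, fun w _ => ?_, fun _ => rfl⟩
  rw [← sq, Complex.cpow_ofNat_inv_pow]

lemma Fac.one_sub {b : ℂ} (hb : ‖b‖ ≤ 1) : Fac fun w => 1 - b * w := by
  have hs : DiffContOnCl ℂ (fun w : ℂ => (1 - b * w) ^ ((2 : ℂ)⁻¹)) (ball 0 1) := by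
    refine DiffContOnCl.mk_ball ?_ ?_
    · refine DifferentiableOn.cpow_const (by fun_prop) fun w hw => Or.inl ?_
      have h1 : ‖w‖ < 1 := by simpa using hw
      have h2 : (b * w).re ≤ ‖b‖ * ‖w‖ := (Complex.re_le_norm _).trans (norm_mul_le _ _)
      have h3 : ‖b‖ * ‖w‖ ≤ ‖w‖ := mul_le_of_le_one_left (norm_nonneg _) hb
      rw [Complex.sub_re, Complex.one_re]
      linarith
    · intro w hw
      have h1 : ‖w‖ ≤ 1 := by simpa using hw
      have h2 : (b * w).re ≤ ‖b‖ * ‖w‖ := (Complex.re_le_norm _).trans (norm_mul_le _ _)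
      have h3 : ‖b‖ * ‖w‖ ≤ ‖w‖ := mul_le_of_le_one_left (norm_nonneg _) hb
      have h4 : ContinuousAt (fun x : ℂ => x ^ ((2 : ℂ)⁻¹)) (1 - b * w) := by
        refine Complex.continuousAt_cpow_const_of_re_pos (Or.inl ?_) (by norm_num)
        rw [Complex.sub_re, Complex.one_re]
        linarith
      exact (h4.comp (f := fun w : ℂ => 1 - b * w) (by fun_prop)).continuousWithinAt
  refine ⟨_, _, hs, hs, fun w _ => ?_, fun _ => rfl⟩
  rw [← sq, Complex.cpow_ofNat_inv_pow]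

lemma Fac.inner {B : ℂ → ℂ} (hB : DiffContOnCl ℂ B (ball 0 1)) (h1 : ∀ x, ‖B (zc x)‖ = 1) :
    Fac B :=
  ⟨B, fun _ => 1, hB, diffContOnCl_const, fun w _ => (mul_one _).symm, fun x => by
    rw [h1, norm_one]⟩

lemma Fac.lin (a : ℂ) : Fac fun w => w - a := by
  rcases lt_or_ge ‖a‖ 1 with ha | ha
  · have hd : ∀ w ∈ closedBall (0 : ℂ) 1, 1 - conj a * w ≠ 0 := by
      intro w hw h
      have h2 : conj a * w = 1 := by linear_combination -h
      have h3 := congrArg norm h2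
      rw [norm_mul, norm_one, Complex.norm_conj] at h3
      have h4 : ‖w‖ ≤ 1 := by simpa using hw
      nlinarith [norm_nonneg w, norm_nonneg a]
    have hB : Fac fun w => (w - a) / (1 - conj a * w) := by
      refine Fac.inner (dcc (DifferentiableOn.div (by fun_prop) (by fun_prop) hd)) fun x => ?_
      have hz := mul_conj_one (norm_zc x)
      have h2 : zc x - a = zc x * conj (1 - conj a * zc x) := by
        simp only [map_sub, map_one, map_mul, Complex.conj_conj]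
        linear_combination a * hz
      rw [h2, norm_div, norm_mul, norm_zc, Complex.norm_conj, one_mul,
        div_self (norm_ne_zero_iff.mpr (hd _ (zc_mem x)))]
    refine (hB.mul (Fac.one_sub (b := conj a) (by rw [Complex.norm_conj]; exact ha.le))).congr
      fun w hw => ?_
    rw [div_mul_cancel₀ _ (hd w hw)]
  · have ha0 : a ≠ 0 := by
      rintro rfl
      rw [norm_zero] at ha
      linarith
    refine ((Fac.const (-a)).mul (Fac.one_sub (b := a⁻¹) ?_)).congr fun w _ => ?_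
    · rw [norm_inv]
      exact inv_le_one_of_one_le₀ ha
    · field_simp
      ring

lemma Fac.prod (s : Multiset ℂ) : Fac fun w => (s.map (w - ·)).prod := by
  induction s using Multiset.induction_on with
  | empty => simpa using Fac.const 1
  | cons a s ih => simpa using (Fac.lin a).mul ih

lemma Fac.poly (s : Finset ℕ) (c : ℕ → ℂ) : Fac fun w => ∑ k ∈ s, c k * w ^ k := by
  set F : Polynomial ℂ := ∑ k ∈ s, Polynomial.C (c k) * Polynomial.X ^ k with hF
  refine ((Fac.const F.leadingCoeff).mul (Fac.prod F.roots)).congr fun w _ => ?_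
  rw [← (IsAlgClosed.splits F).eval_eq_prod_roots, hF]
  simp [Polynomial.eval_finsetSum]

lemma sq_shift {g : ℂ → ℂ} (hg : DiffContOnCl ℂ g (ball 0 1)) (u : ℂ) :
    ∫ x, ‖g (zc x) + u‖ ^ 2 ∂mu =
      ∫ x, ‖g (zc x)‖ ^ 2 ∂mu + ‖u‖ ^ 2 + 2 * (g 0 * conj u).re := by
  have hc := cont_bd hg
  have h1 : ∫ x, (g (zc x) * conj u).re ∂mu = (g 0 * conj u).re := by
    have := integral_re (𝕜 := ℂ) (μ := mu) (f := fun x => g (zc x) * conj u)
      (int_cont (hc.mul continuous_const))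
    rw [integral_mul_const, mean hg] at this
    exact this
  simp_rw [← Complex.normSq_eq_norm_sq, Complex.normSq_add]
  rw [integral_add, integral_add, integral_const_mul, h1]
  · simp
  · exact int_cont (Complex.continuous_normSq.comp hc)
  · exact integrable_const _
  · exact int_cont ((Complex.continuous_normSq.comp hc).add continuous_const)
  · exact int_cont (continuous_const.mul
      (Complex.continuous_re.comp (hc.mul continuous_const)))

lemma amgm {s x y : ℝ} (hs : 0 < s) : x * y ≤ (s * x ^ 2 + y ^ 2 / s) / 2 := by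
  have : (s * x ^ 2 + y ^ 2 / s) / 2 - x * y = (s * x - y) ^ 2 / (2 * s) := by
    field_simp
    ring
  have h2 : 0 ≤ (s * x - y) ^ 2 / (2 * s) := by positivity
  linarith

lemma fac_ineq {F : ℂ → ℂ} (hF : Fac F) :
    ∫ x, ‖F (zc x) - F 0‖ ∂mu ≤ 2 / √3 * ∫ x, ‖F (zc x)‖ ∂mu := by
  obtain ⟨g, h, hg, hh, h1, h2⟩ := hF
  have cg := cont_bd hg
  have ch := cont_bd hh
  have hs : (0 : ℝ) < √3 := by positivity
  have hs2 : (√3 : ℝ) ^ 2 = 3 := Real.sq_sqrt (by norm_num)
  set s : ℝ := √3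
  simp_rw [fun x => h1 _ (zc_mem x), h1 0 (by simp)]
  have Ng : ∫ x, ‖g (zc x) * h (zc x)‖ ∂mu = ∫ x, ‖g (zc x)‖ ^ 2 ∂mu := by
    simp_rw [norm_mul, ← h2, sq]
  have Nh : ∫ x, ‖g (zc x) * h (zc x)‖ ∂mu = ∫ x, ‖h (zc x)‖ ^ 2 ∂mu := by
    simp_rw [norm_mul, h2, sq]
  have re1 : ∀ a : ℂ, (a * conj a).re = ‖a‖ ^ 2 := fun a => by
    rw [Complex.mul_conj, Complex.ofReal_re, Complex.normSq_eq_norm_sq]
  have g1 := sq_shift hg (g 0)
  have g2 := sq_shift hg (-g 0)
  have k1 := sq_shift hh (h 0)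
  have k2 := sq_shift hh (-h 0)
  rw [map_neg, mul_neg, Complex.neg_re, norm_neg] at g2 k2
  rw [re1, ← Ng] at g1 g2
  rw [re1, ← Nh] at k1 k2
  set N := ∫ x, ‖g (zc x) * h (zc x)‖ ∂mu
  have i1 : Integrable (fun x => 1 / (4 * s) * ‖g (zc x) + g 0‖ ^ 2) mu :=
    (int_cont ((cg.add continuous_const).norm.pow 2)).const_mul _
  have i2 : Integrable (fun x => s / 4 * ‖g (zc x) + -g 0‖ ^ 2) mu :=
    (int_cont ((cg.add continuous_const).norm.pow 2)).const_mul _
  have i3 : Integrable (fun x => 1 / (4 * s) * ‖h (zc x) + h 0‖ ^ 2) mu :=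
    (int_cont ((ch.add continuous_const).norm.pow 2)).const_mul _
  have i4 : Integrable (fun x => s / 4 * ‖h (zc x) + -h 0‖ ^ 2) mu :=
    (int_cont ((ch.add continuous_const).norm.pow 2)).const_mul _
  calc ∫ x, ‖g (zc x) * h (zc x) - g 0 * h 0‖ ∂mu
      ≤ ∫ x, ((s / 4 * ‖g (zc x) + -g 0‖ ^ 2 + 1 / (4 * s) * ‖h (zc x) + h 0‖ ^ 2) +
          (s / 4 * ‖h (zc x) + -h 0‖ ^ 2 + 1 / (4 * s) * ‖g (zc x) + g 0‖ ^ 2)) ∂mu := by
        refine integral_mono (int_cont ((cg.mul ch).sub continuous_const).norm)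
          ((i2.add i3).add (i4.add i1)) fun x => ?_
        have e : g (zc x) * h (zc x) - g 0 * h 0 = (1 / 2 : ℂ) *
            ((g (zc x) + -g 0) * (h (zc x) + h 0) + (h (zc x) + -h 0) * (g (zc x) + g 0)) := by
          ring
        have t := norm_add_le ((g (zc x) + -g 0) * (h (zc x) + h 0))
          ((h (zc x) + -h 0) * (g (zc x) + g 0))
        rw [norm_mul, norm_mul] at t
        have a1 := amgm (x := ‖g (zc x) + -g 0‖) (y := ‖h (zc x) + h 0‖) hs
        have a2 := amgm (x := ‖h (zc x) + -h 0‖) (y := ‖g (zc x) + g 0‖) hs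
        have n2 : ‖(1 / 2 : ℂ)‖ = 1 / 2 := by simp
        simp only
        rw [e, norm_mul, n2]
        have e1 : ∀ y : ℝ, 1 / (4 * s) * y = y / s / 4 := fun y => by field_simp
        rw [e1, e1]
        linarith
    _ = 2 / s * N := by
        have j1 : Integrable (fun x => s / 4 * ‖g (zc x) + -g 0‖ ^ 2 +
          1 / (4 * s) * ‖h (zc x) + h 0‖ ^ 2) mu := i2.add i3
        have j2 : Integrable (fun x => s / 4 * ‖h (zc x) + -h 0‖ ^ 2 +
          1 / (4 * s) * ‖g (zc x) + g 0‖ ^ 2) mu := i4.add i1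
        rw [integral_add j1 j2, integral_add i2 i3, integral_add i4 i1,
          integral_const_mul, integral_const_mul,
          integral_const_mul, integral_const_mul, g1, g2, k1, k2]
        field_simp
        rw [hs2]
        ring

lemma K0_one_le : ‖1 - K0 1‖ ≤ 2 / √3 := by
  refine K0_le ENNReal.one_ne_top (by positivity) fun c => ?_
  rw [lc_eq, lc_eq, Submodule.coe_norm, Submodule.coe_norm,
    coe_sum_eH 1 c.support c (fun k => k * 1),
    coe_sum_eH 1 (c.erase 0).support (c.erase 0) (fun k => k * 1)]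
  refine le_of_int ENNReal.one_ne_top (by positivity) ?_
  simp_rw [sum_apply']
  simp only [ENNReal.toReal_one, Real.rpow_one, mul_one, zpow_natCast]
  have := fac_ineq (Fac.poly c.support c)
  refine le_trans (le_of_eq ?_) this
  congr 1
  funext x
  congr 1
  have e : ∀ w : ℂ, ∑ k ∈ c.support, c k * w ^ k =
      c 0 + ∑ k ∈ (c.erase 0).support, (c.erase 0) k * w ^ k := by
    intro w
    have h1 := congrArg (Finsupp.linearCombination ℂ fun k => w ^ k)
      (Finsupp.single_add_erase 0 c)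
    rw [map_add, Finsupp.linearCombination_single] at h1
    simp only [pow_zero, smul_eq_mul, mul_one, Finsupp.linearCombination_apply,
      Finsupp.sum] at h1
    exact h1.symm
  have e0 : ∑ k ∈ (c.erase 0).support, (c.erase 0) k * (0 : ℂ) ^ k = 0 := by
    refine Finset.sum_eq_zero fun k hk => ?_
    have hk0 : k ≠ 0 := by
      rintro rfl
      simp at hk
    rw [zero_pow hk0, mul_zero]
  rw [e (zc x), e 0, e0]
  ring

lemma le_K0_one : 2 / √3 ≤ ‖1 - K0 1‖ := by
  have hs : (0 : ℝ) < √3 := by positivity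
  have hs2 : (√3 : ℝ) ^ 2 = 3 := Real.sq_sqrt (by norm_num)
  obtain ⟨t, ht⟩ : ∃ t : ℝ, t = 1 / √3 := ⟨_, rfl⟩
  have t0 : 0 < t := by rw [ht]; positivity
  have t2 : t ^ 2 = 1 / 3 := by rw [ht, div_pow, hs2, one_pow]
  have t1 : t < 1 := by nlinarith
  have hd : ∀ w ∈ closedBall (0 : ℂ) 1, 1 - (t : ℂ) * w ≠ 0 := by
    intro w hw
    have := mob_den t0.le t1 (w := -w) (by simpa using hw)
    rwa [mul_neg, ← sub_eq_add_neg] at this
  have hk : DiffContOnCl ℂ (fun w : ℂ => 1 / (1 - t * w)) (ball 0 1) :=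
    dcc (DifferentiableOn.div (by fun_prop) (by fun_prop) hd)
  have hg : ∀ a : ℝ, DiffContOnCl ℂ (fun w : ℂ => (a * w) * (1 / (1 - t * w))) (ball 0 1) :=
    fun a => dmul (Differentiable.diffContOnCl (by fun_prop)) hk
  obtain ⟨E, hE⟩ : ∃ E, E = ∫ x, ‖1 / (1 - t * zc x)‖ ^ 2 ∂mu := ⟨_, rfl⟩
  have hsh : ∀ a : ℝ, ∫ x, ‖(a * zc x) * (1 / (1 - t * zc x)) + 1‖ ^ 2 ∂mu = a ^ 2 * E + 1 := by
    intro a
    rw [sq_shift (hg a) 1, hE, ← integral_const_mul]
    simp only [norm_mul, norm_zc, Complex.norm_real, mul_one, mul_pow, Real.norm_eq_abs, sq_abs]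
    simp
  have hE1 : E = t ^ 2 * E + 1 := by
    rw [← hsh t, hE]
    congr 1
    funext x
    congr 2
    have := hd _ (zc_mem x)
    field_simp
    ring
  have hE2 : E = 3 / 2 := by rw [t2] at hE1; linarith
  have hR := (hg (2 * t)).add_const 1
  have key := keyA (p := 1) ENNReal.one_ne_top _ (dmul hR hR)
  simp only [ENNReal.toReal_one, Real.rpow_one] at key
  have e1 : ∫ x, ‖(((2 * t : ℝ) * zc x) * (1 / (1 - t * zc x)) + 1) *
      (((2 * t : ℝ) * zc x) * (1 / (1 - t * zc x)) + 1)‖ ∂mu = 3 := by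
    simp_rw [← sq, norm_pow]
    rw [hsh, mul_pow, t2, hE2]
    norm_num
  have e2 : ∫ x, ‖(((2 * t : ℝ) * zc x) * (1 / (1 - t * zc x)) + 1) *
      (((2 * t : ℝ) * zc x) * (1 / (1 - t * zc x)) + 1) -
      (((2 * t : ℝ) * (0 : ℂ)) * (1 / (1 - t * 0)) + 1) *
      (((2 * t : ℝ) * (0 : ℂ)) * (1 / (1 - t * 0)) + 1)‖ ∂mu = 4 * t * E := by
    rw [hE, ← integral_const_mul]
    congr 1
    funext x
    have := hd _ (zc_mem x)
    have e : (((2 * t : ℝ) * zc x) * (1 / (1 - t * zc x)) + 1) *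
      (((2 * t : ℝ) * zc x) * (1 / (1 - t * zc x)) + 1) -
      (((2 * t : ℝ) * (0 : ℂ)) * (1 / (1 - t * 0)) + 1) *
      (((2 * t : ℝ) * (0 : ℂ)) * (1 / (1 - t * 0)) + 1) =
      ((4 * t : ℝ) : ℂ) * zc x * (1 / (1 - t * zc x)) ^ 2 := by
      push_cast
      field_simp
      ring
    rw [e, norm_mul, norm_mul, norm_zc, norm_pow, Complex.norm_real, mul_one,
      Real.norm_of_nonneg (by positivity)]
  rw [e1, e2, hE2] at key
  have : 2 / √3 = 2 * t := by rw [ht]; ring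
  rw [this]
  linarith

theorem approx_one : approxConst (Hardy 1) = ENNReal.ofReal (2 / √3) := by
  rw [approx_eq 1 ENNReal.one_ne_top, ← ofReal_norm, le_antisymm K0_one_le le_K0_one]

end Pool.Agent.H452Z.Bcap
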