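import Pool.Agent.H452Z.HpAn

set_option autoImplicit false

open MeasureTheory AddCircle Filter Topology Metric
open scoped ENNReal Real ComplexConjugate

namespace Pool.Agent.H452Z.Bcap

variable (p : ℝ≥0∞) [Fact (1 ≤ p)]

/-- continuous functions inside `L^p` -/
noncomputable abbrev J : C(Circ, ℂ) →L[ℂ] L p := ContinuousMap.toLp p mu ℂ

/-- the operator `K₀` -/
noncomputable def K0 : Hardy p →L[ℂ] Hardy p :=
  ((coeff p 0).comp (Hardy p).subtypeL).smulRight (one p)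

lemma coeff_apply (k : ℤ) (f : L p) : coeff p k f = fourierCoeff (f : Circ → ℂ) k := rfl

lemma mem_Hardy (f : L p) : f ∈ Hardy p ↔ ∀ k : ℤ, k < 0 → coeff p k f = 0 := Iff.rfl

lemma norm_coeff (k : ℤ) : ‖coeff p k‖ ≤ 1 :=
  LinearMap.mkContinuous_norm_le _ zero_le_one _

lemma one_le_q {p : ℝ≥0∞} [Fact (1 ≤ p)] (hp : p ≠ ∞) : 1 ≤ p.toReal := by
  have := ENNReal.toReal_mono hp (Fact.out : 1 ≤ p)
  simpa using this

lemma norm_J {p : ℝ≥0∞} [Fact (1 ≤ p)] (hp : p ≠ ∞) (g : C(Circ, ℂ)) :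
    ‖J p g‖ ^ p.toReal = ∫ x, ‖g x‖ ^ p.toReal ∂mu := by
  have hq := one_le_q hp
  have hp0 : p ≠ 0 := (zero_lt_one.trans_le (Fact.out : 1 ≤ p)).ne'
  have h0 : 0 ≤ ∫ x, ‖g x‖ ^ p.toReal ∂mu :=
    integral_nonneg fun x => Real.rpow_nonneg (norm_nonneg _) _
  have h1 : ∫ x, ‖(J p g : Circ → ℂ) x‖ ^ p.toReal ∂mu = ∫ x, ‖g x‖ ^ p.toReal ∂mu := by
    refine integral_congr_ae ?_
    filter_upwards [ContinuousMap.coeFn_toLp (p := p) (𝕜 := ℂ) mu g] with x hx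
    rw [hx]
  rw [Lp.norm_def, (Lp.memLp (J p g)).eLpNorm_eq_integral_rpow_norm hp0 hp, h1,
    ENNReal.toReal_ofReal (Real.rpow_nonneg h0 _), Real.rpow_inv_rpow h0 (by linarith)]

lemma le_of_int {p : ℝ≥0∞} [Fact (1 ≤ p)] (hp : p ≠ ∞) {g h : C(Circ, ℂ)} {C : ℝ} (hC : 0 ≤ C)
    (H : ∫ x, ‖g x‖ ^ p.toReal ∂mu ≤ C ^ p.toReal * ∫ x, ‖h x‖ ^ p.toReal ∂mu) :
    ‖J p g‖ ≤ C * ‖J p h‖ := by
  have hq := one_le_q hp
  rw [← norm_J hp, ← norm_J hp, ← Real.mul_rpow hC (norm_nonneg _)] at H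
  exact (Real.rpow_le_rpow_iff (norm_nonneg _) (mul_nonneg hC (norm_nonneg _))
    (by linarith)).mp H

lemma int_of_le {p : ℝ≥0∞} [Fact (1 ≤ p)] (hp : p ≠ ∞) {g h : C(Circ, ℂ)} {C : ℝ} (hC : 0 ≤ C)
    (H : ‖J p g‖ ≤ C * ‖J p h‖) :
    ∫ x, ‖g x‖ ^ p.toReal ∂mu ≤ C ^ p.toReal * ∫ x, ‖h x‖ ^ p.toReal ∂mu := by
  have hq := one_le_q hp
  rw [← norm_J hp, ← norm_J hp, ← Real.mul_rpow hC (norm_nonneg _)]
  exact Real.rpow_le_rpow (norm_nonneg _) H (by linarith)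

lemma coeff_J (k : ℤ) (g : C(Circ, ℂ)) :
    coeff p k (J p g) = ∫ x, zc x ^ (-k) * g x ∂mu := by
  rw [coeff_apply, fourierCoeff_congr_ae (ContinuousMap.coeFn_toLp (p := p) (𝕜 := ℂ) mu g),
    fourierCoeff]
  simp_rw [fourier_eq_zpow, smul_eq_mul]

lemma coeff_fourier (k j : ℤ) :
    coeff p k (fourierLp p j) = if k = j then 1 else 0 := by
  rw [coeff_apply, fourierCoeff_congr_ae (coeFn_fourierLp p j), fourierCoeff_fourier,
    Pi.single_apply]

lemma norm_fourierLp (j : ℤ) : ‖(fourierLp p j : L p)‖ ≤ 1 := by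
  rw [Lp.norm_def]
  have h : eLpNorm (fourierLp p j : L p) p mu ≤ mu Set.univ ^ p.toReal⁻¹ * ENNReal.ofReal 1 := by
    refine eLpNorm_le_of_ae_bound ?_
    filter_upwards [coeFn_fourierLp (T := 2 * π) p j] with x hx
    rw [hx, fourier_apply, Circle.norm_coe]
  simp only [measure_univ, ENNReal.one_rpow, ENNReal.ofReal_one, mul_one] at h
  simpa using ENNReal.toReal_mono ENNReal.one_ne_top h

/-- boundary values -/
noncomputable def bd (h : ℂ → ℂ) (hh : DiffContOnCl ℂ h (ball 0 1)) : C(Circ, ℂ) :=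
  ⟨fun x => h (zc x), cont_bd hh⟩

lemma bd_mem (h : ℂ → ℂ) (hh : DiffContOnCl ℂ h (ball 0 1)) : J p (bd h hh) ∈ Hardy p := by
  rw [mem_Hardy]
  intro k hk
  obtain ⟨n, hn⟩ := Int.eq_ofNat_of_zero_le (show 0 ≤ -k by omega)
  have hn0 : n ≠ 0 := by omega
  rw [coeff_J, hn]
  have h2 : DiffContOnCl ℂ (fun w : ℂ => w ^ n * h w) (ball 0 1) :=
    DiffContOnCl.smul (c := fun w : ℂ => w ^ n) (Differentiable.diffContOnCl (by fun_prop)) hh
  have := mean h2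
  simp only [zero_pow hn0, zero_mul] at this
  simpa [bd] using this

lemma coeff_bd (h : ℂ → ℂ) (hh : DiffContOnCl ℂ h (ball 0 1)) :
    coeff p 0 (J p (bd h hh)) = h 0 := by
  rw [coeff_J, ← mean hh]
  simp [bd]

lemma sub_K0_bd (h : ℂ → ℂ) (hh : DiffContOnCl ℂ h (ball 0 1)) :
    (((1 - K0 p) ⟨J p (bd h hh), bd_mem p h hh⟩ : Hardy p) : L p) =
      J p (bd (fun w => h w - h 0) (hh.sub_const _)) := by
  have e : bd (fun w => h w - h 0) (hh.sub_const _) = bd h hh - h 0 • fourier 0 := by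
    ext x
    simp [bd]
  rw [e, map_sub, map_smul, ← coeff_bd p h hh]
  rfl

lemma keyA {p : ℝ≥0∞} [Fact (1 ≤ p)] (hp : p ≠ ∞) (h : ℂ → ℂ)
    (hh : DiffContOnCl ℂ h (ball 0 1)) :
    ∫ x, ‖h (zc x) - h 0‖ ^ p.toReal ∂mu ≤
      ‖1 - K0 p‖ ^ p.toReal * ∫ x, ‖h (zc x)‖ ^ p.toReal ∂mu := by
  have h1 := (1 - K0 p).le_opNorm ⟨J p (bd h hh), bd_mem p h hh⟩
  rw [Submodule.coe_norm, sub_K0_bd, Submodule.coe_norm] at h1
  exact int_of_le hp (ContinuousLinearMap.opNorm_nonneg _) h1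

/-- one term of the Abel mean -/
noncomputable def term (r : ℝ) (k : ℤ) : L p →L[ℂ] L p :=
  (r : ℂ) ^ k.natAbs • (coeff p k).smulRight (fourierLp p k)

/-- the Abel mean -/
noncomputable def Q (r : ℝ) : L p →L[ℂ] L p := ∑' k : ℤ, term p r k

lemma term_apply (r : ℝ) (k : ℤ) (f : L p) :
    term p r k f = ((r : ℂ) ^ k.natAbs * coeff p k f) • fourierLp p k := by
  simp [term, mul_smul]

lemma hasSum_Q {r : ℝ} (h0 : 0 ≤ r) (h1 : r < 1) : HasSum (term p r) (Q p r) := by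
  refine Summable.hasSum (Summable.of_norm_bounded (g := fun k : ℤ => r ^ k.natAbs) ?_ ?_)
  · refine Summable.of_nat_of_neg ?_ ?_
    · simpa using summable_geometric_of_lt_one h0 h1
    · simpa using summable_geometric_of_lt_one h0 h1
  · intro k
    unfold term
    rw [norm_smul, ContinuousLinearMap.norm_smulRight_apply, norm_pow, Complex.norm_real,
      Real.norm_of_nonneg h0]
    refine mul_le_of_le_one_right (pow_nonneg h0 _) ?_
    exact mul_le_one₀ (norm_coeff p k) (norm_nonneg _) (norm_fourierLp p k)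

lemma hasSum_Q_apply {r : ℝ} (h0 : 0 ≤ r) (h1 : r < 1) (f : L p) :
    HasSum (fun k : ℤ => ((r : ℂ) ^ k.natAbs * coeff p k f) • (fourierLp p k : L p))
      (Q p r f) := by
  have := (hasSum_Q p h0 h1).mapL (ContinuousLinearMap.apply ℂ (L p) f)
  simpa [term_apply] using this

lemma Q_fourier {r : ℝ} (h0 : 0 ≤ r) (h1 : r < 1) (j : ℤ) :
    Q p r (fourierLp p j) = (r : ℂ) ^ j.natAbs • fourierLp p j := by
  refine (hasSum_Q_apply p h0 h1 _).unique ?_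
  have := hasSum_single (f := fun k : ℤ =>
    ((r : ℂ) ^ k.natAbs * coeff p k (fourierLp p j)) • (fourierLp p k : L p)) j
    (fun k hk => by rw [coeff_fourier, if_neg hk, mul_zero, zero_smul])
  rwa [coeff_fourier, if_pos rfl, mul_one] at this

lemma Q_compact {r : ℝ} (h0 : 0 ≤ r) (h1 : r < 1) : IsCompactOperator (Q p r) := by
  refine isCompactOperator_of_tendsto (hasSum_Q p h0 h1) (Eventually.of_forall fun s => ?_)
  change (∑ k ∈ s, term p r k) ∈ compactOperator (RingHom.id ℂ) (L p) (L p)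
  refine Submodule.sum_mem _ fun k _ => Submodule.smul_mem _ _ ?_
  have h := (isCompactOperator_id (E := ℂ)).comp_clm (coeff p k)
  exact h.continuous_comp (g := fun c : ℂ => c • (fourierLp p k : L p)) (by fun_prop)

lemma J_sum {ι : Type} (s : Finset ι) (c : ι → ℂ) (m : ι → ℤ) :
    ∑ k ∈ s, c k • (fourierLp p (m k) : L p) = J p (∑ k ∈ s, c k • fourier (m k)) := by
  simp [map_sum]

lemma sum_apply' {ι : Type} (s : Finset ι) (c : ι → ℂ) (m : ι → ℤ) (x : Circ) :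
    (∑ k ∈ s, c k • fourier (m k) : C(Circ, ℂ)) x = ∑ k ∈ s, c k * zc x ^ (m k) := by
  simp only [ContinuousMap.coe_sum, Finset.sum_apply, ContinuousMap.smul_apply, smul_eq_mul,
    fourier_eq_zpow]

lemma Q_sum {r : ℝ} (h0 : 0 ≤ r) (h1 : r < 1) {ι : Type} (s : Finset ι) (c : ι → ℂ)
    (m : ι → ℤ) : Q p r (∑ k ∈ s, c k • (fourierLp p (m k) : L p)) =
      ∑ k ∈ s, (c k * r ^ (m k).natAbs) • (fourierLp p (m k) : L p) := by
  rw [map_sum]
  refine Finset.sum_congr rfl fun k _ => ?_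
  rw [map_smul, Q_fourier p h0 h1, mul_smul]

lemma mem_closure_all {p : ℝ≥0∞} [Fact (1 ≤ p)] (hp : p ≠ ∞) (f : L p) :
    f ∈ closure (Submodule.span ℂ (Set.range (fourierLp (T := 2 * π) p)) : Set (L p)) := by
  have := span_fourierLp_closure_eq_top (T := 2 * π) hp
  rw [← Submodule.topologicalClosure_coe, this]
  trivial

lemma Q_contr {p : ℝ≥0∞} [Fact (1 ≤ p)] (hp : p ≠ ∞) {r : ℝ} (h0 : 0 ≤ r) (h1 : r < 1)
    (f : L p) : ‖Q p r f‖ ≤ ‖f‖ := by
  have hcl : IsClosed {f : L p | ‖Q p r f‖ ≤ ‖f‖} := isClosed_le (by fun_prop) (by fun_prop)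
  refine closure_minimal (t := {f : L p | ‖Q p r f‖ ≤ ‖f‖}) ?_ hcl (mem_closure_all hp f)
  intro g hg
  obtain ⟨c, rfl⟩ := Finsupp.mem_span_range_iff_exists_finsupp.mp hg
  change ‖Q p r (∑ k ∈ c.support, c k • fourierLp p (id k))‖ ≤
    ‖∑ k ∈ c.support, c k • fourierLp p (id k)‖
  rw [Q_sum p h0 h1, J_sum, J_sum, ← one_mul ‖J p (∑ k ∈ c.support, c k • fourier (id k))‖]
  refine le_of_int hp zero_le_one ?_
  simp_rw [sum_apply']
  rw [Real.one_rpow, one_mul]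
  exact abel_contr (one_le_q hp) h0 h1 _ _

/-- radii -/
noncomputable def rad (n : ℕ) : ℝ := n / (n + 1)

lemma rad_nonneg (n : ℕ) : 0 ≤ rad n := by unfold rad; positivity

lemma rad_lt (n : ℕ) : rad n < 1 := by
  unfold rad
  rw [div_lt_one (by positivity)]
  linarith

lemma rad_sq_lt (n : ℕ) : rad n ^ 2 < 1 :=
  pow_lt_one₀ (rad_nonneg n) (rad_lt n) two_ne_zero

lemma rad_tendsto : Tendsto rad atTop (𝓝 1) := tendsto_natCast_div_add_atTop (1 : ℝ)

lemma Q_tendsto {p : ℝ≥0∞} [Fact (1 ≤ p)] (hp : p ≠ ∞) (f : L p) :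
    Tendsto (fun n => Q p (rad n ^ 2) f) atTop (𝓝 f) := by
  have hspan : ∀ g ∈ Submodule.span ℂ (Set.range (fourierLp (T := 2 * π) p)),
      Tendsto (fun n => Q p (rad n ^ 2) g) atTop (𝓝 g) := by
    intro g hg
    induction hg using Submodule.span_induction with
    | mem x hx =>
      obtain ⟨j, rfl⟩ := hx
      simp_rw [fun n => Q_fourier p (sq_nonneg (rad n)) (rad_sq_lt n) j]
      have h1 : Tendsto (fun n => (((rad n ^ 2 : ℝ) : ℂ)) ^ j.natAbs) atTop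
          (𝓝 ((((1 : ℝ) ^ 2 : ℝ) : ℂ) ^ j.natAbs)) :=
        ((Complex.continuous_ofReal.tendsto _).comp (rad_tendsto.pow 2)).pow _
      simpa using h1.smul_const (fourierLp p j : L p)
    | zero => simp
    | add x y _ _ hx hy => simpa using hx.add hy
    | smul a x _ hx => simpa using hx.const_smul a
  rw [Metric.tendsto_atTop]
  intro ε hε
  obtain ⟨g, hg, hfg⟩ := Metric.mem_closure_iff.mp (mem_closure_all hp f) (ε / 3) (by positivity)
  obtain ⟨N, hN⟩ := Metric.tendsto_atTop.mp (hspan g hg) (ε / 3) (by positivity)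
  refine ⟨N, fun n hn => ?_⟩
  have h1 : dist (Q p (rad n ^ 2) f) (Q p (rad n ^ 2) g) ≤ dist f g := by
    rw [dist_eq_norm, dist_eq_norm, ← map_sub]
    exact Q_contr hp (sq_nonneg _) (rad_sq_lt n) _
  have h2 := dist_triangle4 (Q p (rad n ^ 2) f) (Q p (rad n ^ 2) g) g f
  have h3 := hN n hn
  rw [dist_comm g f] at h2
  linarith

/-- analytic polynomials -/
noncomputable def An : Submodule ℂ (L p) :=
  Submodule.span ℂ (Set.range fun k : ℕ => (fourierLp p (k : ℤ) : L p))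

lemma fourier_mem (k : ℕ) : (fourierLp p (k : ℤ) : L p) ∈ Hardy p := by
  rw [mem_Hardy]
  intro j hj
  rw [coeff_fourier, if_neg (by omega)]

lemma Hardy_closed : IsClosed (Hardy p : Set (L p)) := by
  have : (Hardy p : Set (L p)) = ⋂ k : ℤ, ⋂ (_ : k < 0), {f | coeff p k f = 0} := by
    ext f
    simp only [Set.mem_iInter, Set.mem_ofPred_eq]
    exact mem_Hardy p f
  rw [this]
  exact isClosed_iInter fun k => isClosed_iInter fun _ =>
    isClosed_eq (coeff p k).continuous continuous_const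

lemma An_le : An p ≤ Hardy p := by
  unfold An
  rw [Submodule.span_le]
  rintro _ ⟨k, rfl⟩
  exact fourier_mem p k

lemma Q_mem {r : ℝ} (h0 : 0 ≤ r) (h1 : r < 1) {f : L p} (hf : f ∈ Hardy p) :
    Q p r f ∈ closure (An p : Set (L p)) := by
  refine mem_closure_of_tendsto (hasSum_Q_apply p h0 h1 f) (Eventually.of_forall fun s => ?_)
  refine Submodule.sum_mem _ fun k _ => ?_
  rcases lt_or_ge k 0 with hk | hk
  · rw [(mem_Hardy p f).mp hf k hk, mul_zero, zero_smul]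
    exact Submodule.zero_mem _
  · obtain ⟨n, rfl⟩ := Int.eq_ofNat_of_zero_le hk
    exact Submodule.smul_mem _ _ (Submodule.subset_span ⟨n, rfl⟩)

lemma Q_mem_Hardy {r : ℝ} (h0 : 0 ≤ r) (h1 : r < 1) {f : L p} (hf : f ∈ Hardy p) :
    Q p r f ∈ Hardy p :=
  closure_minimal (An_le p) (Hardy_closed p) (Q_mem p h0 h1 hf)

lemma Hardy_dense {p : ℝ≥0∞} [Fact (1 ≤ p)] (hp : p ≠ ∞) {f : L p} (hf : f ∈ Hardy p) :
    f ∈ closure (An p : Set (L p)) :=
  isClosed_closure.mem_of_tendsto (Q_tendsto hp f)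
    (Eventually.of_forall fun n => Q_mem p (sq_nonneg _) (rad_sq_lt n) hf)

lemma Q_bound {p : ℝ≥0∞} [Fact (1 ≤ p)] (hp : p ≠ ∞) {r : ℝ} (h0 : 0 ≤ r) (h1 : r < 1)
    {f : L p} (hf : f ∈ Hardy p) : ‖f - Q p (r ^ 2) f‖ ≤ ‖1 - K0 p‖ * ‖f‖ := by
  have hcl : IsClosed {f : L p | ‖f - Q p (r ^ 2) f‖ ≤ ‖1 - K0 p‖ * ‖f‖} :=
    isClosed_le (by fun_prop) (by fun_prop)
  refine closure_minimal (t := {f : L p | ‖f - Q p (r ^ 2) f‖ ≤ ‖1 - K0 p‖ * ‖f‖}) ?_ hcl
    (Hardy_dense hp hf)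
  intro g hg
  obtain ⟨c, rfl⟩ := Finsupp.mem_span_range_iff_exists_finsupp.mp hg
  change ‖(∑ k ∈ c.support, c k • fourierLp p (k : ℤ)) -
    Q p (r ^ 2) (∑ k ∈ c.support, c k • fourierLp p (k : ℤ))‖ ≤
    ‖1 - K0 p‖ * ‖∑ k ∈ c.support, c k • fourierLp p (k : ℤ)‖
  rw [Q_sum p (sq_nonneg r) (pow_lt_one₀ h0 h1 two_ne_zero), J_sum, J_sum, ← map_sub]
  refine le_of_int hp (ContinuousLinearMap.opNorm_nonneg _) ?_
  simp_rw [ContinuousMap.sub_apply, sum_apply']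
  have := mob_avg (one_le_q hp) (keyA hp) h0 h1 (F := fun w => ∑ k ∈ c.support, c k * w ^ k)
    (by fun_prop)
  simpa [mul_pow, mul_assoc] using this

/-- Abel means on the Hardy space -/
noncomputable def P (n : ℕ) : Hardy p →L[ℂ] Hardy p :=
  ((Q p (rad n ^ 2)).comp (Hardy p).subtypeL).codRestrict (Hardy p)
    fun f => Q_mem_Hardy p (sq_nonneg _) (rad_sq_lt n) f.2

lemma upper {p : ℝ≥0∞} [Fact (1 ≤ p)] (hp : p ≠ ∞) : approxConst (Hardy p) ≤ ‖1 - K0 p‖ₑ := by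
  unfold approxConst distId
  refine iInf_le_of_le (P p) (iInf_le_of_le (fun n => ?_) (iInf_le_of_le (fun f => ?_) ?_))
  · exact ((Q_compact p (sq_nonneg _) (rad_sq_lt n)).comp_clm (Hardy p).subtypeL).codRestrict
      (fun f => Q_mem_Hardy p (sq_nonneg _) (rad_sq_lt n) f.2) (Hardy_closed p)
  · rw [tendsto_subtype_rng]
    exact Q_tendsto hp f.1
  · refine iSup_le fun n => ?_
    rw [← ofReal_norm, ← ofReal_norm]
    refine ENNReal.ofReal_le_ofReal ?_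
    refine ContinuousLinearMap.opNorm_le_bound _ (norm_nonneg _) fun f => ?_
    exact Q_bound hp (rad_nonneg n) (rad_lt n) f.2

end Pool.Agent.H452Z.Bcap
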