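import Mathlib

/-!
The multiplier algebra of `L^p(G)` and the spectral permanence property.
-/

namespace Pool.Agent.H452Z.Mult

open MeasureTheory
open scoped ENNReal

universe u v

variable {G : Type u} [CommGroup G] [TopologicalSpace G] [IsTopologicalGroup G]
  [MeasurableSpace G] [BorelSpace G]

/-- Translation by `a` on `L^p(G)`: the operator `f ↦ (x ↦ f (a * x))`. -/
noncomputable def translation (μ : Measure G) [μ.IsHaarMeasure] (p : ℝ≥0∞) [Fact (1 ≤ p)]
    (a : G) : Lp ℂ p μ →L[ℂ] Lp ℂ p μ :=
  (Lp.compMeasurePreservingₗᵢ ℂ (fun x => a * x)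
    (measurePreserving_mul_left μ a)).toContinuousLinearMap

/-- The multiplier algebra `M(L^p(G))`: the bounded operators on `L^p(G)` that commute with all
translations, with composition and the operator norm. -/
noncomputable def multiplierAlgebra (μ : Measure G) [μ.IsHaarMeasure] (p : ℝ≥0∞) [Fact (1 ≤ p)] :
    Subalgebra ℂ (Lp ℂ p μ →L[ℂ] Lp ℂ p μ) :=
  Subalgebra.centralizer ℂ (Set.range (translation μ p))

/-- `A` has the spectral permanence property, in a strong form: whenever `A` sits as a closed
subalgebra (with the same unit) of a complex Banach algebra `B`, commutative or not, that is,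
`ι : A → B` is a unital algebra homomorphism which is a homeomorphism onto a closed subset of `B`,
every `x` in `A` has the same spectrum in `A` and in `B`. -/
def SpectralPermanence (A : Type u) [NormedRing A] [NormedAlgebra ℂ A] : Prop :=
  ∀ (B : Type v) [NormedRing B] [NormedAlgebra ℂ B] [CompleteSpace B] (ι : A →ₐ[ℂ] B),
    Topology.IsClosedEmbedding ι → ∀ x : A, spectrum ℂ x = spectrum ℂ (ι x)

end Pool.Agent.H452Z.Mult
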