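import Mathlib
import Pool.Agent.H452Z.Chars
import Pool.Agent.H452Z.MultDefs

set_option linter.unusedSectionVars false

namespace Pool.Agent.H452Z.Mult

open MeasureTheory Filter Topology Pool.Agent.H452Z.Chars
open scoped ENNReal

universe u v

theorem spectralPermanence_of_tdz (A : Type u) [NormedRing A] [NormedAlgebra ℂ A]
    (H : ∀ a : A, ¬ IsUnit a → ∀ ε : ℝ, 0 < ε → ∃ y : A, 1 ≤ ‖y‖ ∧ ‖a * y‖ ≤ ε) :
    SpectralPermanence.{u, v} A := by
  intro B _ _ _ ι hι x
  apply Set.Subset.antisymm _ (AlgHom.spectrum_apply_subset ι x)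
  intro c hc
  rw [spectrum.mem_iff] at hc ⊢
  intro hu
  let L : A →L[ℂ] B := ⟨ι.toLinearMap, hι.continuous⟩
  obtain ⟨C, hC⟩ := L.antilipschitz_of_isEmbedding hι.isEmbedding
  set a : A := algebraMap ℂ A c - x with ha
  have hιa : ι a = algebraMap ℂ B c - ι x := by rw [ha, map_sub, AlgHom.commutes]
  rw [← hιa] at hu
  obtain ⟨b, hb⟩ := hu.exists_left_inv
  set M : ℝ := (C : ℝ) * (‖b‖ * ‖L‖) with hM
  have hM0 : 0 ≤ M := by positivity
  obtain ⟨y, hy1, hy2⟩ := H a hc (1 / (2 * (M + 1))) (by positivity)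
  have h1 : ‖y‖ ≤ C * ‖L y‖ := hC.le_mul_norm (map_zero L) y
  have h2 : L y = b * L (a * y) := by
    change ι y = b * ι (a * y)
    rw [map_mul, ← mul_assoc, hb, one_mul]
  have h3 : ‖L y‖ ≤ ‖b‖ * (‖L‖ * ‖a * y‖) := by
    rw [h2]
    exact (norm_mul_le _ _).trans (mul_le_mul_of_nonneg_left (L.le_opNorm _) (norm_nonneg _))
  have h4 : ‖y‖ ≤ M * ‖a * y‖ := by
    calc ‖y‖ ≤ C * ‖L y‖ := h1
      _ ≤ C * (‖b‖ * (‖L‖ * ‖a * y‖)) := mul_le_mul_of_nonneg_left h3 C.2
      _ = M * ‖a * y‖ := by rw [hM]; ring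
  have h5 : M * ‖a * y‖ ≤ M * (1 / (2 * (M + 1))) := mul_le_mul_of_nonneg_left hy2 hM0
  have h6 : M * (1 / (2 * (M + 1))) < 1 := by
    rw [mul_one_div, div_lt_one (by positivity)]
    linarith
  linarith

variable {G : Type u} [CommGroup G] [TopologicalSpace G] [IsTopologicalGroup G]
  [CompactSpace G] [T2Space G] [MeasurableSpace G] [BorelSpace G]
  (μ : Measure G) [μ.IsHaarMeasure] (p : ℝ≥0∞) [Fact (1 ≤ p)]

lemma mem_mult {T : Lp ℂ p μ →L[ℂ] Lp ℂ p μ} :
    T ∈ multiplierAlgebra μ p ↔ ∀ a f, translation μ p a (T f) = T (translation μ p a f) := by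
  unfold multiplierAlgebra
  rw [Subalgebra.mem_centralizer_iff]
  constructor
  · intro h a f
    exact congrArg (fun S : Lp ℂ p μ →L[ℂ] Lp ℂ p μ => S f) (h _ ⟨a, rfl⟩)
  · rintro h _ ⟨a, rfl⟩
    ext1 f
    exact h a f

lemma tr_norm (a : G) (f : Lp ℂ p μ) : ‖translation μ p a f‖ = ‖f‖ :=
  (Lp.compMeasurePreservingₗᵢ ℂ (fun x => a * x) (measurePreserving_mul_left μ a)).norm_map f

lemma tr_coe (a : G) (f : Lp ℂ p μ) : translation μ p a f =ᵐ[μ] fun x => f (a * x) :=
  Lp.coeFn_compMeasurePreserving f (measurePreserving_mul_left μ a)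

lemma tr_tr (a b : G) (f : Lp ℂ p μ) :
    translation μ p a (translation μ p b f) = translation μ p (a * b) f := by
  ext1
  have h1 := tr_coe μ p a (translation μ p b f)
  have h2 := (measurePreserving_mul_left μ a).quasiMeasurePreserving.ae_eq_comp (tr_coe μ p b f)
  have h3 := tr_coe μ p (a * b) f
  filter_upwards [h1, h2, h3] with x x1 x2 x3
  rw [x1, x3]
  simp only [Function.comp] at x2
  rw [x2, ← mul_assoc, mul_comm b a]

lemma tr_one (f : Lp ℂ p μ) : translation μ p 1 f = f := by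
  ext1
  filter_upwards [tr_coe μ p 1 f] with x hx
  rw [hx, one_mul]

lemma tr_cont (hp : p ≠ ∞) (f : Lp ℂ p μ) : Continuous fun a => translation μ p a f := by
  let g : G → C(G, G) := ContinuousMap.curry ⟨fun q : G × G => q.1 * q.2, by fun_prop⟩
  exact Continuous.compMeasurePreservingLp (f := fun _ : G => f) (g := g) continuous_const
    (ContinuousMap.continuous _) (fun a => measurePreserving_mul_left μ a) hp

/-- the class of a continuous function -/
noncomputable abbrev ee (χ : C(G, ℂ)) : Lp ℂ p μ := ContinuousMap.toLp p μ ℂ χ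

lemma tr_ee (a : G) {χ : C(G, ℂ)} (h : IsChar χ) :
    translation μ p a (ee μ p χ) = χ a • ee μ p χ := by
  ext1
  have h1 := tr_coe μ p a (ee μ p χ)
  have h0 := ContinuousMap.coeFn_toLp (p := p) (𝕜 := ℂ) μ χ
  have h2 := (measurePreserving_mul_left μ a).quasiMeasurePreserving.ae_eq_comp h0
  filter_upwards [h1, h2, h0, Lp.coeFn_smul (χ a) (ee μ p χ)] with x x1 x2 x3 x4
  rw [x1, x4, Pi.smul_apply, x3]
  simp only [Function.comp] at x2
  rw [x2, h.2, smul_eq_mul]

lemma ee_ne_zero {χ : C(G, ℂ)} (h : IsChar χ) : ee μ p χ ≠ 0 := by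
  intro h0
  have h1 := ContinuousMap.toLp_injective (p := p) (𝕜 := ℂ) (E := ℂ) μ
    (h0.trans (map_zero _).symm)
  have h2 := h.1
  rw [h1] at h2
  simp at h2

lemma integrable_conv (hp : p ≠ ∞) (k : C(G, ℂ)) (f : Lp ℂ p μ) :
    Integrable (fun a => k a • translation μ p a f) μ :=
  (k.continuous.smul (tr_cont μ p hp f)).integrable_of_hasCompactSupport
    (HasCompactSupport.of_compactSpace _)

lemma integrable_norm (k : C(G, ℂ)) : Integrable (fun a => ‖k a‖) μ :=
  k.continuous.norm.integrable_of_hasCompactSupport (HasCompactSupport.of_compactSpace _)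

lemma conv_norm_le (k : C(G, ℂ)) (f : Lp ℂ p μ) :
    ‖∫ a, k a • translation μ p a f ∂μ‖ ≤ (∫ a, ‖k a‖ ∂μ) * ‖f‖ := by
  refine (norm_integral_le_integral_norm _).trans (le_of_eq ?_)
  simp_rw [norm_smul, tr_norm]
  rw [integral_mul_const]

/-- convolution operator -/
noncomputable def conv (hp : p ≠ ∞) (k : C(G, ℂ)) : Lp ℂ p μ →L[ℂ] Lp ℂ p μ :=
  LinearMap.mkContinuous
    { toFun := fun f => ∫ a, k a • translation μ p a f ∂μ
      map_add' := fun f g => by
        simp_rw [map_add, smul_add]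
        exact integral_add (integrable_conv μ p hp k f) (integrable_conv μ p hp k g)
      map_smul' := fun c f => by
        simp_rw [map_smul, smul_comm _ c]
        exact integral_smul c _ }
    (∫ a, ‖k a‖ ∂μ) (conv_norm_le μ p k)

lemma conv_apply (hp : p ≠ ∞) (k : C(G, ℂ)) (f : Lp ℂ p μ) :
    conv μ p hp k f = ∫ a, k a • translation μ p a f ∂μ := rfl

lemma conv_comm (hp : p ≠ ∞) (k : C(G, ℂ)) {T : Lp ℂ p μ →L[ℂ] Lp ℂ p μ}
    (hT : T ∈ multiplierAlgebra μ p) (f : Lp ℂ p μ) :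
    T (conv μ p hp k f) = conv μ p hp k (T f) := by
  rw [conv_apply, conv_apply, ← T.integral_comp_comm (integrable_conv μ p hp k f)]
  simp_rw [map_smul, (mem_mult μ p).mp hT]

lemma tr_mem (a : G) : translation μ p a ∈ multiplierAlgebra μ p := by
  rw [mem_mult]
  intro b f
  rw [tr_tr, tr_tr, mul_comm]

lemma conv_mem (hp : p ≠ ∞) (k : C(G, ℂ)) : conv μ p hp k ∈ multiplierAlgebra μ p := by
  rw [mem_mult]
  intro a f
  exact conv_comm μ p hp k (tr_mem μ p a) f

lemma conv_opnorm (hp : p ≠ ∞) (k : C(G, ℂ)) : ‖conv μ p hp k‖ ≤ ∫ a, ‖k a‖ ∂μ :=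
  LinearMap.mkContinuous_norm_le _ (integral_nonneg fun _ => norm_nonneg _) _

lemma conv_add (hp : p ≠ ∞) (k l : C(G, ℂ)) :
    conv μ p hp (k + l) = conv μ p hp k + conv μ p hp l := by
  ext1 f
  rw [ContinuousLinearMap.add_apply, conv_apply, conv_apply, conv_apply]
  simp_rw [ContinuousMap.add_apply, add_smul]
  exact integral_add (integrable_conv μ p hp k f) (integrable_conv μ p hp l f)

lemma conv_smul (hp : p ≠ ∞) (c : ℂ) (k : C(G, ℂ)) :
    conv μ p hp (c • k) = c • conv μ p hp k := by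
  ext1 f
  rw [ContinuousLinearMap.smul_apply, conv_apply, conv_apply]
  simp_rw [ContinuousMap.smul_apply, smul_assoc]
  exact integral_smul c _

/-- convolution as a continuous linear map of the kernel -/
noncomputable def convL (hp : p ≠ ∞) : C(G, ℂ) →L[ℂ] (Lp ℂ p μ →L[ℂ] Lp ℂ p μ) :=
  LinearMap.mkContinuous
    { toFun := conv μ p hp
      map_add' := conv_add μ p hp
      map_smul' := conv_smul μ p hp } (μ.real Set.univ) (fun k => by
    refine (conv_opnorm μ p hp k).trans ?_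
    calc ∫ a, ‖k a‖ ∂μ ≤ ∫ _, ‖k‖ ∂μ :=
          integral_mono (integrable_norm μ k) (integrable_const _) fun a => k.norm_coe_le_norm a
      _ = μ.real Set.univ * ‖k‖ := by rw [integral_const, smul_eq_mul])

lemma conv_eigen (hp : p ≠ ∞) (k : C(G, ℂ)) {χ : C(G, ℂ)} {f : Lp ℂ p μ}
    (hf : ∀ a, translation μ p a f = χ a • f) :
    conv μ p hp k f = (∫ a, k a * χ a ∂μ) • f := by
  rw [conv_apply]
  simp_rw [hf, smul_smul]
  exact integral_smul_const _ _

lemma integral_char {χ : C(G, ℂ)} (h : IsChar χ) (hne : χ ≠ 1) : ∫ a, χ a ∂μ = 0 := by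
  obtain ⟨b, hb⟩ : ∃ b, χ b ≠ 1 := by
    by_contra hc
    push Not at hc
    exact hne (ContinuousMap.ext hc)
  have h1 := integral_mul_left_eq_self (μ := μ) (fun a => χ a) b
  simp_rw [h.2] at h1
  rw [integral_const_mul] at h1
  have h2 : (χ b - 1) * ∫ a, χ a ∂μ = 0 := by rw [sub_mul, one_mul, h1, sub_self]
  exact (mul_eq_zero.mp h2).resolve_left (sub_ne_zero.mpr hb)

lemma integral_star_self {χ : C(G, ℂ)} (h : IsChar χ) :
    ∫ a, (star χ) a * χ a ∂μ = (μ.real Set.univ : ℂ) := by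
  have : ∀ a, (star χ) a * χ a = 1 := fun a =>
    congrArg (fun F : C(G, ℂ) => F a) h.star_mul_self
  simp_rw [this]
  rw [integral_const]; simp

lemma mass_pos : 0 < μ.real Set.univ := by
  rw [Measure.real, ENNReal.toReal_pos_iff]
  exact ⟨isOpen_univ.measure_pos μ Set.univ_nonempty, measure_lt_top _ _⟩

/-- induction principle: closed properties of `L^p` functions may be checked on characters -/
lemma dense_span (hp : p ≠ ∞) :
    Dense ((Submodule.span ℂ {f : Lp ℂ p μ | ∃ χ, IsChar χ ∧ f = ee μ p χ} :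
      Submodule ℂ (Lp ℂ p μ)) : Set (Lp ℂ p μ)) := by
  have h1 := ContinuousMap.toLp_denseRange ℂ μ ℂ (p := p) hp
  have h2 := h1.dense_image (ContinuousMap.toLp p μ ℂ).continuous (trig_dense (G := G))
  refine h2.mono ?_
  rintro _ ⟨k, hk, rfl⟩
  change k ∈ trig G at hk
  induction hk using Submodule.span_induction with
  | mem x hx => exact Submodule.subset_span ⟨x, hx, rfl⟩
  | zero => simp
  | add x y _ _ hx hy => rw [map_add]; exact Submodule.add_mem _ hx hy
  | smul c x _ hx => rw [map_smul]; exact Submodule.smul_mem _ c hx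

lemma mem_of_chars (hp : p ≠ ∞) (V : Submodule ℂ (Lp ℂ p μ)) (hV : IsClosed (V : Set (Lp ℂ p μ)))
    (h : ∀ χ, IsChar χ → ee μ p χ ∈ V) (f : Lp ℂ p μ) : f ∈ V := by
  have h1 : Submodule.span ℂ {f : Lp ℂ p μ | ∃ χ, IsChar χ ∧ f = ee μ p χ} ≤ V := by
    rw [Submodule.span_le]
    rintro _ ⟨χ, hχ, rfl⟩
    exact h χ hχ
  exact closure_minimal h1 hV (dense_span μ p hp f)

lemma conv_star_range (hp : p ≠ ∞) {χ : C(G, ℂ)} (h : IsChar χ) (f : Lp ℂ p μ) :
    ∃ c : ℂ, conv μ p hp (star χ) f = c • ee μ p χ := by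
  have h1 := mem_of_chars μ p hp
    ((Submodule.span ℂ {ee μ p χ}).comap (conv μ p hp (star χ)).toLinearMap)
    ((Submodule.span ℂ {ee μ p χ}).closed_of_finiteDimensional.preimage
      (conv μ p hp (star χ)).continuous) (by
      intro ψ hψ
      change conv μ p hp (star χ) (ee μ p ψ) ∈ Submodule.span ℂ {ee μ p χ}
      rw [conv_eigen μ p hp _ (fun a => tr_ee μ p a hψ)]
      by_cases he : ψ = χ
      · subst he
        exact Submodule.smul_mem _ _ (Submodule.mem_span_singleton_self _)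
      · have h2 : star χ * ψ ≠ 1 := by
          intro h3
          apply he
          calc ψ = (star χ * χ) * ψ := by rw [h.star_mul_self, one_mul]
            _ = χ * (star χ * ψ) := by ring
            _ = χ := by rw [h3, mul_one]
        have h4 := integral_char μ (h.star.mul hψ) h2
        simp_rw [ContinuousMap.mul_apply] at h4
        rw [h4, zero_smul]
        exact Submodule.zero_mem _) f
  obtain ⟨c, hc⟩ := Submodule.mem_span_singleton.mp h1
  exact ⟨c, hc.symm⟩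

lemma mult_eigen (hp : p ≠ ∞) {T : Lp ℂ p μ →L[ℂ] Lp ℂ p μ} (hT : T ∈ multiplierAlgebra μ p)
    {χ : C(G, ℂ)} (h : IsChar χ) : ∃ t : ℂ, T (ee μ p χ) = t • ee μ p χ := by
  obtain ⟨c, hc⟩ := conv_star_range μ p hp h (T (ee μ p χ))
  rw [conv_eigen μ p hp _ (χ := χ) (fun a => by
    rw [(mem_mult μ p).mp hT, tr_ee μ p a h, map_smul]), integral_star_self μ h] at hc
  have hm : (μ.real Set.univ : ℂ) ≠ 0 := by exact_mod_cast (mass_pos μ).ne'
  refine ⟨(μ.real Set.univ : ℂ)⁻¹ * c, ?_⟩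
  rw [← smul_smul, ← hc, smul_smul, inv_mul_cancel₀ hm, one_smul]

lemma mult_comm (hp : p ≠ ∞) {S T : Lp ℂ p μ →L[ℂ] Lp ℂ p μ} (hS : S ∈ multiplierAlgebra μ p)
    (hT : T ∈ multiplierAlgebra μ p) (f : Lp ℂ p μ) : S (T f) = T (S f) := by
  have := mem_of_chars μ p hp (LinearMap.ker (S * T - T * S).toLinearMap)
    (ContinuousLinearMap.isClosed_ker _) (by
      intro χ hχ
      obtain ⟨s, hs⟩ := mult_eigen μ p hp hS hχ
      obtain ⟨t, ht⟩ := mult_eigen μ p hp hT hχ
      change S (T (ee μ p χ)) - T (S (ee μ p χ)) = 0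
      rw [ht, hs, map_smul, map_smul, ht, hs, smul_comm, sub_self]) f
  exact sub_eq_zero.mp this

lemma approx_id (hp : p ≠ ∞) (f : Lp ℂ p μ) {ε : ℝ} (hε : 0 < ε) :
    ∃ k : C(G, ℂ), ∫ a, ‖k a‖ ∂μ = 1 ∧ ‖conv μ p hp k f - f‖ ≤ ε := by
  have hc := tr_cont μ p hp f
  let g : G → ℝ := fun a => max 0 (ε - ‖translation μ p a f - f‖)
  have hg : Continuous g := continuous_const.max (continuous_const.sub (hc.sub continuous_const).norm)
  have hg0 : ∀ a, 0 ≤ g a := fun a => le_max_left _ _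
  have hgi : Integrable g μ := hg.integrable_of_hasCompactSupport (HasCompactSupport.of_compactSpace _)
  have hI : 0 < ∫ a, g a ∂μ := by
    apply hg.integral_pos_of_hasCompactSupport_nonneg_nonzero (HasCompactSupport.of_compactSpace _)
      hg0 (x := 1)
    simp only [g, tr_one, sub_self, norm_zero, sub_zero]
    rw [max_eq_right hε.le]; exact hε.ne'
  set I := ∫ a, g a ∂μ with hIdef
  let k : C(G, ℂ) := ⟨fun a => ((g a / I : ℝ) : ℂ), by fun_prop⟩
  have hk : ∀ a, ‖k a‖ = g a / I := fun a => by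
    change ‖((g a / I : ℝ) : ℂ)‖ = _
    rw [Complex.norm_real, Real.norm_of_nonneg (div_nonneg (hg0 a) hI.le)]
  have hk1 : ∫ a, ‖k a‖ ∂μ = 1 := by
    simp_rw [hk]
    rw [integral_div, div_self hI.ne']
  refine ⟨k, hk1, ?_⟩
  have hk2 : ∫ a, k a ∂μ = 1 := by
    change ∫ a, ((g a / I : ℝ) : ℂ) ∂μ = 1
    rw [integral_complex_ofReal, integral_div, div_self hI.ne']; simp
  have hki : Integrable (fun a => k a) μ :=
    k.continuous.integrable_of_hasCompactSupport (HasCompactSupport.of_compactSpace _)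
  have e : conv μ p hp k f - f = ∫ a, k a • (translation μ p a f - f) ∂μ := by
    simp_rw [smul_sub]
    rw [integral_sub (integrable_conv μ p hp k f) (hki.smul_const f), integral_smul_const, hk2,
      one_smul, conv_apply]
  rw [e]
  refine (norm_integral_le_of_norm_le ((integrable_norm μ k).mul_const ε)
    (Eventually.of_forall fun a => ?_)).trans (le_of_eq ?_)
  · rw [norm_smul]
    by_cases ha : ‖translation μ p a f - f‖ ≤ ε
    · exact mul_le_mul_of_nonneg_left ha (norm_nonneg _)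
    · have : g a = 0 := max_eq_left (by linarith)
      rw [hk, this]; simp
  · rw [integral_mul_const, hk1, one_mul]

theorem isUnit_of_bddBelow (hp : p ≠ ∞) (T : multiplierAlgebra μ p) {c : ℝ} (hc : 0 < c)
    (hT : ∀ S : multiplierAlgebra μ p, c * ‖S‖ ≤ ‖T * S‖) : IsUnit T := by
  have hT' : ∀ S ∈ multiplierAlgebra μ p, c * ‖S‖ ≤ ‖T.1 * S‖ := fun S hS => hT ⟨S, hS⟩
  have hm : (μ.real Set.univ : ℂ) ≠ 0 := by exact_mod_cast (mass_pos μ).ne'
  have eig : ∀ χ, IsChar χ → ∃ t : ℂ, t ≠ 0 ∧ T.1 (ee μ p χ) = t • ee μ p χ ∧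
      T.1 * conv μ p hp (star χ) = t • conv μ p hp (star χ) := by
    intro χ hχ
    obtain ⟨t, ht⟩ := mult_eigen μ p hp T.2 hχ
    have h1 : T.1 * conv μ p hp (star χ) = t • conv μ p hp (star χ) := by
      ext1 f
      obtain ⟨d, hd⟩ := conv_star_range μ p hp hχ f
      rw [ContinuousLinearMap.mul_apply, ContinuousLinearMap.smul_apply, hd, map_smul, ht,
        smul_comm]
    refine ⟨t, fun h0 => ?_, ht, h1⟩
    have h2 := hT' _ (conv_mem μ p hp (star χ))
    rw [h1, h0, zero_smul, norm_zero] at h2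
    have h3 : conv μ p hp (star χ) = 0 := by
      rw [← norm_le_zero_iff]
      by_contra h4
      push Not at h4
      nlinarith
    have h4 := conv_eigen μ p hp (star χ) (fun a => tr_ee μ p a hχ)
    rw [h3, integral_star_self μ hχ, ContinuousLinearMap.zero_apply] at h4
    exact ee_ne_zero μ p hχ ((smul_eq_zero.mp h4.symm).resolve_left hm)
  have trigS : ∀ k ∈ trig G, ∃ S ∈ multiplierAlgebra μ p, T.1 * S = conv μ p hp k := by
    intro k hk
    induction hk using Submodule.span_induction with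
    | mem χ hχ =>
      obtain ⟨t, ht0, -, ht⟩ := eig (star χ) (IsChar.star hχ)
      rw [star_star] at ht
      refine ⟨t⁻¹ • conv μ p hp χ, Subalgebra.smul_mem _ (conv_mem μ p hp χ) _, ?_⟩
      rw [mul_smul_comm, ht, smul_smul, inv_mul_cancel₀ ht0, one_smul]
    | zero =>
      refine ⟨0, Subalgebra.zero_mem _, ?_⟩
      rw [mul_zero]
      exact (map_zero (convL μ p hp)).symm
    | add x y _ _ hx hy =>
      obtain ⟨S, hS, e⟩ := hx
      obtain ⟨S', hS', e'⟩ := hy
      exact ⟨S + S', Subalgebra.add_mem _ hS hS', by rw [mul_add, e, e', conv_add]⟩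
    | smul d x _ hx =>
      obtain ⟨S, hS, e⟩ := hx
      exact ⟨d • S, Subalgebra.smul_mem _ hS d, by rw [mul_smul_comm, e, conv_smul]⟩
  have allk : ∀ (f : Lp ℂ p μ) (k : C(G, ℂ)),
      c * ‖convL μ p hp k f‖ ≤ ‖convL μ p hp k‖ * ‖T.1 f‖ := by
    intro f k
    have hcl : IsClosed {k : C(G, ℂ) | c * ‖convL μ p hp k f‖ ≤ ‖convL μ p hp k‖ * ‖T.1 f‖} :=
      isClosed_le (by fun_prop) (by fun_prop)
    refine closure_minimal (s := (trig G : Set C(G, ℂ))) ?_ hcl (trig_dense k)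
    intro k hk
    obtain ⟨S, hS, e⟩ := trigS k hk
    change c * ‖conv μ p hp k f‖ ≤ ‖conv μ p hp k‖ * ‖T.1 f‖
    have h1 := hT' S hS
    rw [e] at h1
    have h2 : conv μ p hp k f = S (T.1 f) := by
      rw [← e, ContinuousLinearMap.mul_apply, mult_comm μ p hp T.2 hS]
    rw [h2]
    calc c * ‖S (T.1 f)‖ ≤ c * (‖S‖ * ‖T.1 f‖) := mul_le_mul_of_nonneg_left (S.le_opNorm _) hc.le
      _ = (c * ‖S‖) * ‖T.1 f‖ := by ring
      _ ≤ _ := mul_le_mul_of_nonneg_right h1 (norm_nonneg _)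
  have below : ∀ f : Lp ℂ p μ, c * ‖f‖ ≤ ‖T.1 f‖ := by
    intro f
    apply le_of_forall_pos_le_add
    intro ε hε
    obtain ⟨k, hk1, hk2⟩ := approx_id μ p hp f (ε := ε / c) (by positivity)
    have h1 : c * ‖conv μ p hp k f‖ ≤ ‖conv μ p hp k‖ * ‖T.1 f‖ := allk f k
    have h2 := conv_opnorm μ p hp k
    rw [hk1] at h2
    have h3 : ‖f‖ ≤ ‖conv μ p hp k f‖ + ε / c := by
      have := norm_sub_norm_le f (conv μ p hp k f)
      rw [norm_sub_rev] at this
      linarith
    have h4 : ‖conv μ p hp k‖ * ‖T.1 f‖ ≤ 1 * ‖T.1 f‖ :=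
      mul_le_mul_of_nonneg_right h2 (norm_nonneg _)
    have h5 : c * ‖f‖ ≤ c * (‖conv μ p hp k f‖ + ε / c) := mul_le_mul_of_nonneg_left h3 hc.le
    rw [mul_add, mul_div_cancel₀ _ hc.ne'] at h5
    linarith
  have hanti : AntilipschitzWith (⟨c⁻¹, by positivity⟩ : NNReal) T.1 := by
    apply AddMonoidHomClass.antilipschitz_of_bound
    intro f
    change ‖f‖ ≤ c⁻¹ * ‖T.1 f‖
    rw [inv_mul_eq_div, le_div_iff₀ hc, mul_comm]
    exact below f
  have hker : LinearMap.ker T.1.toLinearMap = ⊥ := LinearMap.ker_eq_bot.mpr hanti.injective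
  have hrange : LinearMap.range T.1.toLinearMap = ⊤ := by
    rw [eq_top_iff]
    intro f _
    refine mem_of_chars μ p hp _ (hanti.isClosed_range T.1.uniformContinuous) ?_ f
    intro χ hχ
    obtain ⟨t, ht0, ht, -⟩ := eig χ hχ
    refine ⟨t⁻¹ • ee μ p χ, ?_⟩
    change T.1 (t⁻¹ • ee μ p χ) = _
    rw [map_smul, ht, smul_smul, inv_mul_cancel₀ ht0, one_smul]
  let E := ContinuousLinearEquiv.ofBijective T.1 hker hrange
  have hE : ∀ f, E f = T.1 f := fun _ => rfl
  have hR : (E.symm : Lp ℂ p μ →L[ℂ] Lp ℂ p μ) ∈ multiplierAlgebra μ p := by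
    rw [mem_mult]
    intro a f
    apply E.injective
    change E (translation μ p a (E.symm f)) = E (E.symm (translation μ p a f))
    rw [E.apply_symm_apply, hE, ← (mem_mult μ p).mp T.2, ← hE, E.apply_symm_apply]
  refine ⟨⟨T, ⟨_, hR⟩, ?_, ?_⟩, rfl⟩
  · apply Subtype.ext
    ext1 f
    exact E.apply_symm_apply f
  · apply Subtype.ext
    ext1 f
    exact E.symm_apply_apply f

theorem tdz_of_bddBelow (A : Type u) [NormedRing A] [NormedAlgebra ℂ A]
    (H : ∀ (T : A) (c : ℝ), 0 < c → (∀ S : A, c * ‖S‖ ≤ ‖T * S‖) → IsUnit T)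
    (T : A) (hT : ¬ IsUnit T) (ε : ℝ) (hε : 0 < ε) : ∃ S : A, 1 ≤ ‖S‖ ∧ ‖T * S‖ ≤ ε := by
  by_contra hcon
  push Not at hcon
  apply hT
  apply H T ε hε
  intro S
  by_cases hS : S = 0
  · rw [hS]; simp
  · have hn : 0 < ‖S‖ := norm_pos_iff.mpr hS
    have h1 := hcon (((‖S‖⁻¹ : ℝ) : ℂ) • S) (by
      rw [norm_smul, Complex.norm_real, Real.norm_of_nonneg (by positivity),
        inv_mul_cancel₀ hn.ne'])
    rw [mul_smul_comm, norm_smul, Complex.norm_real, Real.norm_of_nonneg (by positivity),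
      inv_mul_eq_div, lt_div_iff₀ hn] at h1
    exact h1.le

theorem mult_spectralPermanence (hp : p ≠ ∞) :
    SpectralPermanence.{u, v} (multiplierAlgebra μ p) :=
  spectralPermanence_of_tdz _ (tdz_of_bddBelow _ fun T _ hc hT => isUnit_of_bddBelow μ p hp T hc hT)

end Pool.Agent.H452Z.Mult
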